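import Mathlib
import Pool.Graph.R_seed8.H382R2.Gam

set_option autoImplicit false
set_option maxHeartbeats 1000000

/-!
# Functions with a slowly varying logarithmic derivative in a half plane
-/

open Complex Filter Topology Set

namespace Pool.Agent.Helper40.HF

/-- `G' = ℓ G` and `|ℓ'(s)| ≤ d / Re s` for `Re s ≥ R0` -/
structure LD (G ℓ : ℂ → ℂ) (R0 d : ℝ) : Prop where
  R1 : 1 ≤ R0
  d0 : 0 ≤ d
  der : ∀ s : ℂ, R0 ≤ s.re → HasDerivAt G (ℓ s * G s) s
  ne : ∀ s : ℂ, R0 ≤ s.re → G s ≠ 0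
  der2 : ∀ s : ℂ, R0 ≤ s.re → ∃ l' : ℂ, HasDerivAt ℓ l' s ∧ ‖l'‖ ≤ d / s.re

variable {G ℓ : ℂ → ℂ} {R0 d : ℝ}

namespace LD

variable (h : LD G ℓ R0 d)
include h

lemma lip {m : ℝ} (hm : R0 ≤ m) {s s' : ℂ} (hs : m ≤ s.re) (hs' : m ≤ s'.re) :
    ‖ℓ s - ℓ s'‖ ≤ d / m * ‖s - s'‖ := by
  have h1 := h.R1
  have hconv : Convex ℝ {z : ℂ | m ≤ z.re} := convex_halfSpace_re_ge m
  have key : ∀ z ∈ {z : ℂ | m ≤ z.re}, ∃ l' : ℂ, HasDerivAt ℓ l' z ∧ ‖l'‖ ≤ d / m := by
    intro z hz
    have hz' : m ≤ z.re := hz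
    obtain ⟨l', h2, h3⟩ := h.der2 z (hm.trans hz')
    refine ⟨l', h2, h3.trans ?_⟩
    exact div_le_div_of_nonneg_left h.d0 (by linarith) hz'
  refine hconv.norm_image_sub_le_of_norm_deriv_le (f := ℓ) ?_ ?_ hs' hs
  · intro z hz
    obtain ⟨l', h2, _⟩ := key z hz
    exact h2.differentiableAt
  · intro z hz
    obtain ⟨l', h2, h3⟩ := key z hz
    rw [h2.deriv]
    exact h3

/-- second order expansion -/
lemma seg {m : ℝ} (hm : R0 ≤ m) {p q : ℂ} (hp : m ≤ p.re) (hq : m ≤ q.re) :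
    ‖G q - G p * cexp (ℓ p * (q - p))‖ ≤
      (Real.exp (d / m * ‖q - p‖ ^ 2) - 1) * ‖G p * cexp (ℓ p * (q - p))‖ := by
  have h1 := h.R1
  set k : ℂ := q - p with hk
  set K : ℝ := d / m * ‖k‖ ^ 2 with hK
  have hK0 : 0 ≤ K := by
    have := h.d0
    have : 0 < m := by linarith
    positivity
  set F : ℝ → ℂ := fun x => G (p + x * k) * cexp (-(ℓ p * (x * k))) with hF
  set F' : ℝ → ℂ := fun x => (ℓ (p + x * k) - ℓ p) * k * F x with hF'
  have hre : ∀ x ∈ Icc (0 : ℝ) 1, m ≤ (p + (x : ℂ) * k).re := by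
    intro x hx
    have : (p + (x : ℂ) * k).re = (1 - x) * p.re + x * q.re := by
      rw [hk]
      simp only [add_re, mul_re, ofReal_re, ofReal_im, sub_re, zero_mul, sub_zero]
      ring
    rw [this]
    nlinarith [hx.1, hx.2, mul_le_mul_of_nonneg_left hp (show 0 ≤ 1 - x by linarith [hx.2]),
      mul_le_mul_of_nonneg_left hq hx.1]
  have hd : ∀ x ∈ Icc (0 : ℝ) 1, HasDerivAt F (F' x) x := by
    intro x hx
    have hlin : HasDerivAt (fun y : ℝ => p + (y : ℂ) * k) k x := by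
      have := ((Complex.ofRealCLM.hasDerivAt (x := x)).mul_const k).const_add p
      simpa using this
    have hG : HasDerivAt (fun y : ℝ => G (p + (y : ℂ) * k))
        (ℓ (p + x * k) * G (p + x * k) * k) x :=
      HasDerivAt.comp x (h.der _ (hm.trans (hre x hx))) hlin
    have hE : HasDerivAt (fun y : ℝ => cexp (-(ℓ p * ((y : ℂ) * k))))
        (cexp (-(ℓ p * (x * k))) * (-(ℓ p * k))) x := by
      have hl2 : HasDerivAt (fun y : ℝ => -(ℓ p * ((y : ℂ) * k))) (-(ℓ p * k)) x := by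
        have := (((Complex.ofRealCLM.hasDerivAt (x := x)).mul_const k).const_mul (ℓ p)).fun_neg
        simpa using this
      exact hl2.cexp
    have := hG.mul hE
    refine this.congr_deriv ?_
    rw [hF', hF]
    ring
  have hb : ∀ x ∈ Icc (0 : ℝ) 1, ‖F' x‖ ≤ K * ‖F x‖ := by
    intro x hx
    rw [hF']
    simp only
    rw [norm_mul, norm_mul]
    refine mul_le_mul_of_nonneg_right ?_ (norm_nonneg _)
    have h2 := h.lip hm (hre x hx) hp
    have h3 : ‖p + (x : ℂ) * k - p‖ ≤ ‖k‖ := by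
      rw [add_sub_cancel_left, norm_mul, Complex.norm_real, Real.norm_of_nonneg hx.1]
      nlinarith [norm_nonneg k, hx.2]
    calc ‖ℓ (p + x * k) - ℓ p‖ * ‖k‖ ≤ (d / m * ‖k‖) * ‖k‖ := by
          refine mul_le_mul_of_nonneg_right (h2.trans ?_) (norm_nonneg _)
          refine mul_le_mul_of_nonneg_left h3 ?_
          have := h.d0
          have : 0 < m := by linarith
          positivity
      _ = K := by rw [hK]; ring
  have key : ∀ e : ℝ, 0 < e → ‖F 1 - F 0‖ ≤ (Real.exp (K + e) - 1) * ‖F 0‖ := by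
    intro e he
    refine (SG.GamAux.gron F F' (K + e) (by linarith) hd fun x hx => (hb x hx).trans ?_).2
    refine mul_le_mul_of_nonneg_right (by linarith) (norm_nonneg _)
  have key2 : ‖F 1 - F 0‖ ≤ (Real.exp K - 1) * ‖F 0‖ := by
    have ht : Tendsto (fun e : ℝ => (Real.exp (K + e) - 1) * ‖F 0‖) (𝓝[>] 0)
        (𝓝 ((Real.exp (K + 0) - 1) * ‖F 0‖)) := by
      refine Tendsto.mono_left ?_ nhdsWithin_le_nhds
      have : Continuous fun e : ℝ => (Real.exp (K + e) - 1) * ‖F 0‖ := by fun_prop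
      exact this.tendsto 0
    rw [add_zero] at ht
    refine ge_of_tendsto ht ?_
    filter_upwards [self_mem_nhdsWithin] with e he
    exact key e he
  have e0 : F 0 = G p := by rw [hF]; simp
  have e1 : F 1 = G q * cexp (-(ℓ p * k)) := by
    rw [hF]
    simp only [ofReal_one, one_mul]
    rw [hk]
    congr 2
    ring
  rw [e0, e1] at key2
  have hex : cexp (ℓ p * k) ≠ 0 := Complex.exp_ne_zero _
  have e2 : G q - G p * cexp (ℓ p * k) = (G q * cexp (-(ℓ p * k)) - G p) * cexp (ℓ p * k) := by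
    rw [sub_mul, mul_assoc, ← Complex.exp_add]
    simp
  rw [e2, norm_mul, norm_mul]
  calc ‖G q * cexp (-(ℓ p * k)) - G p‖ * ‖cexp (ℓ p * k)‖ ≤
      ((Real.exp K - 1) * ‖G p‖) * ‖cexp (ℓ p * k)‖ :=
        mul_le_mul_of_nonneg_right key2 (norm_nonneg _)
    _ = _ := by ring

lemma seg_norm {m : ℝ} (hm : R0 ≤ m) {p q : ℂ} (hp : m ≤ p.re) (hq : m ≤ q.re) :
    ‖G q‖ ≤ Real.exp (d / m * ‖q - p‖ ^ 2) * ‖G p‖ * Real.exp ((ℓ p * (q - p)).re) := by
  have h1 := h.seg hm hp hq
  have h2 : ‖G q‖ ≤ ‖G q - G p * cexp (ℓ p * (q - p))‖ + ‖G p * cexp (ℓ p * (q - p))‖ := by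
    calc ‖G q‖ = ‖(G q - G p * cexp (ℓ p * (q - p))) + G p * cexp (ℓ p * (q - p))‖ := by
          congr 1; ring
      _ ≤ _ := norm_add_le _ _
  have h3 : ‖G p * cexp (ℓ p * (q - p))‖ = ‖G p‖ * Real.exp ((ℓ p * (q - p)).re) := by
    rw [norm_mul, Complex.norm_exp]
  rw [h3] at h1 h2
  calc ‖G q‖ ≤ (Real.exp (d / m * ‖q - p‖ ^ 2) - 1) * (‖G p‖ * Real.exp ((ℓ p * (q - p)).re)) +
        ‖G p‖ * Real.exp ((ℓ p * (q - p)).re) := by linarith
    _ = _ := by ring

/-- the derivative of `log |G|` along horizontal lines -/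
lemma log_der (y : ℝ) {x : ℝ} (hx : R0 ≤ x) :
    HasDerivAt (fun r : ℝ => Real.log ‖G (r + y * I)‖) (ℓ (x + y * I)).re x := by
  have hre : ((x : ℂ) + y * I).re = x := by simp
  have hG := h.der (x + y * I) (by rw [hre]; exact hx)
  have hne := h.ne (x + y * I) (by rw [hre]; exact hx)
  have hlin : HasDerivAt (fun r : ℝ => (r : ℂ) + y * I) 1 x := by
    simpa using (Complex.ofRealCLM.hasDerivAt (x := x)).add_const (y * I)
  have hg : HasDerivAt (fun r : ℝ => G (r + y * I)) (ℓ (x + y * I) * G (x + y * I)) x := by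
    have := HasDerivAt.comp x hG hlin
    simpa [Function.comp_def] using this
  have hn : HasDerivAt (fun r : ℝ => ‖G (r + y * I)‖ ^ 2)
      (2 * (inner ℝ (G (x + y * I)) (ℓ (x + y * I) * G (x + y * I)) : ℝ)) x := by
    simpa using hg.norm_sq
  have hpos : (0 : ℝ) < ‖G (x + y * I)‖ ^ 2 := by
    have := norm_pos_iff.2 hne
    positivity
  have hl := (hn.log hpos.ne').div_const 2
  have e : (fun r : ℝ => Real.log ‖G (r + y * I)‖) =
      fun r : ℝ => Real.log (‖G (r + y * I)‖ ^ 2) / 2 := by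
    funext r
    rw [Real.log_pow]
    push_cast
    ring
  rw [e]
  refine hl.congr_deriv ?_
  have e2 : (inner ℝ (G (x + y * I)) (ℓ (x + y * I) * G (x + y * I)) : ℝ) =
      (ℓ (x + y * I)).re * ‖G (x + y * I)‖ ^ 2 := by
    rw [Complex.inner, ← Complex.normSq_eq_norm_sq, Complex.normSq_apply]
    simp only [mul_re, conj_re, conj_im, mul_im]
    ring
  rw [e2]
  field_simp

lemma re_anti (y : ℝ) {x X : ℝ} (hx : R0 ≤ x) (hX : x ≤ X) :
    (ℓ (X + y * I)).re - d * (Real.log X - Real.log x) ≤ (ℓ (x + y * I)).re := by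
  have h1 := h.R1
  have hder : ∀ r : ℝ, R0 ≤ r → ∃ l : ℝ, HasDerivAt (fun r : ℝ => (ℓ (r + y * I)).re) l r ∧
      |l| ≤ d / r := by
    intro r hr
    have hre : ((r : ℂ) + y * I).re = r := by simp
    obtain ⟨l', h2, h3⟩ := h.der2 (r + y * I) (by rw [hre]; exact hr)
    have hlin : HasDerivAt (fun r : ℝ => (r : ℂ) + y * I) 1 r := by
      simpa using (Complex.ofRealCLM.hasDerivAt (x := r)).add_const (y * I)
    have h4 : HasDerivAt (fun r : ℝ => ℓ (r + y * I)) l' r := by
      have := HasDerivAt.comp r h2 hlin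
      simpa [Function.comp_def] using this
    refine ⟨l'.re, ?_, ?_⟩
    · have h5 := (Complex.reCLM.hasFDerivAt (x := ℓ (r + y * I))).comp_hasDerivAt r h4
      exact h5
    · rw [hre] at h3
      exact (abs_re_le_norm l').trans h3
  have hanti : AntitoneOn (fun r : ℝ => (ℓ (r + y * I)).re - d * Real.log r) (Icc x X) := by
    refine antitoneOn_of_deriv_nonpos (convex_Icc _ _) ?_ ?_ ?_
    · intro r hr
      obtain ⟨l, h2, _⟩ := hder r (hx.trans hr.1)
      have hr0 : r ≠ 0 := by have := hr.1; linarith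
      exact (h2.sub ((Real.hasDerivAt_log hr0).const_mul d)).continuousAt.continuousWithinAt
    · intro r hr
      rw [interior_Icc] at hr
      obtain ⟨l, h2, _⟩ := hder r (hx.trans hr.1.le)
      have hr0 : r ≠ 0 := by have := hr.1; linarith
      exact (h2.sub ((Real.hasDerivAt_log hr0).const_mul d)).differentiableAt.differentiableWithinAt
    · intro r hr
      rw [interior_Icc] at hr
      obtain ⟨l, h2, h3⟩ := hder r (hx.trans hr.1.le)
      have hr0 : r ≠ 0 := by have := hr.1; linarith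
      rw [(h2.fun_sub ((Real.hasDerivAt_log hr0).const_mul d)).deriv]
      have h4 := le_abs_self l
      have h5 : d / r = d * r⁻¹ := div_eq_mul_inv _ _
      linarith
  have := hanti (left_mem_Icc.2 hX) (right_mem_Icc.2 hX) hX
  simp only at this
  linarith

/-- growth of `|G|` to the right -/
lemma left_le (y : ℝ) {x X : ℝ} (hx : R0 ≤ x) (hX : x ≤ X) :
    ‖G (x + y * I)‖ ≤ ‖G (X + y * I)‖ * Real.exp (-(((ℓ (X + y * I)).re - d) * (X - x))) := by
  have h1 := h.R1
  set U : ℝ := (ℓ (X + y * I)).re with hU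
  set P : ℝ → ℝ := fun r => U * r - d * (r + r * (Real.log X - Real.log r)) with hP
  have hPd : ∀ r : ℝ, 0 < r → HasDerivAt P (U - d * (Real.log X - Real.log r)) r := by
    intro r hr
    have e1 : HasDerivAt (fun r : ℝ => Real.log X - Real.log r) (-r⁻¹) r := by
      simpa using (Real.hasDerivAt_log hr.ne').const_sub (Real.log X)
    have e2 := ((hasDerivAt_id r).mul e1)
    have e3 := ((hasDerivAt_id r).const_mul U).sub (((hasDerivAt_id r).add e2).const_mul d)
    refine e3.congr_deriv ?_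
    simp only [id]
    field_simp
    ring
  have hmono : MonotoneOn (fun r : ℝ => Real.log ‖G (r + y * I)‖ - P r) (Icc x X) := by
    refine monotoneOn_of_deriv_nonneg (convex_Icc _ _) ?_ ?_ ?_
    · intro r hr
      have hr1 := hr.1
      exact ((h.log_der y (hx.trans hr.1)).sub (hPd r (by linarith))).continuousAt.continuousWithinAt
    · intro r hr
      rw [interior_Icc] at hr
      have hr1 := hr.1
      exact ((h.log_der y (hx.trans hr.1.le)).sub
        (hPd r (by linarith))).differentiableAt.differentiableWithinAt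
    · intro r hr
      rw [interior_Icc] at hr
      have hr1 := hr.1
      rw [((h.log_der y (hx.trans hr.1.le)).fun_sub (hPd r (by linarith))).deriv]
      have := h.re_anti y (hx.trans hr.1.le) hr.2.le
      linarith
  have h2 := hmono (left_mem_Icc.2 hX) (right_mem_Icc.2 hX) hX
  simp only [hP] at h2
  have hx0 : 0 < x := by linarith
  have h3 : 0 ≤ x * (Real.log X - Real.log x) := by
    have := Real.log_le_log hx0 hX
    exact mul_nonneg hx0.le (by linarith)
  have h4 := mul_nonneg h.d0 h3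
  have hG1 : 0 < ‖G (x + y * I)‖ := norm_pos_iff.2 (h.ne _ (by simpa using hx))
  have hG2 : 0 < ‖G (X + y * I)‖ := norm_pos_iff.2 (h.ne _ (by simpa using hx.trans hX))
  have h5 : Real.log ‖G (x + y * I)‖ ≤ Real.log ‖G (X + y * I)‖ - (U - d) * (X - x) := by
    rw [sub_self, mul_zero, add_zero] at h2
    nlinarith
  calc ‖G (x + y * I)‖ = Real.exp (Real.log ‖G (x + y * I)‖) := (Real.exp_log hG1).symm
    _ ≤ Real.exp (Real.log ‖G (X + y * I)‖ - (U - d) * (X - x)) := Real.exp_le_exp.2 h5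
    _ = _ := by rw [sub_eq_add_neg, Real.exp_add, Real.exp_log hG2]

end LD

end Pool.Agent.Helper40.HF
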