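import Pool.Agent.Helper40.HF.A

set_option autoImplicit false
set_option maxHeartbeats 1000000

/-!
# The integrand near and far from the saddle point
-/

open Complex Filter Topology Set

namespace Pool.Agent.Helper40.HF

/-- the Gaussian `exp(-z² / 4t)` -/
noncomputable def gs (t : ℝ) (z : ℂ) : ℂ := cexp (-(z ^ 2) / (4 * t))

/-- saddle point data at height `y` -/
structure Sad (f G ℓ : ℂ → ℂ) (R0 d t U a0 y η : ℝ) : Prop where
  ld : LD G ℓ R0 d
  t0 : 0 < t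
  ann : 0 ≤ a0
  sad : 2 * t * ℓ ((a0 + 2 * t * U : ℝ) + y * I) = (2 * t * U : ℝ) + η * I
  d1 : 100 * d ≤ U
  big : 240 * R0 ≤ 2 * t * U
  nu : 100000 ≤ t * U ^ 2
  f1 : ∀ s : ℂ, R0 ≤ s.re → ‖f s - G s‖ ≤ ‖G s‖ / 100
  f2 : ∀ x y : ℝ, ‖f (x + y * I)‖ ≤ 2 * ‖G ((|x| + 2 * R0 : ℝ) + y * I)‖

lemma norm_gs {t : ℝ} (x η : ℝ) : ‖gs t (x + η * I)‖ = Real.exp (-(x ^ 2 - η ^ 2) / (4 * t)) := by
  unfold gs
  rw [Complex.norm_exp]
  congr 1
  have e : -(((x : ℂ) + η * I) ^ 2) / (4 * t) =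
      ((-(x ^ 2 - η ^ 2) / (4 * t) : ℝ) : ℂ) + ((-(2 * x * η) / (4 * t) : ℝ) : ℂ) * I := by
    push_cast
    rw [div_mul_eq_mul_div, ← add_div]
    congr 1
    have : (I : ℂ) ^ 2 = -1 := I_sq
    linear_combination (-(η : ℂ) ^ 2) * this
  rw [e, add_re, ofReal_re, Complex.re_ofReal_mul, I_re, mul_zero, add_zero]

namespace Sad

variable {f G ℓ : ℂ → ℂ} {R0 d t U a0 y η : ℝ} (h : Sad f G ℓ R0 d t U a0 y η)
include h

lemma U0 : 0 < U := by
  have h1 := h.ld.R1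
  have h2 := h.big
  have h3 := h.t0
  by_contra hcon
  push Not at hcon
  nlinarith [mul_nonpos_of_nonneg_of_nonpos h3.le hcon]

lemma d_le : d / (t * U) ≤ 1 / (100 * t) := by
  have h1 := h.U0
  have h2 := h.t0
  have h3 := h.d1
  rw [div_le_div_iff₀ (by positivity) (by positivity)]
  nlinarith [mul_le_mul_of_nonneg_right h3 h2.le]

lemma l_re : (ℓ ((a0 + 2 * t * U : ℝ) + y * I)).re = U := by
  have h1 := congrArg re h.sad
  have h2 := h.t0
  rw [add_re, ofReal_re, show (2 * (t : ℂ)) = ((2 * t : ℝ) : ℂ) by push_cast; ring,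
    Complex.re_ofReal_mul] at h1
  simp only [mul_re, ofReal_re, I_re, mul_zero, ofReal_im, I_im, mul_one, sub_self, add_zero] at h1
  have h3 : (2 * t) * ((ℓ ((a0 + 2 * t * U : ℝ) + y * I)).re - U) = 0 := by linarith
  rcases mul_eq_zero.1 h3 with h4 | h4 <;> linarith

/-- the change of the Gaussian -/
lemma gs_eq (x : ℝ) : gs t (x + η * I) = gs t ((2 * t * U : ℝ) + η * I) *
    (cexp (-((x - 2 * t * U : ℝ) ^ 2 / (4 * t) : ℝ)) *
      cexp (-(ℓ ((a0 + 2 * t * U : ℝ) + y * I) * ((x - 2 * t * U : ℝ) : ℂ)))) := by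
  have h2 := h.t0
  have ht : (t : ℂ) ≠ 0 := by exact_mod_cast h2.ne'
  unfold gs
  rw [← Complex.exp_add, ← Complex.exp_add]
  congr 1
  have e := h.sad
  set l := ℓ ((a0 + 2 * t * U : ℝ) + y * I) with hl
  have e2 : l = ((2 * t * U : ℝ) + η * I) / (2 * t) := by
    rw [← e]; field_simp
  rw [e2]
  push_cast
  field_simp
  ring

/-- the value at the saddle point -/
noncomputable def _root_.Pool.Agent.Helper40.HF.Av (G : ℂ → ℂ) (t U a0 y η : ℝ) : ℂ :=
  G ((a0 + 2 * t * U : ℝ) + y * I) * gs t ((2 * t * U : ℝ) + η * I)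

lemma gs_ratio (x : ℝ) : ‖gs t (x + η * I)‖ = ‖gs t ((2 * t * U : ℝ) + η * I)‖ *
    Real.exp (-(x - 2 * t * U) ^ 2 / (4 * t) - U * (x - 2 * t * U)) := by
  rw [h.gs_eq, norm_mul, norm_mul, Complex.norm_exp, Complex.norm_exp, ← Real.exp_add]
  congr 2
  rw [← ofReal_neg, ofReal_re, neg_re, Complex.re_mul_ofReal, h.l_re]
  ring

lemma near {x : ℝ} (hx : t * U ≤ x) :
    ‖f ((a0 + x : ℝ) + y * I) * gs t (x + η * I) -
      Av G t U a0 y η * (Real.exp (-(x - 2 * t * U) ^ 2 / (4 * t)) : ℝ)‖ ≤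
      ‖Av G t U a0 y η‖ * (Real.exp (-(x - 2 * t * U) ^ 2 / (4 * t)) *
        (101 / 100 * Real.exp ((x - 2 * t * U) ^ 2 / (100 * t)) - 1)) := by
  have hU := h.U0
  have ht := h.t0
  have hbig := h.big
  have hR := h.ld.R1
  have ha := h.ann
  set p : ℂ := (a0 + 2 * t * U : ℝ) + y * I with hp
  set q : ℂ := (a0 + x : ℝ) + y * I with hq
  set v : ℝ := x - 2 * t * U with hv
  have hqp : q - p = (v : ℂ) := by
    rw [hq, hp, hv]; push_cast; ring
  have hm : R0 ≤ t * U := by nlinarith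
  have hpre : t * U ≤ p.re := by
    rw [hp]; simp
    nlinarith [mul_pos ht hU]
  have hqre : t * U ≤ q.re := by
    rw [hq]; simp
    linarith
  have s1 := h.ld.seg hm hpre hqre
  have s2 := h.ld.seg_norm hm hpre hqre
  rw [hqp] at s1 s2
  have hK : d / (t * U) * ‖(v : ℂ)‖ ^ 2 ≤ v ^ 2 / (100 * t) := by
    rw [Complex.norm_real, Real.norm_eq_abs, sq_abs]
    calc d / (t * U) * v ^ 2 ≤ 1 / (100 * t) * v ^ 2 :=
          mul_le_mul_of_nonneg_right h.d_le (sq_nonneg v)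
      _ = _ := by ring
  have hKe := Real.exp_le_exp.2 hK
  set E : ℂ := cexp (ℓ p * v) with hE
  have hEn : ‖E‖ = Real.exp ((ℓ p * v).re) := by rw [hE, Complex.norm_exp]
  have hE0 : 0 < ‖E‖ := by rw [hEn]; exact Real.exp_pos _
  have s3 : ‖f q - G p * E‖ ≤ (101 / 100 * Real.exp (v ^ 2 / (100 * t)) - 1) * ‖G p * E‖ := by
    have h5 := h.f1 q (hm.trans hqre)
    have h6 : ‖G q‖ ≤ Real.exp (v ^ 2 / (100 * t)) * ‖G p * E‖ := by
      refine s2.trans ?_
      rw [norm_mul, ← hEn]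
      have h7 : 0 ≤ ‖G p‖ * ‖E‖ := by positivity
      nlinarith
    have h8 : ‖G q - G p * E‖ ≤ (Real.exp (v ^ 2 / (100 * t)) - 1) * ‖G p * E‖ := by
      refine s1.trans (mul_le_mul_of_nonneg_right (by linarith) (norm_nonneg _))
    calc ‖f q - G p * E‖ = ‖(f q - G q) + (G q - G p * E)‖ := by congr 1; ring
      _ ≤ ‖f q - G q‖ + ‖G q - G p * E‖ := norm_add_le _ _
      _ ≤ Real.exp (v ^ 2 / (100 * t)) * ‖G p * E‖ / 100 +
          (Real.exp (v ^ 2 / (100 * t)) - 1) * ‖G p * E‖ := by linarith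
      _ = _ := by ring
  have hgs := h.gs_eq x
  rw [← hp, ← hv] at hgs
  have e1 : f q * gs t (x + η * I) - Av G t U a0 y η * (Real.exp (-v ^ 2 / (4 * t)) : ℝ) =
      (f q - G p * E) * (gs t ((2 * t * U : ℝ) + η * I) * ((Real.exp (-v ^ 2 / (4 * t)) : ℝ) *
        cexp (-(ℓ p * v)))) := by
    have e2 : E * cexp (-(ℓ p * v)) = 1 := by rw [hE, ← Complex.exp_add]; simp
    have e3 : cexp (-((v : ℝ) ^ 2 / (4 * t) : ℝ)) = ((Real.exp (-v ^ 2 / (4 * t)) : ℝ) : ℂ) := by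
      rw [Complex.ofReal_exp]
      congr 1
      push_cast
      ring
    rw [e3] at hgs
    rw [hgs, Av, ← hp]
    linear_combination (G p * gs t ((2 * t * U : ℝ) + η * I) *
      ((Real.exp (-v ^ 2 / (4 * t)) : ℝ) : ℂ)) * e2
  rw [e1, norm_mul, norm_mul, norm_mul]
  have e4 : ‖cexp (-(ℓ p * v))‖ = ‖E‖⁻¹ := by
    rw [hEn, Complex.norm_exp, neg_re, Real.exp_neg]
  have e5 : ‖((Real.exp (-v ^ 2 / (4 * t)) : ℝ) : ℂ)‖ = Real.exp (-v ^ 2 / (4 * t)) := by
    rw [Complex.norm_real, Real.norm_of_nonneg (Real.exp_pos _).le]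
  rw [e4, e5]
  calc ‖f q - G p * E‖ * (‖gs t ((2 * t * U : ℝ) + η * I)‖ *
        (Real.exp (-v ^ 2 / (4 * t)) * ‖E‖⁻¹)) ≤
      ((101 / 100 * Real.exp (v ^ 2 / (100 * t)) - 1) * ‖G p * E‖) *
        (‖gs t ((2 * t * U : ℝ) + η * I)‖ * (Real.exp (-v ^ 2 / (4 * t)) * ‖E‖⁻¹)) :=
        mul_le_mul_of_nonneg_right s3 (by positivity)
    _ = _ := by
        rw [Av, norm_mul, norm_mul, ← hp]
        field_simp

lemma near_norm {x : ℝ} (hx : t * U ≤ x) :
    ‖f ((a0 + x : ℝ) + y * I) * gs t (x + η * I)‖ ≤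
      101 / 100 * ‖Av G t U a0 y η‖ * Real.exp (-(6 / 25) * (x - 2 * t * U) ^ 2 / t) := by
  have h1 := h.near hx
  have ht := h.t0
  set v : ℝ := x - 2 * t * U with hv
  set Ψ := f ((a0 + x : ℝ) + y * I) * gs t (x + η * I) with hΨ
  set A := Av G t U a0 y η with hA
  have h2 : ‖A * ((Real.exp (-v ^ 2 / (4 * t)) : ℝ) : ℂ)‖ = ‖A‖ * Real.exp (-v ^ 2 / (4 * t)) := by
    rw [norm_mul, Complex.norm_real, Real.norm_of_nonneg (Real.exp_pos _).le]
  have h3 : ‖Ψ‖ ≤ ‖Ψ - A * ((Real.exp (-v ^ 2 / (4 * t)) : ℝ) : ℂ)‖ +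
      ‖A * ((Real.exp (-v ^ 2 / (4 * t)) : ℝ) : ℂ)‖ := by
    calc ‖Ψ‖ = ‖(Ψ - A * ((Real.exp (-v ^ 2 / (4 * t)) : ℝ) : ℂ)) +
          A * ((Real.exp (-v ^ 2 / (4 * t)) : ℝ) : ℂ)‖ := by congr 1; ring
      _ ≤ _ := norm_add_le _ _
  rw [h2] at h3
  have e : Real.exp (-(6 / 25) * v ^ 2 / t) = Real.exp (-v ^ 2 / (4 * t)) *
      Real.exp (v ^ 2 / (100 * t)) := by
    rw [← Real.exp_add]
    congr 1
    field_simp
    ring
  rw [e]
  calc ‖Ψ‖ ≤ ‖A‖ * (Real.exp (-v ^ 2 / (4 * t)) *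
        (101 / 100 * Real.exp (v ^ 2 / (100 * t)) - 1)) + ‖A‖ * Real.exp (-v ^ 2 / (4 * t)) := by
        linarith
    _ = _ := by ring

lemma far {x ζ : ℝ} (hx : x ≤ t * U) (hζ : |ζ| ≤ a0 + x + 3 / U) :
    ‖f (ζ + y * I) * gs t (x + η * I)‖ ≤
      2 * ‖Av G t U a0 y η‖ * Real.exp (-(t * U ^ 2) / 5) := by
  have hU := h.U0
  have ht := h.t0
  have hbig := h.big
  have hR := h.ld.R1
  have ha := h.ann
  have hd := h.d1
  have hd0 := h.ld.d0
  have hnu := h.nu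
  have hUi : 3 / U ≤ t * U / 1000 := by
    rw [div_le_div_iff₀ hU (by norm_num)]
    nlinarith
  have hζ0 := abs_nonneg ζ
  set ξ : ℝ := |ζ| + 2 * R0 with hξ
  set X : ℝ := a0 + 2 * t * U with hX
  have htU : 0 < t * U := mul_pos ht hU
  have hξX : ξ ≤ X := by rw [hξ, hX]; nlinarith
  have h1 := h.ld.left_le y (x := ξ) (X := X) (by rw [hξ]; linarith) hξX
  have hl : (ℓ ((X : ℂ) + y * I)).re = U := by
    have := h.l_re
    rw [← hX] at this
    exact this
  rw [hl] at h1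
  have h2 := h.f2 ζ y
  rw [norm_mul, h.gs_ratio x]
  have hA : ‖Av G t U a0 y η‖ = ‖G ((X : ℂ) + y * I)‖ * ‖gs t ((2 * t * U : ℝ) + η * I)‖ := by
    rw [Av, norm_mul]
  rw [hA]
  set v : ℝ := x - 2 * t * U with hv
  have hE : -((U - d) * (X - ξ)) + (-v ^ 2 / (4 * t) - U * v) ≤ -(t * U ^ 2) / 5 := by
    have e1 : -v ^ 2 / (4 * t) - U * v = (2 * t * U - x) * (2 * t * U + x) / (4 * t) := by
      rw [hv]
      field_simp
      ring
    have e2 : (2 * t * U - x) * (2 * t * U + x) / (4 * t) ≤ 3 / 4 * U * (2 * t * U - x) := by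
      rw [div_le_iff₀ (by positivity)]
      have : 0 ≤ 2 * t * U - x := by linarith
      have h3 : 2 * t * U + x ≤ 3 * (t * U) := by linarith
      nlinarith [mul_le_mul_of_nonneg_left h3 this]
    have e3 : 2 * t * U - x - 3 / U - 2 * R0 ≤ X - ξ := by
      rw [hX, hξ]
      linarith
    have e4 : -((U - d) * (X - ξ)) ≤ -((U - d) * (2 * t * U - x)) + U * (3 / U + 2 * R0) := by
      have hUd : 0 ≤ U - d := by linarith
      have h3 := mul_le_mul_of_nonneg_left e3 hUd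
      have h4 : 0 ≤ 3 / U + 2 * R0 := by positivity
      nlinarith [mul_nonneg hd0 h4]
    have e5 : U * (3 / U + 2 * R0) = 3 + 2 * R0 * U := by
      field_simp
    have e6 : 2 * R0 * U ≤ t * U ^ 2 / 60 := by nlinarith
    have e7 : t * U ≤ 2 * t * U - x := by linarith
    rw [e1]
    rw [e5] at e4
    have e8 : (U / 4 - d) * (t * U) ≤ (U / 4 - d) * (2 * t * U - x) :=
      mul_le_mul_of_nonneg_left e7 (by linarith)
    have e9 : 6 / 25 * U * (t * U) ≤ (U / 4 - d) * (t * U) :=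
      mul_le_mul_of_nonneg_right (by linarith) htU.le
    nlinarith
  calc ‖f (ζ + y * I)‖ * (‖gs t ((2 * t * U : ℝ) + η * I)‖ *
        Real.exp (-v ^ 2 / (4 * t) - U * v)) ≤
      (2 * (‖G ((X : ℂ) + y * I)‖ * Real.exp (-((U - d) * (X - ξ))))) *
        (‖gs t ((2 * t * U : ℝ) + η * I)‖ * Real.exp (-v ^ 2 / (4 * t) - U * v)) := by
        refine mul_le_mul_of_nonneg_right (h2.trans ?_) (by positivity)
        exact mul_le_mul_of_nonneg_left h1 (by norm_num)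
    _ = 2 * (‖G ((X : ℂ) + y * I)‖ * ‖gs t ((2 * t * U : ℝ) + η * I)‖) *
        Real.exp (-((U - d) * (X - ξ)) + (-v ^ 2 / (4 * t) - U * v)) := by
        rw [Real.exp_add]; ring
    _ ≤ _ := by
        refine mul_le_mul_of_nonneg_left (Real.exp_le_exp.2 hE) (by positivity)

/-- the mirror image, for `a0` not too large -/
lemma mirror_a (hu1 : 4 * a0 ≤ t * U) {x : ℝ} (hx : t * U ≤ x) :
    ‖f ((x - a0 : ℝ) + y * I) * gs t (x + η * I)‖ ≤ 101 / 100 * ‖Av G t U a0 y η‖ *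
      (Real.exp (-(19 / 10) * (a0 * U)) * Real.exp (-(1 / 8) * (x - 2 * t * U) ^ 2 / t)) := by
  have hU := h.U0
  have ht := h.t0
  have hbig := h.big
  have hR := h.ld.R1
  have ha := h.ann
  have htU : 0 < t * U := mul_pos ht hU
  set p : ℂ := (a0 + 2 * t * U : ℝ) + y * I with hp
  set q : ℂ := (x - a0 : ℝ) + y * I with hq
  set v : ℝ := x - 2 * t * U with hv
  have hqp : q - p = ((v - 2 * a0 : ℝ) : ℂ) := by
    rw [hq, hp, hv]; push_cast; ring
  have hm : R0 ≤ 3 / 4 * (t * U) := by nlinarith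
  have hpre : 3 / 4 * (t * U) ≤ p.re := by
    rw [hp]; simp
    nlinarith
  have hqre : 3 / 4 * (t * U) ≤ q.re := by
    rw [hq]; simp
    linarith
  have s2 := h.ld.seg_norm hm hpre hqre
  rw [hqp, Complex.re_mul_ofReal, h.l_re] at s2
  have hK : d / (3 / 4 * (t * U)) * ‖((v - 2 * a0 : ℝ) : ℂ)‖ ^ 2 ≤
      2 / 75 * v ^ 2 / t + 2 / 75 * (a0 * U) := by
    rw [Complex.norm_real, Real.norm_eq_abs, sq_abs]
    have e0 : d / (3 / 4 * (t * U)) = 4 / 3 * (d / (t * U)) := by field_simp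
    have e1 : d / (3 / 4 * (t * U)) ≤ 1 / (75 * t) := by
      rw [e0]
      have := h.d_le
      calc 4 / 3 * (d / (t * U)) ≤ 4 / 3 * (1 / (100 * t)) := by linarith
        _ = 1 / (75 * t) := by field_simp; norm_num
    have e2 : (v - 2 * a0) ^ 2 ≤ 2 * v ^ 2 + 8 * a0 ^ 2 := by nlinarith [sq_nonneg (v + 2 * a0)]
    calc d / (3 / 4 * (t * U)) * (v - 2 * a0) ^ 2 ≤ 1 / (75 * t) * (2 * v ^ 2 + 8 * a0 ^ 2) :=
          mul_le_mul e1 e2 (sq_nonneg _) (by positivity)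
      _ ≤ 2 / 75 * v ^ 2 / t + 2 / 75 * (a0 * U) := by
          have e3 : 1 / (75 * t) * (2 * v ^ 2 + 8 * a0 ^ 2) =
              2 / 75 * v ^ 2 / t + 8 * a0 ^ 2 / (75 * t) := by field_simp
          rw [e3]
          have e4 : 8 * a0 ^ 2 / (75 * t) ≤ 2 / 75 * (a0 * U) := by
            rw [div_le_iff₀ (by positivity)]
            nlinarith [mul_le_mul_of_nonneg_left hu1 ha]
          linarith
  have h5 := h.f1 q (hm.trans hqre)
  have h6 : ‖f q‖ ≤ 101 / 100 * ‖G q‖ := by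
    have : ‖f q‖ ≤ ‖f q - G q‖ + ‖G q‖ := by
      calc ‖f q‖ = ‖(f q - G q) + G q‖ := by congr 1; ring
        _ ≤ _ := norm_add_le _ _
    linarith
  rw [norm_mul, h.gs_ratio x, ← hv, Av, norm_mul, ← hp]
  calc ‖f q‖ * (‖gs t ((2 * t * U : ℝ) + η * I)‖ * Real.exp (-v ^ 2 / (4 * t) - U * v)) ≤
      (101 / 100 * (Real.exp (2 / 75 * v ^ 2 / t + 2 / 75 * (a0 * U)) * ‖G p‖ *
        Real.exp (U * (v - 2 * a0)))) *
        (‖gs t ((2 * t * U : ℝ) + η * I)‖ * Real.exp (-v ^ 2 / (4 * t) - U * v)) := by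
        refine mul_le_mul_of_nonneg_right (h6.trans ?_) (by positivity)
        refine mul_le_mul_of_nonneg_left (s2.trans ?_) (by norm_num)
        have := Real.exp_le_exp.2 hK
        gcongr
    _ = 101 / 100 * (‖G p‖ * ‖gs t ((2 * t * U : ℝ) + η * I)‖) *
        Real.exp ((2 / 75 * v ^ 2 / t + 2 / 75 * (a0 * U)) + U * (v - 2 * a0) +
          (-v ^ 2 / (4 * t) - U * v)) := by
        rw [Real.exp_add (2 / 75 * v ^ 2 / t + 2 / 75 * (a0 * U) + U * (v - 2 * a0)),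
          Real.exp_add (2 / 75 * v ^ 2 / t + 2 / 75 * (a0 * U)) (U * (v - 2 * a0))]
        ring
    _ ≤ _ := by
        rw [← Real.exp_add]
        refine mul_le_mul_of_nonneg_left (Real.exp_le_exp.2 ?_) (by positivity)
        have e5 : -v ^ 2 / (4 * t) = -(1 / 4) * v ^ 2 / t := by field_simp
        have e6 : 0 ≤ v ^ 2 / t := by positivity
        have e7 : 0 ≤ a0 * U := by positivity
        have e8 : 2 / 75 * v ^ 2 / t = 2 / 75 * (v ^ 2 / t) := by ring
        have e9 : -(1 / 4) * v ^ 2 / t = -(1 / 4) * (v ^ 2 / t) := by ring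
        have e10 : -(1 / 8) * v ^ 2 / t = -(1 / 8) * (v ^ 2 / t) := by ring
        rw [e5, e8, e9, e10]
        nlinarith

/-- the mirror image, for `a0` large -/
lemma mirror_b (hu1 : t * U ≤ 4 * a0) {x : ℝ} (hx : 0 ≤ x) :
    ‖f ((x - a0 : ℝ) + y * I) * gs t (x + η * I)‖ ≤ 2 * ‖Av G t U a0 y η‖ *
      (Real.exp (-(2 / 5) * U * (2 * t * U + x) + 2 * R0 * U) +
        Real.exp (-(9 / 5) * (a0 * U)) * Real.exp (-(1 / 8) * (x - 2 * t * U) ^ 2 / t)) := by
  have hU := h.U0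
  have ht := h.t0
  have hbig := h.big
  have hR := h.ld.R1
  have ha := h.ann
  have hd := h.d1
  have hd0 := h.ld.d0
  have htU : 0 < t * U := mul_pos ht hU
  have haU : 0 ≤ a0 * U := by positivity
  set v : ℝ := x - 2 * t * U with hv
  set X : ℝ := a0 + 2 * t * U with hX
  set ξ : ℝ := |x - a0| + 2 * R0 with hξ
  have hξ0 : R0 ≤ ξ := by have := abs_nonneg (x - a0); rw [hξ]; linarith
  have hl : (ℓ ((X : ℂ) + y * I)).re = U := by
    have := h.l_re
    rw [← hX] at this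
    exact this
  have h2 := h.f2 (x - a0) y
  rw [← hξ] at h2
  have hA : ‖Av G t U a0 y η‖ = ‖G ((X : ℂ) + y * I)‖ * ‖gs t ((2 * t * U : ℝ) + η * I)‖ := by
    rw [Av, norm_mul]
  -- reduction to an estimate of the exponents
  have red : ∀ E : ℝ, ‖G ((ξ : ℂ) + y * I)‖ ≤ ‖G ((X : ℂ) + y * I)‖ * Real.exp E →
      (E + (-v ^ 2 / (4 * t) - U * v) ≤ -(2 / 5) * U * (2 * t * U + x) + 2 * R0 * U ∨
        E + (-v ^ 2 / (4 * t) - U * v) ≤ -(9 / 5) * (a0 * U) + -(1 / 8) * v ^ 2 / t) →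
      ‖f ((x - a0 : ℝ) + y * I) * gs t (x + η * I)‖ ≤ 2 * ‖Av G t U a0 y η‖ *
      (Real.exp (-(2 / 5) * U * (2 * t * U + x) + 2 * R0 * U) +
        Real.exp (-(9 / 5) * (a0 * U)) * Real.exp (-(1 / 8) * v ^ 2 / t)) := by
    intro E h3 h4
    rw [norm_mul, h.gs_ratio x, ← hv, hA]
    calc ‖f ((x - a0 : ℝ) + y * I)‖ * (‖gs t ((2 * t * U : ℝ) + η * I)‖ *
          Real.exp (-v ^ 2 / (4 * t) - U * v)) ≤
        (2 * (‖G ((X : ℂ) + y * I)‖ * Real.exp E)) * (‖gs t ((2 * t * U : ℝ) + η * I)‖ *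
          Real.exp (-v ^ 2 / (4 * t) - U * v)) := by
          refine mul_le_mul_of_nonneg_right (h2.trans ?_) (by positivity)
          exact mul_le_mul_of_nonneg_left h3 (by norm_num)
      _ = 2 * (‖G ((X : ℂ) + y * I)‖ * ‖gs t ((2 * t * U : ℝ) + η * I)‖) *
          Real.exp (E + (-v ^ 2 / (4 * t) - U * v)) := by
          rw [Real.exp_add]; ring
      _ ≤ _ := by
          refine mul_le_mul_of_nonneg_left ?_ (by positivity)
          rw [← Real.exp_add]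
          have p1 := Real.exp_pos (-(2 / 5) * U * (2 * t * U + x) + 2 * R0 * U)
          have p2 := Real.exp_pos (-(9 / 5) * (a0 * U) + -(1 / 8) * v ^ 2 / t)
          rcases h4 with h4 | h4
          · have := Real.exp_le_exp.2 h4
            linarith
          · have := Real.exp_le_exp.2 h4
            linarith
  have e5 : -v ^ 2 / (4 * t) = -(1 / 4) * (v ^ 2 / t) := by field_simp
  have e6 : 0 ≤ v ^ 2 / t := by positivity
  have e10 : -(1 / 8) * v ^ 2 / t = -(1 / 8) * (v ^ 2 / t) := by ring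
  have hRU : 2 * R0 * U ≤ 1 / 15 * (a0 * U) := by nlinarith
  rcases le_total ξ X with h3 | h3
  · have h1 := h.ld.left_le y (x := ξ) (X := X) hξ0 h3
    rw [hl] at h1
    refine red _ h1 ?_
    rcases le_total x a0 with h4 | h4
    · left
      have h5 : X - ξ = 2 * t * U + x - 2 * R0 := by
        rw [hX, hξ, abs_of_nonpos (by linarith)]
        ring
      rw [h5]
      have e1 : -v ^ 2 / (4 * t) - U * v = (2 * t * U - x) * (2 * t * U + x) / (4 * t) := by
        rw [hv]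
        field_simp
        ring
      have e2 : (2 * t * U - x) * (2 * t * U + x) / (4 * t) ≤ 1 / 2 * U * (2 * t * U + x) := by
        rw [div_le_iff₀ (by positivity)]
        have : 0 ≤ 2 * t * U + x := by positivity
        nlinarith [mul_nonneg this hx]
      rw [e1]
      have h6 : 0 ≤ 2 * t * U + x := by positivity
      nlinarith [mul_nonneg hd0 (by linarith : (0 : ℝ) ≤ R0), mul_le_mul_of_nonneg_right hd h6]
    · right
      have h5 : X - ξ = 2 * a0 - v - 2 * R0 := by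
        rw [hX, hξ, abs_of_nonneg (by linarith), hv]
        ring
      rw [h5, e5, e10]
      have h6 : -(2 * t * U) ≤ v := by rw [hv]; linarith
      have h7 : -(d * v) ≤ d * (8 * a0) := by nlinarith
      have h8 : d * a0 ≤ 1 / 100 * (a0 * U) := by nlinarith
      nlinarith [mul_nonneg hd0 (by linarith : (0 : ℝ) ≤ R0)]
  · have hXre : X ≤ ((X : ℂ) + y * I).re := by simp
    have hξre : X ≤ ((ξ : ℂ) + y * I).re := by simpa using h3
    have s2 := h.ld.seg_norm (m := X) (by rw [hX]; nlinarith) hXre hξre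
    have hqp : ((ξ : ℂ) + y * I) - ((X : ℂ) + y * I) = ((ξ - X : ℝ) : ℂ) := by push_cast; ring
    rw [hqp, Complex.re_mul_ofReal, hl, Complex.norm_real, Real.norm_eq_abs, sq_abs] at s2
    refine red (d / X * (ξ - X) ^ 2 + U * (ξ - X)) ?_ (Or.inr ?_)
    · rw [Real.exp_add]
      refine s2.trans (le_of_eq (by ring))
    · have hx4 : a0 ≤ x := by
        by_contra hcon
        push Not at hcon
        rw [hξ, hX, abs_of_nonpos (by linarith)] at h3
        nlinarith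
      have h5 : ξ - X = v - 2 * a0 + 2 * R0 := by
        rw [hX, hξ, abs_of_nonneg (by linarith), hv]
        ring
      have h6 : 0 ≤ ξ - X := by linarith
      have h7 : ξ - X ≤ v := by rw [h5]; nlinarith
      have hX0 : 0 < X := by rw [hX]; positivity
      have h8 : d / X * (ξ - X) ^ 2 ≤ 1 / 200 * (v ^ 2 / t) := by
        have e1 : d / X ≤ 1 / (200 * t) := by
          rw [div_le_div_iff₀ hX0 (by positivity), hX]
          nlinarith [mul_nonneg hd0 ha, mul_le_mul_of_nonneg_right hd ht.le]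
        calc d / X * (ξ - X) ^ 2 ≤ 1 / (200 * t) * v ^ 2 := by
              refine mul_le_mul e1 (pow_le_pow_left₀ h6 h7 2) (sq_nonneg _) (by positivity)
          _ = _ := by field_simp
      rw [e5, e10, h5] at *
      nlinarith

end Sad

end Pool.Agent.Helper40.HF
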