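import Pool.Agent.Helper40.HF.B

set_option autoImplicit false
set_option maxHeartbeats 1000000

/-!
# The main integral: lower and upper bounds
-/

open Complex Filter Topology Set MeasureTheory

namespace Pool.Agent.Helper40.HF

lemma gi {b : ℝ} (hb : 0 < b) (c : ℝ) : Integrable (fun x : ℝ => Real.exp (-b * (x - c) ^ 2)) ∧
    ∫ x : ℝ, Real.exp (-b * (x - c) ^ 2) = Real.sqrt (Real.pi / b) := by
  constructor
  · exact (integrable_exp_neg_mul_sq hb).comp_sub_right c
  · rw [integral_sub_right_eq_self (fun x : ℝ => Real.exp (-b * x ^ 2)) c, integral_gaussian]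

lemma gi' {b t : ℝ} (hb : 0 < b) (ht : 0 < t) (c : ℝ) :
    Integrable (fun x : ℝ => Real.exp (-b * (x - c) ^ 2 / t)) ∧
    ∫ x : ℝ, Real.exp (-b * (x - c) ^ 2 / t) = Real.sqrt (Real.pi / b) * Real.sqrt t := by
  have h := gi (div_pos hb ht) c
  have e : (fun x : ℝ => Real.exp (-b * (x - c) ^ 2 / t)) =
      fun x : ℝ => Real.exp (-(b / t) * (x - c) ^ 2) := by
    funext x; congr 1; ring
  rw [e]
  refine ⟨h.1, h.2.trans ?_⟩
  rw [← Real.sqrt_mul (by positivity)]
  congr 1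
  field_simp

lemma shift_Ioi (F : ℝ → ℂ) (a u : ℝ) :
    ∫ x in Ioi a, F (x + u) = ∫ x in Ioi (a + u), F x := by
  rw [← integral_indicator measurableSet_Ioi, ← integral_indicator measurableSet_Ioi,
    ← integral_add_right_eq_self (fun x => (Ioi (a + u)).indicator F x) u]
  congr 1
  funext x
  by_cases hx : a < x
  · rw [indicator_of_mem (by exact hx), indicator_of_mem (by simpa using hx)]
  · rw [indicator_of_notMem (by exact hx), indicator_of_notMem (by simpa using hx)]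

/-- tail factors -/
lemma tiny {r : ℝ} (hr : 300 ≤ r) : r ^ 2 * Real.exp (-r ^ 2 / 5) ≤ 1 / 10 ^ 4 := by
  have h1 := Real.pow_div_factorial_le_exp (r ^ 2 / 5) (by positivity) 3
  have h2 : Real.exp (-r ^ 2 / 5) = (Real.exp (r ^ 2 / 5))⁻¹ := by
    rw [← Real.exp_neg]; congr 1; ring
  have h3 : (r ^ 2 / 5) ^ 3 / (Nat.factorial 3 : ℝ) = r ^ 6 / 750 := by
    norm_num [Nat.factorial]
    ring
  rw [h3] at h1
  have h4 : 0 < Real.exp (r ^ 2 / 5) := Real.exp_pos _
  rw [h2, ← div_eq_mul_inv, div_le_div_iff₀ h4 (by norm_num)]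
  have h5 : (300 : ℝ) ^ 4 ≤ r ^ 4 := pow_le_pow_left₀ (by norm_num) hr 4
  nlinarith [sq_nonneg r, pow_pos (show (0 : ℝ) < r by linarith) 2]

namespace Sad

variable {f G ℓ : ℂ → ℂ} {R0 d t U a0 y η : ℝ} (h : Sad f G ℓ R0 d t U a0 y η)
include h

lemma r_ge : 300 ≤ Real.sqrt t * U := by
  have h1 := h.nu
  have h2 := h.t0
  have h3 := h.U0
  refine le_of_sq_le_sq ?_ (by positivity)
  rw [mul_pow, Real.sq_sqrt h2.le]
  linarith

/-- the tail estimate in the units of the problem -/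
lemma tail : t * U ^ 2 * Real.exp (-(t * U ^ 2) / 5) ≤ 1 / 10 ^ 4 ∧
    t * U * Real.exp (-(t * U ^ 2) / 5) ≤ Real.sqrt t / 10 ^ 6 := by
  have h1 := h.r_ge
  have h2 := h.t0
  have h3 := h.U0
  have h4 := tiny h1
  have hs : 0 < Real.sqrt t := Real.sqrt_pos.2 h2
  have e1 : (Real.sqrt t * U) ^ 2 = t * U ^ 2 := by rw [mul_pow, Real.sq_sqrt h2.le]
  have e2 : -(Real.sqrt t * U) ^ 2 / 5 = -(t * U ^ 2) / 5 := by rw [e1]
  rw [e2, e1] at h4
  refine ⟨h4, ?_⟩
  have e3 : t * U * Real.exp (-(t * U ^ 2) / 5) * (Real.sqrt t * U) =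
      Real.sqrt t * (t * U ^ 2 * Real.exp (-(t * U ^ 2) / 5)) := by ring
  have h5 : t * U * Real.exp (-(t * U ^ 2) / 5) * 300 ≤
      t * U * Real.exp (-(t * U ^ 2) / 5) * (Real.sqrt t * U) :=
    mul_le_mul_of_nonneg_left h1 (by positivity)
  rw [e3] at h5
  have h6 := mul_le_mul_of_nonneg_left h4 hs.le
  have h7 : 0 ≤ t * U * Real.exp (-(t * U ^ 2) / 5) := by positivity
  nlinarith

variable (hc : Continuous f)
include hc

omit h in
lemma cont_psi (a y η t : ℝ) : Continuous fun x : ℝ => f ((a + x : ℝ) + y * I) * gs t (x + η * I) := by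
  unfold gs
  fun_prop

lemma int_near : IntegrableOn (fun x : ℝ => f ((a0 + x : ℝ) + y * I) * gs t (x + η * I))
    (Ioi (t * U)) := by
  refine Integrable.mono' (((gi' (b := 6 / 25) (by norm_num) h.t0 (2 * t * U)).1.const_mul
    (101 / 100 * ‖Av G t U a0 y η‖)).integrableOn)
    (cont_psi hc a0 y η t).aestronglyMeasurable ?_
  refine (ae_restrict_iff' measurableSet_Ioi).2 (Eventually.of_forall fun x hx => ?_)
  exact h.near_norm (le_of_lt hx)

omit h in
lemma int_cpt (a b c : ℝ) : IntegrableOn (fun x : ℝ => f ((a + x : ℝ) + y * I) * gs t (x + η * I))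
    (Ioc b c) :=
  ((cont_psi hc a y η t).continuousOn.integrableOn_compact isCompact_Icc).mono_set Ioc_subset_Icc_self

lemma int_main {b : ℝ} (hb : b ≤ t * U) :
    IntegrableOn (fun x : ℝ => f ((a0 + x : ℝ) + y * I) * gs t (x + η * I)) (Ioi b) := by
  rw [← Ioc_union_Ioi_eq_Ioi hb]
  exact (int_cpt hc a0 b (t * U)).union (h.int_near hc)

omit hc in
lemma far_int {b : ℝ} (hb0 : 0 ≤ b) (hb : b ≤ t * U) :
    ‖∫ x in Ioc b (t * U), f ((a0 + x : ℝ) + y * I) * gs t (x + η * I)‖ ≤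
      ‖Av G t U a0 y η‖ * (Real.sqrt t / 10 ^ 5) := by
  have hU := h.U0
  have ht := h.t0
  have h1 : ∀ x ∈ Ioc b (t * U), ‖f ((a0 + x : ℝ) + y * I) * gs t (x + η * I)‖ ≤
      2 * ‖Av G t U a0 y η‖ * Real.exp (-(t * U ^ 2) / 5) := by
    intro x hx
    refine h.far hx.2 ?_
    have : 0 ≤ a0 + x := by have := h.ann; have := hx.1; linarith
    rw [abs_of_nonneg this]
    have : 0 < 3 / U := by positivity
    linarith
  have h2 := norm_setIntegral_le_of_norm_le_const (μ := volume) (s := Ioc b (t * U))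
    (by rw [Real.volume_Ioc]; exact ENNReal.ofReal_lt_top) h1
  refine h2.trans ?_
  have h3 : volume.real (Ioc b (t * U)) ≤ t * U := by
    rw [Real.volume_real_Ioc_of_le hb]
    linarith
  have h4 := h.tail.2
  calc 2 * ‖Av G t U a0 y η‖ * Real.exp (-(t * U ^ 2) / 5) * volume.real (Ioc b (t * U)) ≤
      2 * ‖Av G t U a0 y η‖ * Real.exp (-(t * U ^ 2) / 5) * (t * U) := by gcongr
    _ = 2 * ‖Av G t U a0 y η‖ * (t * U * Real.exp (-(t * U ^ 2) / 5)) := by ring
    _ ≤ 2 * ‖Av G t U a0 y η‖ * (Real.sqrt t / 10 ^ 6) := by gcongr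
    _ ≤ _ := by
      have := norm_nonneg (Av G t U a0 y η)
      have := Real.sqrt_nonneg t
      nlinarith [mul_nonneg (norm_nonneg (Av G t U a0 y η)) (Real.sqrt_nonneg t)]

lemma main_low {b : ℝ} (hb0 : 0 ≤ b) (hb : b ≤ t * U) :
    13 / 10 * (Real.sqrt t * ‖Av G t U a0 y η‖) ≤
      ‖∫ x in Ioi b, f ((a0 + x : ℝ) + y * I) * gs t (x + η * I)‖ := by
  have hU := h.U0
  have ht := h.t0
  set A := Av G t U a0 y η with hA
  set c : ℝ := 2 * t * U with hcdef
  have hs : 0 < Real.sqrt t := Real.sqrt_pos.2 ht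
  have hnn := norm_nonneg A
  -- split
  have hsplit : ∫ x in Ioi b, f ((a0 + x : ℝ) + y * I) * gs t (x + η * I) =
      (∫ x in Ioc b (t * U), f ((a0 + x : ℝ) + y * I) * gs t (x + η * I)) +
      ∫ x in Ioi (t * U), f ((a0 + x : ℝ) + y * I) * gs t (x + η * I) := by
    rw [← setIntegral_union (Ioc_disjoint_Ioi le_rfl) measurableSet_Ioi
      (int_cpt hc a0 b (t * U)) (h.int_near hc), Ioc_union_Ioi_eq_Ioi hb]
  have hfar := h.far_int hb0 hb
  have g1 := gi' (b := 1 / 4) (by norm_num) ht c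
  have g2 := gi' (b := 6 / 25) (by norm_num) ht c
  have eg1 : ∀ x : ℝ, Real.exp (-(x - c) ^ 2 / (4 * t)) = Real.exp (-(1 / 4) * (x - c) ^ 2 / t) := by
    intro x; congr 1; field_simp
  have eg2 : ∀ x : ℝ, Real.exp (-(x - c) ^ 2 / (4 * t)) *
      (101 / 100 * Real.exp ((x - c) ^ 2 / (100 * t)) - 1) =
      101 / 100 * Real.exp (-(6 / 25) * (x - c) ^ 2 / t) - Real.exp (-(1 / 4) * (x - c) ^ 2 / t) := by
    intro x
    have : Real.exp (-(6 / 25) * (x - c) ^ 2 / t) = Real.exp (-(1 / 4) * (x - c) ^ 2 / t) *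
        Real.exp ((x - c) ^ 2 / (100 * t)) := by
      rw [← Real.exp_add]; congr 1; field_simp; ring
    rw [eg1, this]; ring
  -- difference with the Gaussian
  have hdiff : ‖(∫ x in Ioi (t * U), f ((a0 + x : ℝ) + y * I) * gs t (x + η * I)) -
      A * ((∫ x in Ioi (t * U), Real.exp (-(1 / 4) * (x - c) ^ 2 / t) : ℝ) : ℂ)‖ ≤
      ‖A‖ * (101 / 100 * (Real.sqrt (Real.pi / (6 / 25)) * Real.sqrt t) -
        Real.sqrt (Real.pi / (1 / 4)) * Real.sqrt t) := by
    have e1 : A * ((∫ x in Ioi (t * U), Real.exp (-(1 / 4) * (x - c) ^ 2 / t) : ℝ) : ℂ) =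
        ∫ x in Ioi (t * U), A * ((Real.exp (-(1 / 4) * (x - c) ^ 2 / t) : ℝ) : ℂ) := by
      rw [integral_const_mul, integral_complex_ofReal]
    have i1 : IntegrableOn (fun x : ℝ => A * ((Real.exp (-(1 / 4) * (x - c) ^ 2 / t) : ℝ) : ℂ))
        (Ioi (t * U)) := (g1.1.ofReal.const_mul A).integrableOn
    rw [e1, ← integral_sub (h.int_near hc) i1]
    have i2 : Integrable (fun x : ℝ => ‖A‖ * (101 / 100 * Real.exp (-(6 / 25) * (x - c) ^ 2 / t) -
        Real.exp (-(1 / 4) * (x - c) ^ 2 / t))) := ((g2.1.const_mul _).sub g1.1).const_mul _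
    calc _ ≤ ∫ x in Ioi (t * U), ‖A‖ * (101 / 100 * Real.exp (-(6 / 25) * (x - c) ^ 2 / t) -
          Real.exp (-(1 / 4) * (x - c) ^ 2 / t)) := by
          refine norm_integral_le_of_norm_le i2.integrableOn ?_
          refine (ae_restrict_iff' measurableSet_Ioi).2 (Eventually.of_forall fun x hx => ?_)
          have := h.near (le_of_lt hx)
          rw [← hcdef, eg2, eg1] at this
          exact this
      _ ≤ ∫ x : ℝ, ‖A‖ * (101 / 100 * Real.exp (-(6 / 25) * (x - c) ^ 2 / t) -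
          Real.exp (-(1 / 4) * (x - c) ^ 2 / t)) := by
          refine setIntegral_le_integral i2 (Eventually.of_forall fun x => ?_)
          refine mul_nonneg hnn ?_
          rw [← eg2]
          have : (1 : ℝ) ≤ Real.exp ((x - c) ^ 2 / (100 * t)) := Real.one_le_exp (by positivity)
          refine mul_nonneg (Real.exp_pos _).le (by linarith)
      _ = _ := by
          rw [integral_const_mul, integral_sub (g2.1.const_mul _) g1.1, integral_const_mul, g2.2, g1.2]
  -- the Gaussian integral from below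
  have hlow : 3 / 2 * Real.sqrt t ≤ ∫ x in Ioi (t * U), Real.exp (-(1 / 4) * (x - c) ^ 2 / t) := by
    have hr := h.r_ge
    have hsub : Icc (c - Real.sqrt t) (c + Real.sqrt t) ⊆ Ioi (t * U) := by
      intro x hx
      have : Real.sqrt t < t * U := by
        have e : t * U = Real.sqrt t * (Real.sqrt t * U) := by
          rw [← mul_assoc, Real.mul_self_sqrt ht.le]
        rw [e]; nlinarith
      have h1 := hx.1
      rw [mem_Ioi]
      rw [hcdef] at h1
      linarith
    calc 3 / 2 * Real.sqrt t = ∫ _x in Icc (c - Real.sqrt t) (c + Real.sqrt t), (3 / 4 : ℝ) := by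
          rw [setIntegral_const, Real.volume_real_Icc_of_le (by linarith), smul_eq_mul]
          ring
      _ ≤ ∫ x in Icc (c - Real.sqrt t) (c + Real.sqrt t), Real.exp (-(1 / 4) * (x - c) ^ 2 / t) := by
          refine setIntegral_mono_on (integrableOn_const (by simp)) g1.1.integrableOn
            measurableSet_Icc fun x hx => ?_
          have h1 : (x - c) ^ 2 ≤ t := by
            rw [← Real.sq_sqrt ht.le]
            apply sq_le_sq'
            · linarith [hx.1]
            · linarith [hx.2]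
          have h2 : -(1 / 4) ≤ -(1 / 4) * (x - c) ^ 2 / t := by
            rw [le_div_iff₀ ht]; linarith
          have h3 := Real.add_one_le_exp (-(1 / 4) * (x - c) ^ 2 / t)
          linarith
      _ ≤ _ := by
          refine setIntegral_mono_set g1.1.integrableOn
            (Eventually.of_forall fun x => (Real.exp_pos _).le) hsub.eventuallyLE
  -- numerics
  have hpi1 := Real.pi_gt_d4
  have hpi2 := Real.pi_lt_d4
  have n1 : Real.sqrt (Real.pi / (6 / 25)) ≤ 362 / 100 := by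
    rw [Real.sqrt_le_left (by norm_num)]
    norm_num
    linarith
  have n2 : 354 / 100 ≤ Real.sqrt (Real.pi / (1 / 4)) := by
    apply Real.le_sqrt_of_sq_le
    norm_num
    linarith
  have hI0 : 0 ≤ ∫ x in Ioi (t * U), Real.exp (-(1 / 4) * (x - c) ^ 2 / t) := by
    linarith [hs.le]
  set J := ∫ x in Ioi (t * U), Real.exp (-(1 / 4) * (x - c) ^ 2 / t) with hJ
  set P := ∫ x in Ioi (t * U), f ((a0 + x : ℝ) + y * I) * gs t (x + η * I) with hP
  set Q := ∫ x in Ioc b (t * U), f ((a0 + x : ℝ) + y * I) * gs t (x + η * I) with hQ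
  have hAJ : ‖A * (J : ℂ)‖ = ‖A‖ * J := by
    rw [norm_mul, Complex.norm_real, Real.norm_of_nonneg hI0]
  have t1 : ‖A‖ * J ≤ ‖Q + P‖ + ‖Q‖ + ‖P - A * (J : ℂ)‖ := by
    rw [← hAJ]
    calc ‖A * (J : ℂ)‖ = ‖(Q + P) - Q - (P - A * (J : ℂ))‖ := by congr 1; ring
      _ ≤ ‖(Q + P) - Q‖ + ‖P - A * (J : ℂ)‖ := norm_sub_le _ _
      _ ≤ _ := by gcongr; exact norm_sub_le _ _
  rw [hsplit]
  have t2 : ‖A‖ * (3 / 2 * Real.sqrt t) ≤ ‖A‖ * J := mul_le_mul_of_nonneg_left hlow hnn
  have t3 : ‖A‖ * (101 / 100 * (Real.sqrt (Real.pi / (6 / 25)) * Real.sqrt t) -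
        Real.sqrt (Real.pi / (1 / 4)) * Real.sqrt t) ≤ ‖A‖ * (12 / 100 * Real.sqrt t) := by
    refine mul_le_mul_of_nonneg_left ?_ hnn
    nlinarith [mul_le_mul_of_nonneg_right n1 hs.le, mul_le_mul_of_nonneg_right n2 hs.le]
  have hAs : 0 ≤ ‖A‖ * Real.sqrt t := by positivity
  nlinarith

end Sad

end Pool.Agent.Helper40.HF
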