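import Pool.Agent.Helper40.HF.C

set_option autoImplicit false
set_option maxHeartbeats 1000000

/-!
# The mirror image is smaller
-/

open Complex Filter Topology Set MeasureTheory

namespace Pool.Agent.Helper40.HF

namespace Sad

variable {f G ℓ : ℂ → ℂ} {R0 d t U a0 y η : ℝ} (h : Sad f G ℓ R0 d t U a0 y η) (hc : Continuous f)
include h

/-- the contribution of a bounded interval -/
lemma far_int' {a b c M : ℝ} (hbc : b ≤ c) (hM : c - b ≤ M) (hc' : c ≤ t * U)
    (ha : ∀ x ∈ Ioc b c, |a + x| ≤ a0 + x + 3 / U) :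
    ‖∫ x in Ioc b c, f ((a + x : ℝ) + y * I) * gs t (x + η * I)‖ ≤
      2 * ‖Av G t U a0 y η‖ * Real.exp (-(t * U ^ 2) / 5) * M := by
  have h1 : ∀ x ∈ Ioc b c, ‖f ((a + x : ℝ) + y * I) * gs t (x + η * I)‖ ≤
      2 * ‖Av G t U a0 y η‖ * Real.exp (-(t * U ^ 2) / 5) := by
    intro x hx
    exact h.far (hx.2.trans hc') (ha x hx)
  have h2 := norm_setIntegral_le_of_norm_le_const (μ := volume) (s := Ioc b c)
    (by rw [Real.volume_Ioc]; exact ENNReal.ofReal_lt_top) h1
  refine h2.trans ?_
  refine mul_le_mul_of_nonneg_left ?_ (by positivity)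
  rw [Real.volume_real_Ioc_of_le hbc]
  exact hM

include hc

/-- upper bound for the mirror image -/
lemma mirror (hu : 29 / 10 ≤ a0 * U) :
    ‖∫ x in Ioi (0 : ℝ), f ((-a0 + x : ℝ) + y * I) * gs t (x + η * I)‖ ≤
      6 / 10 * (Real.sqrt t * ‖Av G t U a0 y η‖) := by
  have hU := h.U0
  have ht := h.t0
  have htU : 0 < t * U := mul_pos ht hU
  have hs : 0 < Real.sqrt t := Real.sqrt_pos.2 ht
  have hnn := norm_nonneg (Av G t U a0 y η)
  have hann := h.ann
  have h3 : 29 / 10 ≤ a0 * U := hu
  have g1 := gi' (b := 1 / 8) (by norm_num) ht (2 * t * U)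
  have n1 : Real.sqrt (Real.pi / (1 / 8)) ≤ 5.1 := by
    rw [Real.sqrt_le_left (by norm_num)]
    have := Real.pi_lt_d2
    norm_num
    linarith
  have hAs : 0 ≤ Real.sqrt t * ‖Av G t U a0 y η‖ := by positivity
  have hcm : ∀ x : ℝ, f ((-a0 + x : ℝ) + y * I) = f ((x - a0 : ℝ) + y * I) := by
    intro x; congr 2; rw [neg_add_eq_sub]
  rcases le_total (4 * a0) (t * U) with hcase | hcase
  · -- small
    have hint : IntegrableOn (fun x : ℝ => f ((-a0 + x : ℝ) + y * I) * gs t (x + η * I))
        (Ioi (t * U)) := by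
      refine Integrable.mono' ((g1.1.const_mul (101 / 100 * ‖Av G t U a0 y η‖ *
        Real.exp (-(19 / 10) * (a0 * U)))).integrableOn)
        (cont_psi hc (-a0) y η t).aestronglyMeasurable ?_
      refine (ae_restrict_iff' measurableSet_Ioi).2 (Eventually.of_forall fun x hx => ?_)
      have := h.mirror_a hcase (le_of_lt hx)
      rw [hcm]
      refine this.trans (le_of_eq (by ring))
    have hsplit : ∫ x in Ioi (0 : ℝ), f ((-a0 + x : ℝ) + y * I) * gs t (x + η * I) =
        (∫ x in Ioc (0 : ℝ) (t * U), f ((-a0 + x : ℝ) + y * I) * gs t (x + η * I)) +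
        ∫ x in Ioi (t * U), f ((-a0 + x : ℝ) + y * I) * gs t (x + η * I) := by
      rw [← setIntegral_union (Ioc_disjoint_Ioi le_rfl) measurableSet_Ioi
        (int_cpt hc (-a0) 0 (t * U)) hint, Ioc_union_Ioi_eq_Ioi htU.le]
    have e1 := h.far_int' (a := -a0) (b := 0) (c := t * U) (M := t * U) htU.le (by linarith) le_rfl (by
      intro x hx
      have := hx.1
      have h5 : 0 < 3 / U := by positivity
      rw [abs_le]; constructor <;> linarith)
    have e2 : ‖∫ x in Ioi (t * U), f ((-a0 + x : ℝ) + y * I) * gs t (x + η * I)‖ ≤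
        101 / 100 * ‖Av G t U a0 y η‖ * Real.exp (-(19 / 10) * (a0 * U)) *
          (Real.sqrt (Real.pi / (1 / 8)) * Real.sqrt t) := by
      calc _ ≤ ∫ x in Ioi (t * U), 101 / 100 * ‖Av G t U a0 y η‖ *
            Real.exp (-(19 / 10) * (a0 * U)) * Real.exp (-(1 / 8) * (x - 2 * t * U) ^ 2 / t) := by
            refine norm_integral_le_of_norm_le (g1.1.const_mul _).integrableOn ?_
            refine (ae_restrict_iff' measurableSet_Ioi).2 (Eventually.of_forall fun x hx => ?_)
            have := h.mirror_a hcase (le_of_lt hx)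
            rw [hcm]
            refine this.trans (le_of_eq (by ring))
        _ ≤ ∫ x : ℝ, 101 / 100 * ‖Av G t U a0 y η‖ *
            Real.exp (-(19 / 10) * (a0 * U)) * Real.exp (-(1 / 8) * (x - 2 * t * U) ^ 2 / t) :=
            setIntegral_le_integral (g1.1.const_mul _) (Eventually.of_forall fun x => by positivity)
        _ = _ := by rw [integral_const_mul, g1.2]
    have e3 : Real.exp (-(19 / 10) * (a0 * U)) ≤ 1 / 20 := by
      have h5 := Real.quadratic_le_exp_of_nonneg (x := 19 / 10 * (a0 * U)) (by positivity)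
      have h6 : (20 : ℝ) ≤ Real.exp (19 / 10 * (a0 * U)) := by nlinarith
      have h7 : Real.exp (-(19 / 10) * (a0 * U)) = (Real.exp (19 / 10 * (a0 * U)))⁻¹ := by
        rw [← Real.exp_neg]; congr 1; ring
      rw [h7, ← one_div]
      exact one_div_le_one_div_of_le (by norm_num) h6
    have e4 := h.tail.2
    rw [hsplit]
    refine (norm_add_le _ _).trans ?_
    have e5 : 2 * ‖Av G t U a0 y η‖ * Real.exp (-(t * U ^ 2) / 5) * (t * U) ≤
        2 * ‖Av G t U a0 y η‖ * (Real.sqrt t / 10 ^ 6) := by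
      calc _ = 2 * ‖Av G t U a0 y η‖ * (t * U * Real.exp (-(t * U ^ 2) / 5)) := by ring
        _ ≤ _ := by gcongr
    have e6 : 101 / 100 * ‖Av G t U a0 y η‖ * Real.exp (-(19 / 10) * (a0 * U)) *
          (Real.sqrt (Real.pi / (1 / 8)) * Real.sqrt t) ≤
          101 / 100 * ‖Av G t U a0 y η‖ * (1 / 20) * (5.1 * Real.sqrt t) := by gcongr
    nlinarith
  · -- large
    have hb := fun x (hx : (0 : ℝ) ≤ x) => h.mirror_b hcase hx
    have hbig := h.big
    have hk : 0 < 2 / 5 * U := by positivity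
    have i1 : IntegrableOn (fun x : ℝ => Real.exp (-(2 / 5) * U * (2 * t * U + x) + 2 * R0 * U))
        (Ioi 0) := by
      have := (integrableOn_exp_mul_Ioi (a := -(2 / 5) * U) (by linarith) 0).const_mul
        (Real.exp (-(2 / 5) * U * (2 * t * U) + 2 * R0 * U))
      refine IntegrableOn.congr_fun this (fun x _ => ?_) measurableSet_Ioi
      rw [← Real.exp_add]
      congr 1
      ring
    have v1 : ∫ x in Ioi (0 : ℝ), Real.exp (-(2 / 5) * U * (2 * t * U + x) + 2 * R0 * U) =
        Real.exp (-(2 / 5) * U * (2 * t * U) + 2 * R0 * U) / (2 / 5 * U) := by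
      have e : ∀ x : ℝ, Real.exp (-(2 / 5) * U * (2 * t * U + x) + 2 * R0 * U) =
          Real.exp (-(2 / 5) * U * (2 * t * U) + 2 * R0 * U) * Real.exp (-(2 / 5) * U * x) := by
        intro x
        rw [← Real.exp_add]
        congr 1
        ring
      simp_rw [e]
      rw [integral_const_mul, integral_exp_mul_Ioi (by linarith) 0, mul_zero, Real.exp_zero]
      field_simp
    have i2 : Integrable (fun x : ℝ => Real.exp (-(9 / 5) * (a0 * U)) *
        Real.exp (-(1 / 8) * (x - 2 * t * U) ^ 2 / t)) := g1.1.const_mul _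
    have e2 : ‖∫ x in Ioi (0 : ℝ), f ((-a0 + x : ℝ) + y * I) * gs t (x + η * I)‖ ≤
        2 * ‖Av G t U a0 y η‖ * (Real.exp (-(2 / 5) * U * (2 * t * U) + 2 * R0 * U) / (2 / 5 * U) +
          Real.exp (-(9 / 5) * (a0 * U)) * (Real.sqrt (Real.pi / (1 / 8)) * Real.sqrt t)) := by
      calc _ ≤ ∫ x in Ioi (0 : ℝ), 2 * ‖Av G t U a0 y η‖ *
            (Real.exp (-(2 / 5) * U * (2 * t * U + x) + 2 * R0 * U) +
        Real.exp (-(9 / 5) * (a0 * U)) * Real.exp (-(1 / 8) * (x - 2 * t * U) ^ 2 / t)) := by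
            refine norm_integral_le_of_norm_le ((i1.add i2.integrableOn).const_mul _) ?_
            refine (ae_restrict_iff' measurableSet_Ioi).2 (Eventually.of_forall fun x hx => ?_)
            rw [hcm]
            exact hb x (le_of_lt hx)
        _ = 2 * ‖Av G t U a0 y η‖ * ((∫ x in Ioi (0 : ℝ),
              Real.exp (-(2 / 5) * U * (2 * t * U + x) + 2 * R0 * U)) +
              ∫ x in Ioi (0 : ℝ), Real.exp (-(9 / 5) * (a0 * U)) *
                Real.exp (-(1 / 8) * (x - 2 * t * U) ^ 2 / t)) := by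
            rw [integral_const_mul, integral_add i1 i2.integrableOn]
        _ ≤ _ := by
            refine mul_le_mul_of_nonneg_left ?_ (by positivity)
            rw [v1]
            refine add_le_add le_rfl ?_
            refine (setIntegral_le_integral i2 (Eventually.of_forall fun x => by positivity)).trans ?_
            rw [integral_const_mul, g1.2]
    have e3 : Real.exp (-(9 / 5) * (a0 * U)) ≤ 1 / 16 := by
      have h5 := Real.quadratic_le_exp_of_nonneg (x := 9 / 5 * (a0 * U)) (by positivity)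
      have h6 : (16 : ℝ) ≤ Real.exp (9 / 5 * (a0 * U)) := by nlinarith
      have h7 : Real.exp (-(9 / 5) * (a0 * U)) = (Real.exp (9 / 5 * (a0 * U)))⁻¹ := by
        rw [← Real.exp_neg]; congr 1; ring
      rw [h7, ← one_div]
      exact one_div_le_one_div_of_le (by norm_num) h6
    have hnu := h.nu
    -- sharper: a0 U is at least t U^2 / 4
    have h8 : 25000 ≤ a0 * U := by nlinarith
    have e3' : Real.exp (-(9 / 5) * (a0 * U)) ≤ 1 / 10 ^ 6 := by
      have h5 := Real.quadratic_le_exp_of_nonneg (x := 9 / 5 * (a0 * U)) (by positivity)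
      have h6 : (10 ^ 6 : ℝ) ≤ Real.exp (9 / 5 * (a0 * U)) := by nlinarith
      have h7 : Real.exp (-(9 / 5) * (a0 * U)) = (Real.exp (9 / 5 * (a0 * U)))⁻¹ := by
        rw [← Real.exp_neg]; congr 1; ring
      rw [h7, ← one_div]
      exact one_div_le_one_div_of_le (by norm_num) h6
    have e4 : Real.exp (-(2 / 5) * U * (2 * t * U) + 2 * R0 * U) / (2 / 5 * U) ≤
        Real.sqrt t / 100 := by
      have h9 : -(2 / 5) * U * (2 * t * U) + 2 * R0 * U ≤ -(1 / 2 * (t * U ^ 2)) := by
        nlinarith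
      have h10 : Real.exp (-(2 / 5) * U * (2 * t * U) + 2 * R0 * U) ≤ 1 / 10 := by
        refine (Real.exp_le_exp.2 h9).trans ?_
        rw [Real.exp_neg, ← one_div]
        refine one_div_le_one_div_of_le (by norm_num) ?_
        have := Real.add_one_le_exp (1 / 2 * (t * U ^ 2))
        linarith
      have hr := h.r_ge
      rw [div_le_iff₀ hk]
      calc _ ≤ (1 / 10 : ℝ) := h10
        _ ≤ _ := by nlinarith
    refine e2.trans ?_
    have e6 : Real.exp (-(9 / 5) * (a0 * U)) * (Real.sqrt (Real.pi / (1 / 8)) * Real.sqrt t) ≤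
        1 / 10 ^ 6 * (5.1 * Real.sqrt t) := by gcongr
    nlinarith

end Sad

end Pool.Agent.Helper40.HF
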