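import Pool.Agent.Helper40.HF.D

set_option autoImplicit false
set_option maxHeartbeats 1000000

/-!
# Near the line: the difference of the two halves
-/

open Complex Filter Topology Set MeasureTheory

namespace Pool.Agent.Helper40.HF

lemma norm_exp_sub_one_le (z : ℂ) : ‖cexp z - 1‖ ≤ ‖z‖ * Real.exp ‖z‖ := by
  have h := Complex.norm_exp_sub_sum_le_norm_mul_exp z 1
  simpa using h

lemma lin_le_exp (ρ : ℝ) (hρ : 0 ≤ ρ) : ρ ≤ 5 * Real.exp (ρ ^ 2 / 100) := by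
  have := Real.add_one_le_exp (ρ ^ 2 / 100)
  nlinarith [sq_nonneg (ρ - 10)]

namespace Sad

variable {f G ℓ : ℂ → ℂ} {R0 d t U y η : ℝ} (h : Sad f G ℓ R0 d t U 0 y η) (hc : Continuous f)
include h

/-- shift of the Gaussian -/
lemma gs_shift (u ξ : ℝ) : gs t ((ξ - u : ℝ) + η * I) = gs t (ξ + η * I) *
    (Real.exp (-u ^ 2 / (4 * t)) : ℝ) * (cexp (ℓ ((0 + 2 * t * U : ℝ) + y * I) * u) *
      cexp ((u * (ξ - 2 * t * U) / (2 * t) : ℝ))) := by
  have h2 := h.t0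
  have ht : (t : ℂ) ≠ 0 := by exact_mod_cast h2.ne'
  unfold gs
  rw [Complex.ofReal_exp, ← Complex.exp_add, ← Complex.exp_add, ← Complex.exp_add]
  congr 1
  have e := h.sad
  set l := ℓ ((0 + 2 * t * U : ℝ) + y * I) with hl
  have e2 : l = ((2 * t * U : ℝ) + η * I) / (2 * t) := by
    rw [← e]; field_simp
  rw [e2]
  push_cast
  field_simp
  ring

/-- the integrand with the additional factor -/
lemma delta_near {u ξ : ℝ} (hu : 0 ≤ u) (hu3 : u ≤ 3 / U) (hξ : t * U ≤ ξ) (σ : ℝ)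
    (hσ : |σ| = u * |ξ - 2 * t * U| / (2 * t)) :
    ‖f ((0 + ξ : ℝ) + y * I) * gs t (ξ + η * I) * (cexp (σ : ℝ) - 1)‖ ≤
      u / Real.sqrt t * (26 / 10) * ‖Av G t U 0 y η‖ *
        Real.exp (-(22 / 100) * (ξ - 2 * t * U) ^ 2 / t) := by
  have hU := h.U0
  have ht := h.t0
  have hr := h.r_ge
  have hs : 0 < Real.sqrt t := Real.sqrt_pos.2 ht
  have hss : Real.sqrt t * Real.sqrt t = t := Real.mul_self_sqrt ht.le
  set v : ℝ := ξ - 2 * t * U with hv
  set ρ : ℝ := |v| / Real.sqrt t with hρ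
  have hρ0 : 0 ≤ ρ := by positivity
  have hvρ : |v| = ρ * Real.sqrt t := by rw [hρ]; field_simp
  have hρ2 : ρ ^ 2 = v ^ 2 / t := by
    rw [hρ, div_pow, sq_abs, Real.sq_sqrt ht.le]
  have hσ1 : |σ| = u / (2 * Real.sqrt t) * ρ := by
    rw [hσ, hvρ]
    have : (2 * t : ℝ) = 2 * (Real.sqrt t * Real.sqrt t) := by rw [hss]
    rw [this]
    field_simp
  have hσ2 : |σ| ≤ ρ / 200 := by
    rw [hσ1]
    have h3 : u / (2 * Real.sqrt t) ≤ 1 / 200 := by
      rw [div_le_div_iff₀ (by positivity) (by norm_num)]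
      have h4 : u * U ≤ 3 := by rwa [le_div_iff₀ hU] at hu3
      have h5 : u * 300 ≤ u * (Real.sqrt t * U) := mul_le_mul_of_nonneg_left hr hu
      have h6 : u * (Real.sqrt t * U) = (u * U) * Real.sqrt t := by ring
      have h7 := mul_le_mul_of_nonneg_right h4 hs.le
      nlinarith
    calc u / (2 * Real.sqrt t) * ρ ≤ 1 / 200 * ρ := mul_le_mul_of_nonneg_right h3 hρ0
      _ = ρ / 200 := by ring
  have h1 := norm_exp_sub_one_le (σ : ℂ)
  rw [Complex.norm_real, Real.norm_eq_abs] at h1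
  have h2 := h.near_norm hξ
  rw [← hv] at h2
  have e1 : Real.exp |σ| ≤ 101 / 100 * Real.exp (ρ ^ 2 / 400) := by
    have e2 : |σ| ≤ 1 / 400 + ρ ^ 2 / 400 := by nlinarith [sq_nonneg (ρ - 1)]
    have e3 : Real.exp (1 / 400) ≤ 101 / 100 := by
      have := Real.exp_bound_div_one_sub_of_interval (x := 1 / 400) (by norm_num) (by norm_num)
      norm_num at this ⊢
      linarith
    calc Real.exp |σ| ≤ Real.exp (1 / 400 + ρ ^ 2 / 400) := Real.exp_le_exp.2 e2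
      _ = Real.exp (1 / 400) * Real.exp (ρ ^ 2 / 400) := Real.exp_add _ _
      _ ≤ _ := by gcongr
  have e4 := lin_le_exp ρ hρ0
  rw [norm_mul]
  calc ‖f ((0 + ξ : ℝ) + y * I) * gs t (ξ + η * I)‖ * ‖cexp (σ : ℝ) - 1‖ ≤
      (101 / 100 * ‖Av G t U 0 y η‖ * Real.exp (-(6 / 25) * v ^ 2 / t)) *
        ((u / (2 * Real.sqrt t) * (5 * Real.exp (ρ ^ 2 / 100))) *
          (101 / 100 * Real.exp (ρ ^ 2 / 400))) := by
        refine mul_le_mul h2 (h1.trans ?_) (norm_nonneg _) (by positivity)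
        rw [hσ1] at *
        refine mul_le_mul ?_ e1 (Real.exp_pos _).le (by positivity)
        exact mul_le_mul_of_nonneg_left e4 (by positivity)
    _ = u / Real.sqrt t * (101 / 100 * 101 / 100 * 5 / 2) * ‖Av G t U 0 y η‖ *
        (Real.exp (-(6 / 25) * v ^ 2 / t) * Real.exp (ρ ^ 2 / 100) * Real.exp (ρ ^ 2 / 400)) := by
        field_simp
    _ ≤ u / Real.sqrt t * (26 / 10) * ‖Av G t U 0 y η‖ *
        Real.exp (-(22 / 100) * v ^ 2 / t) := by
        rw [← Real.exp_add, ← Real.exp_add]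
        refine mul_le_mul ?_ ?_ (Real.exp_pos _).le (by positivity)
        · refine mul_le_mul_of_nonneg_right ?_ (norm_nonneg _)
          refine mul_le_mul_of_nonneg_left (by norm_num) (by positivity)
        · refine Real.exp_le_exp.2 ?_
          rw [hρ2]
          have e5 : -(6 / 25) * v ^ 2 / t = -(6 / 25) * (v ^ 2 / t) := by ring
          have e6 : -(22 / 100) * v ^ 2 / t = -(22 / 100) * (v ^ 2 / t) := by ring
          rw [e5, e6]
          have : 0 ≤ v ^ 2 / t := by positivity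
          linarith

lemma delta_far {u ξ : ℝ} (hu : 0 ≤ u) (hu3 : u ≤ 3 / U) (hξ0 : 0 ≤ ξ) (hξ : ξ ≤ t * U) (σ : ℝ)
    (hσ : |σ| = u * |ξ - 2 * t * U| / (2 * t)) :
    ‖f ((0 + ξ : ℝ) + y * I) * gs t (ξ + η * I) * (cexp (σ : ℝ) - 1)‖ ≤
      50 * (u * U) * ‖Av G t U 0 y η‖ * Real.exp (-(t * U ^ 2) / 5) := by
  have hU := h.U0
  have ht := h.t0
  have htU : 0 < t * U := mul_pos ht hU
  have h4 : u * U ≤ 3 := by rwa [le_div_iff₀ hU] at hu3
  have hσ1 : |σ| ≤ u * U := by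
    rw [hσ, div_le_iff₀ (by positivity)]
    have : |ξ - 2 * t * U| ≤ 2 * t * U := by rw [abs_le]; constructor <;> linarith
    nlinarith
  have h1 := norm_exp_sub_one_le (σ : ℂ)
  rw [Complex.norm_real, Real.norm_eq_abs] at h1
  have h2 := h.far (x := ξ) (ζ := 0 + ξ) hξ (by
    rw [abs_of_nonneg (by linarith)]
    have : 0 < 3 / U := by positivity
    linarith)
  have e1 : Real.exp |σ| ≤ 25 := by
    have h5 : Real.exp |σ| ≤ Real.exp 3 := Real.exp_le_exp.2 (hσ1.trans h4)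
    have h6 : Real.exp 3 = Real.exp 1 ^ 3 := by rw [← Real.exp_nat_mul]; norm_num
    have h7 := Real.exp_one_lt_d9
    have h8 : Real.exp 1 ^ 3 ≤ (2.75 : ℝ) ^ 3 :=
      pow_le_pow_left₀ (Real.exp_pos _).le (by linarith) 3
    norm_num at h8
    linarith
  rw [norm_mul]
  calc ‖f ((0 + ξ : ℝ) + y * I) * gs t (ξ + η * I)‖ * ‖cexp (σ : ℝ) - 1‖ ≤
      (2 * ‖Av G t U 0 y η‖ * Real.exp (-(t * U ^ 2) / 5)) * ((u * U) * 25) := by
        refine mul_le_mul h2 (h1.trans ?_) (norm_nonneg _) (by positivity)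
        refine mul_le_mul hσ1 e1 (Real.exp_pos _).le (by positivity)
    _ = _ := by ring

include hc

lemma delta {u : ℝ} (hu : 0 ≤ u) (hu3 : u ≤ 3 / U) (σ : ℝ → ℝ) (hσc : Continuous σ)
    (hσ : ∀ ξ, |σ ξ| = u * |ξ - 2 * t * U| / (2 * t)) :
    IntegrableOn (fun ξ : ℝ => f ((0 + ξ : ℝ) + y * I) * gs t (ξ + η * I) * (cexp (σ ξ : ℝ) - 1))
      (Ioi u) ∧
    ‖∫ ξ in Ioi u, f ((0 + ξ : ℝ) + y * I) * gs t (ξ + η * I) * (cexp (σ ξ : ℝ) - 1)‖ ≤
      10 * (u * ‖Av G t U 0 y η‖) := by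
  have hU := h.U0
  have ht := h.t0
  have htU : 0 < t * U := mul_pos ht hU
  have hs : 0 < Real.sqrt t := Real.sqrt_pos.2 ht
  have hss : Real.sqrt t * Real.sqrt t = t := Real.mul_self_sqrt ht.le
  have hnn := norm_nonneg (Av G t U 0 y η)
  have h4 : u * U ≤ 3 := by rwa [le_div_iff₀ hU] at hu3
  have hutU : u ≤ t * U := by
    have hnu := h.nu
    refine hu3.trans ?_
    rw [div_le_iff₀ hU]
    nlinarith
  have g1 := gi' (b := 22 / 100) (by norm_num) ht (2 * t * U)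
  have hcont : Continuous (fun ξ : ℝ => f ((0 + ξ : ℝ) + y * I) * gs t (ξ + η * I) *
      (cexp (σ ξ : ℝ) - 1)) := by
    refine (cont_psi hc 0 y η t).mul ?_
    fun_prop
  set F : ℝ → ℂ := fun ξ : ℝ => f ((0 + ξ : ℝ) + y * I) * gs t (ξ + η * I) * (cexp (σ ξ : ℝ) - 1)
    with hF
  have hn1 : IntegrableOn F (Ioi (t * U)) := by
    refine Integrable.mono' ((g1.1.const_mul (u / Real.sqrt t * (26 / 10) *
      ‖Av G t U 0 y η‖)).integrableOn) hcont.aestronglyMeasurable ?_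
    refine (ae_restrict_iff' measurableSet_Ioi).2 (Eventually.of_forall fun x hx => ?_)
    exact h.delta_near hu hu3 (le_of_lt hx) (σ x) (hσ x)
  have hn2 : IntegrableOn F (Ioc u (t * U)) :=
    (hcont.continuousOn.integrableOn_compact isCompact_Icc).mono_set Ioc_subset_Icc_self
  refine ⟨?_, ?_⟩
  · rw [← Ioc_union_Ioi_eq_Ioi hutU]
    exact hn2.union hn1
  have hsplit : ∫ x in Ioi u, F x = (∫ x in Ioc u (t * U), F x) + ∫ x in Ioi (t * U), F x := by
    rw [← setIntegral_union (Ioc_disjoint_Ioi le_rfl) measurableSet_Ioi hn2 hn1,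
      Ioc_union_Ioi_eq_Ioi hutU]
  have e1 : ‖∫ x in Ioc u (t * U), F x‖ ≤
      50 * (u * U) * ‖Av G t U 0 y η‖ * Real.exp (-(t * U ^ 2) / 5) * (t * U) := by
    have h2 := norm_setIntegral_le_of_norm_le_const (μ := volume) (s := Ioc u (t * U))
      (f := F) (C := 50 * (u * U) * ‖Av G t U 0 y η‖ * Real.exp (-(t * U ^ 2) / 5))
      (by rw [Real.volume_Ioc]; exact ENNReal.ofReal_lt_top)
      (fun x hx => h.delta_far hu hu3 (hu.trans hx.1.le) hx.2 (σ x) (hσ x))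
    refine h2.trans ?_
    refine mul_le_mul_of_nonneg_left ?_ (by positivity)
    rw [Real.volume_real_Ioc_of_le hutU]
    linarith
  have e2 : ‖∫ x in Ioi (t * U), F x‖ ≤ u / Real.sqrt t * (26 / 10) * ‖Av G t U 0 y η‖ *
      (Real.sqrt (Real.pi / (22 / 100)) * Real.sqrt t) := by
    calc _ ≤ ∫ x in Ioi (t * U), u / Real.sqrt t * (26 / 10) * ‖Av G t U 0 y η‖ *
          Real.exp (-(22 / 100) * (x - 2 * t * U) ^ 2 / t) := by
          refine norm_integral_le_of_norm_le (g1.1.const_mul _).integrableOn ?_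
          refine (ae_restrict_iff' measurableSet_Ioi).2 (Eventually.of_forall fun x hx => ?_)
          exact h.delta_near hu hu3 (le_of_lt hx) (σ x) (hσ x)
      _ ≤ ∫ x : ℝ, u / Real.sqrt t * (26 / 10) * ‖Av G t U 0 y η‖ *
          Real.exp (-(22 / 100) * (x - 2 * t * U) ^ 2 / t) :=
          setIntegral_le_integral (g1.1.const_mul _) (Eventually.of_forall fun x => by positivity)
      _ = _ := by rw [integral_const_mul, g1.2]
  have n1 : Real.sqrt (Real.pi / (22 / 100)) ≤ 3.8 := by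
    rw [Real.sqrt_le_left (by norm_num)]
    have := Real.pi_lt_d2
    norm_num
    linarith
  have e3 : u / Real.sqrt t * (26 / 10) * ‖Av G t U 0 y η‖ *
      (Real.sqrt (Real.pi / (22 / 100)) * Real.sqrt t) ≤ 26 / 10 * 3.8 * (u * ‖Av G t U 0 y η‖) := by
    calc _ = 26 / 10 * Real.sqrt (Real.pi / (22 / 100)) * (u * ‖Av G t U 0 y η‖) := by field_simp
      _ ≤ _ := by gcongr
  have e4 := h.tail.1
  have e5 : 50 * (u * U) * ‖Av G t U 0 y η‖ * Real.exp (-(t * U ^ 2) / 5) * (t * U) ≤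
      5 / 10 ^ 3 * (u * ‖Av G t U 0 y η‖) := by
    calc _ = 50 * (u * ‖Av G t U 0 y η‖) * (t * U ^ 2 * Real.exp (-(t * U ^ 2) / 5)) := by ring
      _ ≤ 50 * (u * ‖Av G t U 0 y η‖) * (1 / 10 ^ 4) := by gcongr
      _ = _ := by ring
  rw [hsplit]
  refine (norm_add_le _ _).trans ?_
  have : 0 ≤ u * ‖Av G t U 0 y η‖ := by positivity
  nlinarith

/-- the two halves near the line -/
lemma close {u : ℝ} (hu : 0 < u) (hu3 : u ≤ 3 / U) :
    ‖∫ x in Ioi (0 : ℝ), f ((-u + x : ℝ) + y * I) * gs t (x + η * I)‖ + u * ‖Av G t U 0 y η‖ ≤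
      ‖∫ x in Ioi (0 : ℝ), f ((u + x : ℝ) + y * I) * gs t (x + η * I)‖ := by
  have hU := h.U0
  have ht := h.t0
  have htU : 0 < t * U := mul_pos ht hU
  have hs : 0 < Real.sqrt t := Real.sqrt_pos.2 ht
  have hnu := h.nu
  have hr := h.r_ge
  set A := Av G t U 0 y η with hA
  set l := ℓ ((0 + 2 * t * U : ℝ) + y * I) with hl
  have hlre : l.re = U := h.l_re
  have hnn := norm_nonneg A
  have h4 : u * U ≤ 3 := by rwa [le_div_iff₀ hU] at hu3
  have hutU : 2 * u ≤ t * U := by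
    have : 2 * u * U ≤ t * U * U := by nlinarith
    exact le_of_mul_le_mul_right this hU
  set Ψ : ℝ → ℂ := fun ξ => f ((0 + ξ : ℝ) + y * I) * gs t (ξ + η * I) with hΨ
  set e0 : ℝ := Real.exp (-u ^ 2 / (4 * t)) with he0
  set I0 : ℂ := ∫ ξ in Ioi u, Ψ ξ with hI0
  have hlow : 13 / 10 * (Real.sqrt t * ‖A‖) ≤ ‖I0‖ := h.main_low hc hu.le (by linarith)
  have hint : IntegrableOn Ψ (Ioi u) := h.int_main hc (by linarith)
  -- the two perturbations
  have hδ : ∀ s : ℝ, |s| = 1 → ∃ J : ℂ, (∫ ξ in Ioi u, Ψ ξ * cexp ((s * (u * (ξ - 2 * t * U) / (2 * t)) : ℝ))) = I0 + J ∧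
      ‖J‖ ≤ 10 * (u * ‖A‖) := by
    intro s hs1
    obtain ⟨j1, j2⟩ := h.delta hc hu.le hu3 (fun ξ => s * (u * (ξ - 2 * t * U) / (2 * t)))
      (by fun_prop) (fun ξ => by
        rw [abs_mul, hs1, one_mul, abs_div, abs_mul, abs_of_pos hu, abs_of_pos (by linarith : 0 < 2 * t)])
    refine ⟨_, ?_, j2⟩
    rw [hI0, ← integral_add hint j1]
    congr 1
    funext ξ
    simp only [hΨ]
    ring
  obtain ⟨Jp, hJp, hJp2⟩ := hδ 1 (by norm_num)
  obtain ⟨Jm, hJm, hJm2⟩ := hδ (-1) (by norm_num)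
  -- the right half
  have hR : ∫ x in Ioi (0 : ℝ), f ((u + x : ℝ) + y * I) * gs t (x + η * I) =
      (e0 : ℂ) * cexp (l * u) * (I0 + Jp) := by
    have e1 := shift_Ioi (fun ξ : ℝ => f ((ξ : ℝ) + y * I) * gs t ((ξ - u : ℝ) + η * I)) 0 u
    rw [zero_add] at e1
    have e2 : (fun x : ℝ => f ((u + x : ℝ) + y * I) * gs t (x + η * I)) =
        fun x : ℝ => f ((x + u : ℝ) + y * I) * gs t ((x + u - u : ℝ) + η * I) := by
      funext x
      rw [add_sub_cancel_right, add_comm u x]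
    rw [e2, e1, ← hJp, ← integral_const_mul]
    congr 1
    funext ξ
    rw [h.gs_shift u ξ, ← hl, ← he0]
    simp only [hΨ, zero_add, one_mul]
    ring
  -- the left half
  have hL1 : ∫ x in Ioi (0 : ℝ), f ((-u + x : ℝ) + y * I) * gs t (x + η * I) =
      ∫ ξ in Ioi (-u), f ((ξ : ℝ) + y * I) * gs t ((ξ + u : ℝ) + η * I) := by
    have e1 := shift_Ioi (fun ξ : ℝ => f ((ξ : ℝ) + y * I) * gs t ((ξ + u : ℝ) + η * I)) 0 (-u)
    rw [zero_add] at e1
    rw [← e1]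
    congr 1
    funext x
    rw [neg_add_cancel_right, add_comm (-u) x]
  have hcm : Continuous fun ξ : ℝ => f ((ξ : ℝ) + y * I) * gs t ((ξ + u : ℝ) + η * I) := by
    unfold gs
    fun_prop
  have hgs2 : ∀ ξ : ℝ, f ((ξ : ℝ) + y * I) * gs t ((ξ + u : ℝ) + η * I) =
      (e0 : ℂ) * cexp (-(l * u)) *
        (Ψ ξ * cexp (((-1 : ℝ) * (u * (ξ - 2 * t * U) / (2 * t)) : ℝ))) := by
    intro ξ
    have := h.gs_shift (-u) ξ
    rw [sub_neg_eq_add, neg_sq, ← hl, ← he0] at this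
    rw [this]
    simp only [hΨ, zero_add]
    have e3 : cexp (l * ((-u : ℝ) : ℂ)) = cexp (-(l * u)) := by congr 1; push_cast; ring
    have e4 : cexp ((-u * (ξ - 2 * t * U) / (2 * t) : ℝ)) =
        cexp (((-1 : ℝ) * (u * (ξ - 2 * t * U) / (2 * t)) : ℝ)) := by congr 2; ring
    rw [e3, e4]
    ring
  have hi2 : IntegrableOn (fun ξ : ℝ => f ((ξ : ℝ) + y * I) * gs t ((ξ + u : ℝ) + η * I)) (Ioi u) := by
    have j3 : IntegrableOn (fun ξ : ℝ => Ψ ξ * cexp (((-1 : ℝ) * (u * (ξ - 2 * t * U) / (2 * t)) : ℝ)))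
        (Ioi u) := by
      obtain ⟨j1, _⟩ := h.delta hc hu.le hu3 (fun ξ => (-1 : ℝ) * (u * (ξ - 2 * t * U) / (2 * t)))
        (by fun_prop) (fun ξ => by
          rw [abs_mul, abs_neg, abs_one, one_mul, abs_div, abs_mul, abs_of_pos hu,
            abs_of_pos (by linarith : 0 < 2 * t)])
      refine IntegrableOn.congr_fun (hint.add j1) (fun ξ _ => ?_) measurableSet_Ioi
      simp only [hΨ, Pi.add_apply]
      ring
    refine IntegrableOn.congr_fun (j3.const_mul ((e0 : ℂ) * cexp (-(l * u)))) (fun ξ _ => ?_)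
      measurableSet_Ioi
    exact (hgs2 ξ).symm
  have hi3 : IntegrableOn (fun ξ : ℝ => f ((ξ : ℝ) + y * I) * gs t ((ξ + u : ℝ) + η * I))
      (Ioc (-u) u) :=
    (hcm.continuousOn.integrableOn_compact isCompact_Icc).mono_set Ioc_subset_Icc_self
  have hL : ∫ x in Ioi (0 : ℝ), f ((-u + x : ℝ) + y * I) * gs t (x + η * I) =
      (∫ ξ in Ioc (-u) u, f ((ξ : ℝ) + y * I) * gs t ((ξ + u : ℝ) + η * I)) +
        (e0 : ℂ) * cexp (-(l * u)) * (I0 + Jm) := by
    rw [hL1, ← Ioc_union_Ioi_eq_Ioi (by linarith : -u ≤ u),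
      setIntegral_union (Ioc_disjoint_Ioi le_rfl) measurableSet_Ioi hi3 hi2, ← hJm,
      ← integral_const_mul]
    congr 2
    funext ξ
    exact hgs2 ξ
  -- the small piece
  have hS : ‖∫ ξ in Ioc (-u) u, f ((ξ : ℝ) + y * I) * gs t ((ξ + u : ℝ) + η * I)‖ ≤
      1 / 10 * (u * ‖A‖) := by
    have h2 := norm_setIntegral_le_of_norm_le_const (μ := volume) (s := Ioc (-u) u)
      (f := fun ξ : ℝ => f ((ξ : ℝ) + y * I) * gs t ((ξ + u : ℝ) + η * I))
      (C := 2 * ‖A‖ * Real.exp (-(t * U ^ 2) / 5))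
      (by rw [Real.volume_Ioc]; exact ENNReal.ofReal_lt_top)
      (fun ξ hξ => by
        refine h.far (x := ξ + u) (ζ := ξ) (by linarith [hξ.2]) ?_
        have h5 : |ξ| ≤ u := abs_le.2 ⟨by linarith [hξ.1], hξ.2⟩
        have := hξ.1
        linarith)
    refine h2.trans ?_
    rw [Real.volume_real_Ioc_of_le (by linarith)]
    have e4 : Real.exp (-(t * U ^ 2) / 5) ≤ 1 / 100 := by
      have e5 := h.tail.1
      have e6 : 0 < Real.exp (-(t * U ^ 2) / 5) := Real.exp_pos _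
      nlinarith
    calc _ ≤ 2 * ‖A‖ * (1 / 100) * (u - -u) := by gcongr; linarith
      _ ≤ _ := by nlinarith [mul_nonneg hu.le hnn]
  -- sizes
  have he0p : 0 < e0 := Real.exp_pos _
  have he01 : e0 ≤ 1 := by
    rw [he0, Real.exp_le_one_iff]
    exact div_nonpos_of_nonpos_of_nonneg (by nlinarith) (by linarith)
  have he02 : 1 / 2 ≤ e0 := by
    have h5 : u ^ 2 / (4 * t) ≤ 1 / 2 := by
      rw [div_le_iff₀ (by positivity)]
      have h6 : (u * U) ^ 2 ≤ 9 := by nlinarith [mul_nonneg hu.le hU.le]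
      have h7 : u ^ 2 * U ^ 2 ≤ 1 / 2 * (4 * t) * U ^ 2 := by nlinarith
      exact le_of_mul_le_mul_right h7 (by positivity)
    have h6 := Real.add_one_le_exp (-u ^ 2 / (4 * t))
    have h7 : -u ^ 2 / (4 * t) = -(u ^ 2 / (4 * t)) := by ring
    rw [he0]
    linarith
  have nR : ‖(e0 : ℂ) * cexp (l * u) * (I0 + Jp)‖ = e0 * Real.exp (u * U) * ‖I0 + Jp‖ := by
    rw [norm_mul, norm_mul, Complex.norm_real, Real.norm_of_nonneg he0p.le, Complex.norm_exp,
      Complex.re_mul_ofReal, hlre, mul_comm U u]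
  have nL : ‖(e0 : ℂ) * cexp (-(l * u)) * (I0 + Jm)‖ = e0 * Real.exp (-(u * U)) * ‖I0 + Jm‖ := by
    rw [norm_mul, norm_mul, Complex.norm_real, Real.norm_of_nonneg he0p.le, Complex.norm_exp,
      neg_re, Complex.re_mul_ofReal, hlre, mul_comm U u]
  have b1 : ‖I0‖ - 10 * (u * ‖A‖) ≤ ‖I0 + Jp‖ := by
    have : ‖I0‖ ≤ ‖I0 + Jp‖ + ‖Jp‖ := by
      calc ‖I0‖ = ‖(I0 + Jp) - Jp‖ := by congr 1; ring
        _ ≤ _ := norm_sub_le _ _
    linarith
  have b2 : ‖I0 + Jm‖ ≤ ‖I0‖ + 10 * (u * ‖A‖) := (norm_add_le _ _).trans (by linarith)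
  rw [hR, hL, nR]
  have b3 : ‖(∫ ξ in Ioc (-u) u, f ((ξ : ℝ) + y * I) * gs t ((ξ + u : ℝ) + η * I)) +
        (e0 : ℂ) * cexp (-(l * u)) * (I0 + Jm)‖ ≤
        1 / 10 * (u * ‖A‖) + e0 * Real.exp (-(u * U)) * (‖I0‖ + 10 * (u * ‖A‖)) := by
    refine (norm_add_le _ _).trans (add_le_add hS ?_)
    rw [nL]
    exact mul_le_mul_of_nonneg_left b2 (by positivity)
  have b4 : e0 * Real.exp (u * U) * (‖I0‖ - 10 * (u * ‖A‖)) ≤ e0 * Real.exp (u * U) * ‖I0 + Jp‖ :=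
    mul_le_mul_of_nonneg_left b1 (by positivity)
  have c1 : 1 + u * U ≤ Real.exp (u * U) := by
    have := Real.add_one_le_exp (u * U); linarith
  have c2 : Real.exp (-(u * U)) ≤ 1 := by
    rw [Real.exp_le_one_iff]
    have : 0 ≤ u * U := by positivity
    linarith
  have c3 : Real.exp (u * U) ≤ 25 := by
    have h5 : Real.exp (u * U) ≤ Real.exp 3 := Real.exp_le_exp.2 h4
    have h6 : Real.exp 3 = Real.exp 1 ^ 3 := by rw [← Real.exp_nat_mul]; norm_num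
    have h7 := Real.exp_one_lt_d9
    have h8 : Real.exp 1 ^ 3 ≤ (2.75 : ℝ) ^ 3 :=
      pow_le_pow_left₀ (Real.exp_pos _).le (by linarith) 3
    norm_num at h8
    linarith
  have hI0n := norm_nonneg I0
  have huA : 0 ≤ u * ‖A‖ := by positivity
  -- `(exp(uU) - exp(-uU)) ‖I0‖ ≥ uU ‖I0‖ ≥ 390 u ‖A‖`
  have c4 : u * U * ‖I0‖ ≤ (Real.exp (u * U) - Real.exp (-(u * U))) * ‖I0‖ :=
    mul_le_mul_of_nonneg_right (by linarith) hI0n
  have c5 : 390 * (u * ‖A‖) ≤ u * U * ‖I0‖ := by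
    calc 390 * (u * ‖A‖) = 13 / 10 * 300 * (u * ‖A‖) := by ring
      _ ≤ 13 / 10 * (Real.sqrt t * U) * (u * ‖A‖) := by gcongr
      _ = u * U * (13 / 10 * (Real.sqrt t * ‖A‖)) := by ring
      _ ≤ _ := by gcongr
  have c6 : (Real.exp (u * U) + Real.exp (-(u * U))) * (10 * (u * ‖A‖)) ≤ 26 * (10 * (u * ‖A‖)) :=
    mul_le_mul_of_nonneg_right (by linarith) (by positivity)
  have c7 : 130 * (u * ‖A‖) ≤ Real.exp (u * U) * (‖I0‖ - 10 * (u * ‖A‖)) -
      Real.exp (-(u * U)) * (‖I0‖ + 10 * (u * ‖A‖)) := by nlinarith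
  have c8 := mul_le_mul_of_nonneg_left c7 he0p.le
  have c9 : 1 / 2 * (130 * (u * ‖A‖)) ≤ e0 * (130 * (u * ‖A‖)) :=
    mul_le_mul_of_nonneg_right he02 (by positivity)
  nlinarith

end Sad

end Pool.Agent.Helper40.HF
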