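import Pool.Agent.Helper40.HF.E

set_option autoImplicit false
set_option maxHeartbeats 1000000

/-!
# Existence of the saddle point
-/

open Complex Filter Topology Set MeasureTheory
open scoped NNReal

namespace Pool.Agent.Helper40.HF

variable {G ℓ : ℂ → ℂ} {R0 d : ℝ}

/-- the contraction estimate -/
lemma contr (h : LD G ℓ R0 d) {t x0 : ℝ} (ht : 0 < t) (hx0 : R0 ≤ x0) (hd : 200 * t * d ≤ x0)
    {p q : ℂ} (hp : x0 ≤ p.re) (hq : x0 ≤ q.re) :
    ‖2 * t * ℓ p - 2 * t * ℓ q‖ ≤ 1 / 100 * ‖p - q‖ := by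
  have h1 := h.R1
  have hx : 0 < x0 := by linarith
  have h2 := h.lip hx0 hp hq
  have e : 2 * (t : ℂ) * ℓ p - 2 * t * ℓ q = ((2 * t : ℝ) : ℂ) * (ℓ p - ℓ q) := by push_cast; ring
  rw [e, norm_mul, Complex.norm_real, Real.norm_of_nonneg (by linarith)]
  have h3 : 2 * t * (d / x0) ≤ 1 / 100 := by
    rw [mul_div_assoc', div_le_div_iff₀ hx (by norm_num)]
    linarith
  calc 2 * t * ‖ℓ p - ℓ q‖ ≤ 2 * t * (d / x0 * ‖p - q‖) := by gcongr
    _ = 2 * t * (d / x0) * ‖p - q‖ := by ring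
    _ ≤ _ := mul_le_mul_of_nonneg_right h3 (norm_nonneg _)

/-- existence of the saddle point -/
lemma exists_sad (h : LD G ℓ R0 d) {t a0 v x0 y0 : ℝ} (ht : 0 < t) (ha : 0 ≤ a0)
    (hx0 : R0 ≤ x0) (hd : 200 * t * d ≤ x0) (hy0 : 0 ≤ y0)
    (hre : ∀ z : ℂ, x0 ≤ z.re → |z.im| ≤ y0 → x0 ≤ 2 * t * (ℓ (a0 + v * I + z)).re)
    (him : ∀ z : ℂ, x0 ≤ z.re → |z.im| ≤ y0 → |2 * t * (ℓ (a0 + v * I + z)).im| ≤ y0) :
    ∃ z : ℂ, x0 ≤ z.re ∧ |z.im| ≤ y0 ∧ 2 * t * ℓ (a0 + v * I + z) = z := by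
  set D : Set ℂ := {z : ℂ | x0 ≤ z.re} ∩ {z : ℂ | |z.im| ≤ y0} with hD
  have hcl : IsClosed D := (isClosed_le continuous_const continuous_re).inter
    (isClosed_le (continuous_abs.comp continuous_im) continuous_const)
  set Φ : ℂ → ℂ := fun z => 2 * t * ℓ (a0 + v * I + z) with hΦ
  have hΦre : ∀ z, (Φ z).re = 2 * t * (ℓ (a0 + v * I + z)).re := by
    intro z
    rw [hΦ]
    simp only
    rw [show (2 * (t : ℂ)) = ((2 * t : ℝ) : ℂ) by push_cast; ring, Complex.re_ofReal_mul]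
  have hΦim : ∀ z, (Φ z).im = 2 * t * (ℓ (a0 + v * I + z)).im := by
    intro z
    rw [hΦ]
    simp only
    rw [show (2 * (t : ℂ)) = ((2 * t : ℝ) : ℂ) by push_cast; ring, Complex.im_ofReal_mul]
  have hmaps : MapsTo Φ D D := by
    intro z hz
    refine ⟨?_, ?_⟩
    · change x0 ≤ (Φ z).re
      rw [hΦre]
      exact hre z hz.1 hz.2
    · change |(Φ z).im| ≤ y0
      rw [hΦim]
      exact him z hz.1 hz.2
  have hre' : ∀ z ∈ D, x0 ≤ ((a0 : ℂ) + v * I + z).re := by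
    intro z hz
    have : x0 ≤ z.re := hz.1
    rw [add_re, add_re, ofReal_re, Complex.re_ofReal_mul, I_re, mul_zero, add_zero]
    linarith
  have hlip : ∀ p ∈ D, ∀ q ∈ D, dist (Φ p) (Φ q) ≤ 1 / 100 * dist p q := by
    intro p hp q hq
    rw [dist_eq_norm, dist_eq_norm]
    have := contr h ht hx0 hd (hre' p hp) (hre' q hq)
    refine this.trans (le_of_eq ?_)
    congr 2
    ring
  have hcon : ContractingWith (1 / 100 : ℝ≥0) (hmaps.restrict Φ D D) := by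
    refine ⟨?_, ?_⟩
    · rw [← NNReal.coe_lt_coe]; push_cast; norm_num
    · refine LipschitzWith.of_dist_le_mul fun p q => ?_
      have := hlip p p.2 q q.2
      push_cast
      exact this
  have hx1 : ((x0 : ℝ) : ℂ) ∈ D := by
    refine ⟨?_, ?_⟩
    · change x0 ≤ ((x0 : ℝ) : ℂ).re
      rw [ofReal_re]
    · change |((x0 : ℝ) : ℂ).im| ≤ y0
      rw [ofReal_im, abs_zero]; exact hy0
  obtain ⟨z, hz, hfix, -⟩ := hcon.exists_fixedPoint' hcl.isComplete hmaps hx1 (edist_ne_top _ _)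
  exact ⟨z, hz.1, hz.2, hfix⟩

/-- comparison of the saddle points -/
lemma sad_close (h : LD G ℓ R0 d) {t a0 v x0 : ℝ} (ht : 0 < t) (ha : 0 ≤ a0)
    (hx0 : R0 ≤ x0) (hd : 200 * t * d ≤ x0) {z w : ℂ} (hz : x0 ≤ z.re) (hw : x0 ≤ w.re)
    (ez : 2 * t * ℓ (((0 : ℝ) : ℂ) + v * I + z) = z) (ew : 2 * t * ℓ (a0 + v * I + w) = w) :
    ‖w - z‖ ≤ a0 / 99 := by
  have h1 := contr h ht hx0 hd (p := a0 + v * I + w) (q := ((0 : ℝ) : ℂ) + v * I + z) (by
    rw [add_re, add_re, ofReal_re, Complex.re_ofReal_mul, I_re, mul_zero, add_zero]; linarith) (by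
    rw [add_re, add_re, ofReal_re, Complex.re_ofReal_mul, I_re, mul_zero, add_zero]; linarith)
  rw [ez, ew] at h1
  have h2 : ‖(a0 : ℂ) + v * I + w - (((0 : ℝ) : ℂ) + v * I + z)‖ ≤ a0 + ‖w - z‖ := by
    have e : (a0 : ℂ) + v * I + w - (((0 : ℝ) : ℂ) + v * I + z) = (a0 : ℂ) + (w - z) := by
      push_cast; ring
    rw [e]
    refine (norm_add_le _ _).trans ?_
    rw [Complex.norm_real, Real.norm_of_nonneg ha]
  linarith

end Pool.Agent.Helper40.HF
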