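import Pool.Agent.Helper40.HF.F

set_option autoImplicit false
set_option maxHeartbeats 1000000

/-!
# The abstract class and the convexity bound
-/

open Complex Filter Topology Set MeasureTheory Asymptotics
open scoped ComplexConjugate

namespace Pool.Agent.Helper40.HF

/-- the abstract class: `f(-conj z) = ε conj f(z)`, a regular logarithmic derivative for `Re z ≥ b`; `n` is the degree
and `Lq v` a quarter of the logarithm of the analytic conductor at the height `v` -/
structure Cl (b C n : ℝ) (Lq : ℝ → ℝ) (f : ℂ → ℂ) : Prop where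
  hb : 1 ≤ b
  hC : 1 ≤ C
  hn : 1 ≤ n
  hL : ∀ v, 0 ≤ Lq v
  diff : Differentiable ℂ f
  fe : ∃ ε : ℂ, ‖ε‖ = 1 ∧ ∀ z, f (-conj z) = ε * conj (f z)
  fin : ∃ (a : ℕ) (B : ℝ), ∀ z : ℂ, |z.re| ≤ b → ‖f z‖ ≤ Real.exp (B * (1 + |z.im|) ^ a)
  ne : ∀ z : ℂ, b ≤ z.re → f z ≠ 0
  im : ∀ z : ℂ, b ≤ z.re → |(logDeriv f z).im| ≤ C * n
  low : ∀ (z : ℂ) (v : ℝ), b ≤ z.re → |z.im - v| ≤ z.re →
    Lq v + n / 4 * Real.log z.re - C * n ≤ (logDeriv f z).re
  der : ∀ z : ℂ, b ≤ z.re → ‖deriv (logDeriv f) z‖ ≤ C * n / z.re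

/-- monotonicity along horizontal lines -/
lemma LD.mono_re {G ℓ : ℂ → ℂ} {R0 d : ℝ} (h : LD G ℓ R0 d) (y : ℝ) {x X κ : ℝ} (hx : R0 ≤ x)
    (hX : x ≤ X) (hκ : ∀ r, x ≤ r → κ ≤ (ℓ (r + y * I)).re) :
    ‖G (x + y * I)‖ ≤ ‖G (X + y * I)‖ * Real.exp (-(κ * (X - x))) := by
  have hmono : MonotoneOn (fun r : ℝ => Real.log ‖G (r + y * I)‖ - κ * r) (Icc x X) := by
    refine monotoneOn_of_deriv_nonneg (convex_Icc _ _) ?_ ?_ ?_
    · intro r hr
      exact ((h.log_der y (hx.trans hr.1)).sub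
        ((hasDerivAt_id r).const_mul κ)).continuousAt.continuousWithinAt
    · intro r hr
      rw [interior_Icc] at hr
      exact ((h.log_der y (hx.trans hr.1.le)).sub
        ((hasDerivAt_id r).const_mul κ)).differentiableAt.differentiableWithinAt
    · intro r hr
      rw [interior_Icc] at hr
      have := ((h.log_der y (hx.trans hr.1.le)).fun_sub ((hasDerivAt_id r).const_mul κ)).deriv
      simp only [id, mul_one] at this
      rw [this]
      linarith [hκ r hr.1.le]
  have h2 := hmono (left_mem_Icc.2 hX) (right_mem_Icc.2 hX) hX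
  simp only at h2
  have hG1 : 0 < ‖G (x + y * I)‖ := norm_pos_iff.2 (h.ne _ (by simpa using hx))
  have hG2 : 0 < ‖G (X + y * I)‖ := norm_pos_iff.2 (h.ne _ (by simpa using hx.trans hX))
  calc ‖G (x + y * I)‖ = Real.exp (Real.log ‖G (x + y * I)‖) := (Real.exp_log hG1).symm
    _ ≤ Real.exp (Real.log ‖G (X + y * I)‖ - κ * (X - x)) := Real.exp_le_exp.2 (by linarith)
    _ = _ := by rw [sub_eq_add_neg, Real.exp_add, Real.exp_log hG2]

lemma poly_exp' (a : ℕ) (B c : ℝ) (hB : 0 ≤ B) (hc : 0 < c) : ∃ B' : ℝ, ∀ t : ℝ, 0 ≤ t →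
    B * (1 + t) ^ a ≤ B' * Real.exp (c * t) := by
  refine ⟨B * (a.factorial / c ^ a * Real.exp c), fun t ht => ?_⟩
  have h1 := Real.pow_div_factorial_le_exp (c * (1 + t)) (by positivity) a
  have hf : (0 : ℝ) < a.factorial := by exact_mod_cast a.factorial_pos
  rw [div_le_iff₀ hf, mul_pow] at h1
  have h2 : (1 + t) ^ a ≤ a.factorial / c ^ a * Real.exp (c * (1 + t)) := by
    rw [div_mul_eq_mul_div, le_div_iff₀ (by positivity)]
    linarith
  have h3 : Real.exp (c * (1 + t)) = Real.exp c * Real.exp (c * t) := by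
    rw [← Real.exp_add]; congr 1; ring
  rw [h3] at h2
  calc B * (1 + t) ^ a ≤ B * (a.factorial / c ^ a * (Real.exp c * Real.exp (c * t))) := by gcongr
    _ = _ := by ring

/-- derivative of the logarithm of the norm -/
lemma hasDerivAt_log_norm {f : ℝ → ℂ} {f' : ℂ} {t : ℝ} (h : HasDerivAt f f' t) (h0 : f t ≠ 0) :
    HasDerivAt (fun s => Real.log ‖f s‖) ((f' / f t).re) t := by
  have h1 := h.norm_sq
  have h2 : ‖f t‖ ^ 2 ≠ 0 := by
    have := norm_pos_iff.2 h0
    positivity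
  have h3 := (h1.log h2).const_mul (1 / 2 : ℝ)
  have e : (fun s => Real.log ‖f s‖) = fun s => (1 / 2 : ℝ) * Real.log (‖f s‖ ^ 2) := by
    funext s
    rw [Real.log_pow]
    push_cast
    ring
  rw [e]
  refine h3.congr_deriv ?_
  rw [Complex.div_re, ← Complex.normSq_eq_norm_sq] at *
  simp only [Complex.inner, Complex.mul_re, Complex.conj_re, Complex.conj_im]
  field_simp
  ring

namespace Cl

variable {b C n : ℝ} {Lq : ℝ → ℝ} {f : ℂ → ℂ} (h : Cl b C n Lq f)
include h

lemma anal (z : ℂ) : AnalyticAt ℂ f z := h.diff.analyticAt z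

lemma ld_anal {z : ℂ} (hz : b ≤ z.re) : AnalyticAt ℂ (logDeriv f) z :=
  (h.anal z).deriv.div (h.anal z) (h.ne z hz)

lemma ld {R0 : ℝ} (hR : b ≤ R0) : LD f (logDeriv f) R0 (C * n) := by
  have h1 := h.hb
  have h2 := h.hC
  have h3 := h.hn
  refine ⟨by linarith, by positivity, ?_, ?_, ?_⟩
  · intro s hs
    have e : logDeriv f s * f s = deriv f s := by
      rw [logDeriv_apply, div_mul_cancel₀ _ (h.ne s (hR.trans hs))]
    rw [e]
    exact (h.diff s).hasDerivAt
  · intro s hs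
    exact h.ne s (hR.trans hs)
  · intro s hs
    exact ⟨_, (h.ld_anal (hR.trans hs)).differentiableAt.hasDerivAt, h.der s (hR.trans hs)⟩

lemma norm_refl (x y : ℝ) : ‖f (-x + y * I)‖ = ‖f (x + y * I)‖ := by
  obtain ⟨ε, h1, h2⟩ := h.fe
  have e : (-x + y * I : ℂ) = -(conj (x + y * I : ℂ)) := by
    rw [map_add, map_mul, Complex.conj_ofReal, Complex.conj_ofReal, Complex.conj_I]; ring
  rw [e, h2, norm_mul, h1, one_mul, Complex.norm_conj]

lemma norm_abs (x y : ℝ) : ‖f (x + y * I)‖ = ‖f ((|x| : ℝ) + y * I)‖ := by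
  rcases le_total 0 x with h0 | h0
  · rw [abs_of_nonneg h0]
  · rw [abs_of_nonpos h0, ← h.norm_refl (-x) y]
    congr 2
    push_cast
    ring

lemma hasDeriv_line {x : ℝ} (hx : b ≤ x) (y : ℝ) :
    HasDerivAt (fun s : ℝ => Real.log ‖f (x + s * I)‖) (-(logDeriv f (x + y * I)).im) y := by
  have h1 : HasDerivAt (fun s : ℝ => f (x + s * I)) (deriv f (x + y * I) * I) y := by
    have h2 : HasDerivAt (fun s : ℝ => (x + s * I : ℂ)) I y := by
      have := ((Complex.ofRealCLM.hasDerivAt (x := y)).mul_const I).const_add (x : ℂ)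
      simpa using this
    exact (h.diff (x + y * I)).hasDerivAt.comp y h2
  have h3 := hasDerivAt_log_norm h1 (h.ne _ (by simpa using hx))
  refine h3.congr_deriv ?_
  rw [logDeriv_apply, show deriv f (x + y * I) * I / f (x + y * I) =
    deriv f (x + y * I) / f (x + y * I) * I by ring]
  simp

/-- Lipschitz bound of `log ‖f‖` along vertical lines -/
lemma line {x : ℝ} (hx : b ≤ x) (y y0 : ℝ) :
    ‖f (x + y * I)‖ ≤ ‖f (x + y0 * I)‖ * Real.exp (C * n * |y - y0|) := by
  have h1 := Convex.norm_image_sub_le_of_norm_hasDerivWithin_le (s := Set.univ)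
    (f := fun s : ℝ => Real.log ‖f (x + s * I)‖) (f' := fun s => -(logDeriv f (x + s * I)).im)
    (C := C * n) (x := y0) (y := y) (fun s _ => (h.hasDeriv_line hx s).hasDerivWithinAt)
    (fun s _ => by
      rw [Real.norm_eq_abs, abs_neg]
      exact h.im _ (by simpa using hx)) convex_univ (mem_univ _) (mem_univ _)
  rw [Real.norm_eq_abs, Real.norm_eq_abs] at h1
  have h2 := (abs_le.1 h1).2
  have p1 : 0 < ‖f (x + y * I)‖ := norm_pos_iff.2 (h.ne _ (by simpa using hx))
  have p2 : 0 < ‖f (x + y0 * I)‖ := norm_pos_iff.2 (h.ne _ (by simpa using hx))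
  calc ‖f (x + y * I)‖ = Real.exp (Real.log ‖f (x + y * I)‖) := (Real.exp_log p1).symm
    _ ≤ Real.exp (Real.log ‖f (x + y0 * I)‖ + C * n * |y - y0|) := by
        refine Real.exp_le_exp.2 ?_
        linarith
    _ = _ := by rw [Real.exp_add, Real.exp_log p2]

/-- the convexity bound in the strip -/
lemma strip {z : ℂ} (hz : |z.re| ≤ b) :
    ‖f z‖ ≤ Real.exp (n * (C ^ 2 / 4 + b ^ 2)) * ‖f (b + z.im * I)‖ := by
  have hb := h.hb
  have hb0 : 0 < b := by linarith
  have hn0 : 0 < n := by linarith [h.hn]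
  obtain ⟨a, B, hB⟩ := h.fin
  set y0 := z.im with hy0
  set G : ℂ → ℂ := fun w => f w * cexp (((n : ℝ) : ℂ) * (w - y0 * I) ^ 2) with hG
  have hGd : Differentiable ℂ G := h.diff.mul (by fun_prop)
  have hnG : ∀ w : ℂ, ‖G w‖ = ‖f w‖ * Real.exp (n * (w.re ^ 2 - (w.im - y0) ^ 2)) := by
    intro w
    rw [hG]
    simp only
    rw [norm_mul, Complex.norm_exp]
    congr 2
    rw [Complex.re_ofReal_mul]
    simp [sq]
  have hedge : ∀ w : ℂ, |w.re| = b →
      ‖G w‖ ≤ Real.exp (n * (C ^ 2 / 4 + b ^ 2)) * ‖f (b + y0 * I)‖ := by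
    intro w hw
    have e1 : ‖f w‖ = ‖f (b + w.im * I)‖ := by
      conv_lhs => rw [← Complex.re_add_im w]
      rw [h.norm_abs, hw]
    rw [hnG, e1]
    have e2 : w.re ^ 2 = b ^ 2 := by rw [← hw, sq_abs]
    rw [e2]
    calc ‖f (b + w.im * I)‖ * Real.exp (n * (b ^ 2 - (w.im - y0) ^ 2))
        ≤ ‖f (b + y0 * I)‖ * Real.exp (C * n * |w.im - y0|) *
          Real.exp (n * (b ^ 2 - (w.im - y0) ^ 2)) := by
          gcongr
          exact h.line le_rfl _ _
      _ = ‖f (b + y0 * I)‖ * Real.exp (n * (C * |w.im - y0| + (b ^ 2 - (w.im - y0) ^ 2))) := by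
          rw [mul_assoc, ← Real.exp_add]
          congr 2
          ring
      _ ≤ ‖f (b + y0 * I)‖ * Real.exp (n * (C ^ 2 / 4 + b ^ 2)) := by
          refine mul_le_mul_of_nonneg_left (Real.exp_le_exp.2 ?_) (norm_nonneg _)
          refine mul_le_mul_of_nonneg_left ?_ hn0.le
          have := sq_nonneg (|w.im - y0| - C / 2)
          have e3 := sq_abs (w.im - y0)
          nlinarith
      _ = _ := by ring
  have hcl : closure (re ⁻¹' Set.Ioo (-b) b) = re ⁻¹' Set.Icc (-b) b := by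
    rw [Complex.closure_preimage_re, closure_Ioo (by linarith : -b ≠ b)]
  have key : ‖G z‖ ≤ Real.exp (n * (C ^ 2 / 4 + b ^ 2)) * ‖f (b + y0 * I)‖ := by
    refine PhragmenLindelof.vertical_strip (a := -b) (b := b) hGd.diffContOnCl ?_ ?_ ?_
      (abs_le.1 hz).1 (abs_le.1 hz).2
    · have hc : 0 < Real.pi / (b - -b) := div_pos Real.pi_pos (by linarith)
      obtain ⟨B', hB'⟩ := poly_exp' a (max B 0) (Real.pi / (b - -b) / 2) (le_max_right _ _)
        (by linarith)
      refine ⟨Real.pi / (b - -b) / 2, by linarith, B', ?_⟩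
      refine IsBigO.of_bound (Real.exp (n * b ^ 2)) ?_
      have hf2 : (re ⁻¹' Set.Ioo (-b) b) ∈ 𝓟 (re ⁻¹' Set.Ioo (-b) b) := mem_principal_self _
      filter_upwards [mem_inf_of_right hf2] with w hw
      have hw3 : -b < w.re ∧ w.re < b := hw
      rw [Real.norm_of_nonneg (Real.exp_pos _).le, hnG]
      have h5 := hB w (abs_le.2 ⟨hw3.1.le, hw3.2.le⟩)
      have h6 : ‖f w‖ ≤ Real.exp (B' * Real.exp (Real.pi / (b - -b) / 2 * |w.im|)) := by
        refine h5.trans (Real.exp_le_exp.2 (le_trans ?_ (hB' _ (abs_nonneg _))))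
        gcongr
        exact le_max_left _ _
      have h7 : Real.exp (n * (w.re ^ 2 - (w.im - y0) ^ 2)) ≤ Real.exp (n * b ^ 2) := by
        refine Real.exp_le_exp.2 (mul_le_mul_of_nonneg_left ?_ hn0.le)
        have : w.re ^ 2 ≤ b ^ 2 := sq_le_sq' hw3.1.le hw3.2.le
        nlinarith [sq_nonneg (w.im - y0)]
      rw [mul_comm]
      exact mul_le_mul h7 h6 (norm_nonneg _) (Real.exp_pos _).le
    · intro w hw
      exact hedge w (by rw [hw, abs_neg, abs_of_pos hb0])
    · intro w hw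
      exact hedge w (by rw [hw, abs_of_pos hb0])
  refine le_trans ?_ key
  rw [hnG]
  have : (1 : ℝ) ≤ Real.exp (n * (z.re ^ 2 - (z.im - y0) ^ 2)) := by
    rw [hy0, sub_self]
    refine Real.one_le_exp ?_
    have := sq_nonneg z.re
    nlinarith
  exact le_mul_of_one_le_right (norm_nonneg _) this

/-- the real part of the logarithmic derivative on horizontal lines -/
lemma re_low {x y : ℝ} (hx : b ≤ x) : n / 4 * Real.log x - C * n ≤ (logDeriv f (x + y * I)).re := by
  have h1 := h.low (x + y * I) y (by simpa using hx) (by simp; linarith [h.hb])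
  have e : ((x : ℂ) + y * I).re = x := by simp
  rw [e] at h1
  linarith [h.hL y]

/-- the global bound -/
lemma glob {R0 : ℝ} (hR : Real.exp (4 * (2 * C + C ^ 2 / 4 + b ^ 2)) ≤ R0) (x y : ℝ) :
    ‖f (x + y * I)‖ ≤ ‖f ((|x| + 2 * R0 : ℝ) + y * I)‖ := by
  have hb := h.hb
  have hC := h.hC
  have hn := h.hn
  have hb0 : 0 < b := by linarith
  have hR1 : 1 ≤ R0 := by
    refine le_trans ?_ hR
    exact Real.one_le_exp (by positivity)
  have hRb : b ≤ R0 := by
    refine le_trans ?_ hR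
    have := Real.add_one_le_exp (4 * (2 * C + C ^ 2 / 4 + b ^ 2))
    nlinarith [sq_nonneg C]
  have hlog : 4 * (2 * C + C ^ 2 / 4 + b ^ 2) ≤ Real.log R0 :=
    (Real.le_log_iff_exp_le (by linarith)).2 hR
  -- shift by `2 R0`
  have key : ∀ u : ℝ, b ≤ u → ‖f (u + y * I)‖ ≤
      ‖f ((u + 2 * R0 : ℝ) + y * I)‖ * Real.exp (-(n * (C ^ 2 / 4 + b ^ 2))) := by
    intro u hu
    have s1 := (h.ld le_rfl).mono_re y (x := u) (X := u + R0) (κ := -(C * n)) hu (by linarith) (by
      intro r hr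
      have := h.re_low (y := y) (hu.trans hr)
      have h5 : 0 ≤ Real.log r := Real.log_nonneg (by linarith)
      have : 0 ≤ n / 4 * Real.log r := by positivity
      linarith)
    have s2 := (h.ld le_rfl).mono_re y (x := u + R0) (X := u + 2 * R0)
      (κ := n * (C + C ^ 2 / 4 + b ^ 2)) (by linarith) (by linarith) (by
      intro r hr
      have h4 := h.re_low (y := y) (x := r) (by linarith)
      have h5 : 4 * (2 * C + C ^ 2 / 4 + b ^ 2) ≤ Real.log r :=
        hlog.trans (Real.log_le_log (by linarith) (by linarith))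
      have h6 : n / 4 * (4 * (2 * C + C ^ 2 / 4 + b ^ 2)) ≤ n / 4 * Real.log r :=
        mul_le_mul_of_nonneg_left h5 (by linarith)
      nlinarith)
    calc ‖f (u + y * I)‖ ≤ ‖f ((u + R0 : ℝ) + y * I)‖ * Real.exp (-(-(C * n) * (u + R0 - u))) := s1
      _ ≤ (‖f ((u + 2 * R0 : ℝ) + y * I)‖ *
          Real.exp (-(n * (C + C ^ 2 / 4 + b ^ 2) * (u + 2 * R0 - (u + R0))))) *
          Real.exp (-(-(C * n) * (u + R0 - u))) := by gcongr
      _ = ‖f ((u + 2 * R0 : ℝ) + y * I)‖ * Real.exp (-(n * (C ^ 2 / 4 + b ^ 2) * R0)) := by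
          rw [mul_assoc, ← Real.exp_add]
          congr 2
          ring
      _ ≤ _ := by
          refine mul_le_mul_of_nonneg_left (Real.exp_le_exp.2 ?_) (norm_nonneg _)
          have : 0 ≤ n * (C ^ 2 / 4 + b ^ 2) := by positivity
          nlinarith
  have hexp1 : Real.exp (-(n * (C ^ 2 / 4 + b ^ 2))) ≤ 1 := by
    rw [Real.exp_le_one_iff]
    have : 0 ≤ n * (C ^ 2 / 4 + b ^ 2) := by positivity
    linarith
  rw [h.norm_abs]
  rcases le_total |x| b with h1 | h1
  · -- in the strip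
    have h2 := h.strip (z := (|x| : ℝ) + y * I) (by simpa using h1)
    have e : (((|x| : ℝ) : ℂ) + y * I).im = y := by simp
    rw [e] at h2
    have h3 := key b le_rfl
    have h4 : ‖f (b + y * I)‖ ≤ ‖f ((|x| + 2 * R0 : ℝ) + y * I)‖ *
        Real.exp (-(n * (C ^ 2 / 4 + b ^ 2))) := by
      -- move from `b` to `|x| + 2 R0` directly
      have s1 := (h.ld le_rfl).mono_re y (x := b) (X := |x| + R0) (κ := -(C * n)) le_rfl
        (by linarith [abs_nonneg x]) (by
        intro r hr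
        have := h.re_low (y := y) (hr)
        have h5 : 0 ≤ Real.log r := Real.log_nonneg (by linarith)
        have : 0 ≤ n / 4 * Real.log r := by positivity
        linarith)
      have s2 := (h.ld le_rfl).mono_re y (x := |x| + R0) (X := |x| + 2 * R0)
        (κ := n * (C + C ^ 2 / 4 + b ^ 2)) (by linarith [abs_nonneg x]) (by linarith) (by
        intro r hr
        have h4 := h.re_low (y := y) (x := r) (by linarith [abs_nonneg x])
        have h5 : 4 * (2 * C + C ^ 2 / 4 + b ^ 2) ≤ Real.log r :=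
          hlog.trans (Real.log_le_log (by linarith) (by linarith [abs_nonneg x]))
        have h6 : n / 4 * (4 * (2 * C + C ^ 2 / 4 + b ^ 2)) ≤ n / 4 * Real.log r :=
          mul_le_mul_of_nonneg_left h5 (by linarith)
        nlinarith)
      calc ‖f (b + y * I)‖ ≤ ‖f ((|x| + R0 : ℝ) + y * I)‖ * Real.exp (-(-(C * n) * (|x| + R0 - b))) := s1
        _ ≤ (‖f ((|x| + 2 * R0 : ℝ) + y * I)‖ *
            Real.exp (-(n * (C + C ^ 2 / 4 + b ^ 2) * (|x| + 2 * R0 - (|x| + R0))))) *
            Real.exp (-(-(C * n) * (|x| + R0 - b))) := by gcongr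
        _ = ‖f ((|x| + 2 * R0 : ℝ) + y * I)‖ * Real.exp (-(n * (C ^ 2 / 4 + b ^ 2) * R0) +
            C * n * (|x| - b)) := by
            rw [mul_assoc, ← Real.exp_add]
            congr 2
            ring
        _ ≤ _ := by
            refine mul_le_mul_of_nonneg_left (Real.exp_le_exp.2 ?_) (norm_nonneg _)
            have h7 : 0 ≤ n * (C ^ 2 / 4 + b ^ 2) := by positivity
            have h8 : C * n * (|x| - b) ≤ 0 :=
              mul_nonpos_of_nonneg_of_nonpos (by positivity) (by linarith)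
            nlinarith
    calc ‖f ((|x| : ℝ) + y * I)‖ ≤ Real.exp (n * (C ^ 2 / 4 + b ^ 2)) * ‖f (b + y * I)‖ := h2
      _ ≤ Real.exp (n * (C ^ 2 / 4 + b ^ 2)) * (‖f ((|x| + 2 * R0 : ℝ) + y * I)‖ *
        Real.exp (-(n * (C ^ 2 / 4 + b ^ 2)))) := by gcongr
      _ = ‖f ((|x| + 2 * R0 : ℝ) + y * I)‖ * (Real.exp (n * (C ^ 2 / 4 + b ^ 2)) *
        Real.exp (-(n * (C ^ 2 / 4 + b ^ 2)))) := by ring
      _ = _ := by rw [← Real.exp_add, add_neg_cancel, Real.exp_zero, mul_one]
  · refine (key _ h1).trans ?_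
    exact mul_le_of_le_one_right (norm_nonneg _) hexp1

end Cl

end Pool.Agent.Helper40.HF
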