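import Pool.Agent.Helper40.HF.G

set_option autoImplicit false
set_option maxHeartbeats 1000000

/-!
# Growth, shift of the contour
-/

open Complex Filter Topology Set MeasureTheory Asymptotics
open scoped ComplexConjugate

namespace Pool.Agent.Helper40.HF

/-- shift of the line of integration -/
lemma contour {g : ℂ → ℂ} (hg : Differentiable ℂ g) {A a : ℝ} (ha : 0 < a) {η : ℝ}
    (hb : ∀ x y : ℝ, |y| ≤ |η| → ‖g (x + y * I)‖ ≤ A * Real.exp (-a * x ^ 2)) :
    Integrable (fun x : ℝ => g (x + η * I)) ∧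
    ∫ x : ℝ, g x = ∫ x : ℝ, g (x + η * I) := by
  have hint : ∀ y : ℝ, |y| ≤ |η| → Integrable (fun x : ℝ => g (x + y * I)) := by
    intro y hy
    refine Integrable.mono' ((integrable_exp_neg_mul_sq ha).const_mul A) ?_
      (Eventually.of_forall fun x => hb x y hy)
    exact (hg.continuous.comp (by fun_prop)).aestronglyMeasurable
  have i0 : Integrable (fun x : ℝ => g x) := by
    have := hint 0 (by simp)
    simpa using this
  have i1 := hint η le_rfl
  refine ⟨i1, ?_⟩
  have hA : 0 ≤ A := by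
    have := (norm_nonneg _).trans (hb 0 0 (by simp))
    simpa using this
  have t0 : Tendsto (fun T : ℝ => ∫ x in (-T)..T, g x) atTop (𝓝 (∫ x : ℝ, g x)) :=
    intervalIntegral_tendsto_integral i0 tendsto_neg_atTop_atBot tendsto_id
  have t1 : Tendsto (fun T : ℝ => ∫ x in (-T)..T, g (x + η * I)) atTop
      (𝓝 (∫ x : ℝ, g (x + η * I))) :=
    intervalIntegral_tendsto_integral i1 tendsto_neg_atTop_atBot tendsto_id
  have hv : ∀ s : ℝ, |s| = 1 →
      Tendsto (fun T : ℝ => ∫ y in (0 : ℝ)..η, g ((s * T : ℝ) + y * I)) atTop (𝓝 0) := by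
    intro s hs
    have hb2 : ∀ T : ℝ, ‖∫ y in (0 : ℝ)..η, g ((s * T : ℝ) + y * I)‖ ≤
        A * Real.exp (-a * T ^ 2) * |η - 0| := by
      intro T
      refine intervalIntegral.norm_integral_le_of_norm_le_const fun y hy => ?_
      have hy2 : |y| ≤ |η| := by
        rcases le_total 0 η with h | h
        · rw [uIoc_of_le h] at hy
          rw [abs_of_pos hy.1, abs_of_nonneg h]
          exact hy.2
        · rw [uIoc_of_ge h] at hy
          rw [abs_of_nonpos hy.2, abs_of_nonpos h]
          linarith [hy.1]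
      refine (hb _ y hy2).trans (le_of_eq ?_)
      congr 3
      rw [mul_pow, ← sq_abs s, hs, one_pow, one_mul]
    refine squeeze_zero_norm hb2 ?_
    have e1 : Tendsto (fun T : ℝ => Real.exp (-a * T ^ 2)) atTop (𝓝 0) := by
      refine Real.tendsto_exp_atBot.comp ?_
      have : Tendsto (fun T : ℝ => a * T ^ 2) atTop atTop :=
        (tendsto_pow_atTop (by norm_num)).const_mul_atTop ha
      have h2 := tendsto_neg_atTop_atBot.comp this
      refine h2.congr fun T => ?_
      simp only [Function.comp]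
      ring
    have := (e1.const_mul A).mul_const |η - 0|
    simpa using this
  have key : ∀ T : ℝ, (∫ x in (-T)..T, g x) = (∫ x in (-T)..T, g (x + η * I)) -
      I * (∫ y in (0 : ℝ)..η, g ((1 * T : ℝ) + y * I)) +
      I * ∫ y in (0 : ℝ)..η, g (((-1) * T : ℝ) + y * I) := by
    intro T
    have h := Complex.integral_boundary_rect_eq_zero_of_differentiableOn g (((-T : ℝ) : ℂ))
      ((T : ℂ) + η * I) hg.differentiableOn
    simp only [ofReal_re, ofReal_im, add_re, add_im, mul_re, mul_im, I_re, I_im, mul_zero, mul_one,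
      zero_mul, sub_zero, add_zero, zero_add, ofReal_zero, smul_eq_mul] at h
    rw [one_mul, neg_one_mul]
    linear_combination h
  have t2 := (t1.sub ((hv 1 (by simp)).const_mul I)).add ((hv (-1) (by simp)).const_mul I)
  rw [mul_zero, sub_zero, add_zero] at t2
  refine tendsto_nhds_unique t0 (t2.congr fun T => ?_)
  exact (key T).symm

/-- the heat flow -/
noncomputable def H (f : ℂ → ℂ) (t : ℝ) (w : ℂ) : ℂ := ∫ x : ℝ, f (w + x) * gs t x

/-- the half line integral -/
noncomputable def E (f : ℂ → ℂ) (t y η a : ℝ) : ℂ :=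
  ∫ x in Ioi (0 : ℝ), f ((a + x : ℝ) + y * I) * gs t (x + η * I)

/-- Gaussian growth on horizontal strips -/
def Gr (f : ℂ → ℂ) : Prop := ∀ a : ℝ, 0 < a → ∀ Y : ℝ, ∃ A : ℝ, 0 ≤ A ∧ ∀ x y : ℝ, |y| ≤ Y →
  ‖f (x + y * I)‖ ≤ A * Real.exp (a * x ^ 2)

lemma Cl.growth {b C n : ℝ} {Lq : ℝ → ℝ} {f : ℂ → ℂ} (h : Cl b C n Lq f) : Gr f := by
  intro a ha Y
  have hb := h.hb
  have hC := h.hC
  have hn := h.hn
  set d : ℝ := C * n with hd
  have hd0 : 0 ≤ d := by positivity
  set m : ℝ := max b (2 * d / a) with hm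
  have hmb : b ≤ m := le_max_left _ _
  have hm0 : 0 < m := by linarith
  have hma : d / m ≤ a / 2 := by
    have h1 : 2 * d / a ≤ m := le_max_right _ _
    rw [div_le_iff₀ ha] at h1
    rw [div_le_div_iff₀ hm0 (by norm_num)]
    linarith
  -- compact bounds
  have hc1 : ContinuousOn (fun y : ℝ => logDeriv f (m + y * I)) (Icc (-Y) Y) := by
    intro y _
    have h1 : ContinuousAt (logDeriv f) (m + y * I) :=
      (h.ld_anal (by simpa using hmb)).continuousAt
    have h2 : ContinuousAt (fun y : ℝ => (m : ℂ) + y * I) y := by fun_prop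
    exact (ContinuousAt.comp (f := fun y : ℝ => (m : ℂ) + y * I) h1 h2).continuousWithinAt
  obtain ⟨M2, hM2⟩ := isCompact_Icc.exists_bound_of_continuousOn hc1
  have hc2 : ContinuousOn (fun p : ℝ × ℝ => f (p.1 + p.2 * I)) (Icc (-m) m ×ˢ Icc (-Y) Y) :=
    (h.diff.continuous.comp (by fun_prop)).continuousOn
  obtain ⟨M1, hM1⟩ := (isCompact_Icc.prod isCompact_Icc).exists_bound_of_continuousOn hc2
  set M : ℝ := max M1 0 with hM
  set N : ℝ := max M2 0 with hN
  have hM0 : 0 ≤ M := le_max_right _ _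
  have hN0 : 0 ≤ N := le_max_right _ _
  have hbd : ∀ x y : ℝ, |x| ≤ m → |y| ≤ Y → ‖f (x + y * I)‖ ≤ M := by
    intro x y hx hy
    exact (hM1 (x, y) ⟨abs_le.1 hx, abs_le.1 hy⟩).trans (le_max_left _ _)
  have hE1 : 1 ≤ Real.exp (N ^ 2 / (2 * a)) := Real.one_le_exp (by positivity)
  refine ⟨M * Real.exp (N ^ 2 / (2 * a)), by positivity, fun x y hy => ?_⟩
  rw [h.norm_abs]
  have hsq : x ^ 2 = |x| ^ 2 := (sq_abs x).symm
  rw [hsq]
  have hax := abs_nonneg x
  rcases le_total |x| m with h1 | h1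
  · have h2 := hbd |x| y (by rwa [abs_abs]) hy
    have h3 : 1 ≤ Real.exp (a * |x| ^ 2) := Real.one_le_exp (by positivity)
    calc _ ≤ M := h2
      _ = M * 1 * 1 := by ring
      _ ≤ _ := by gcongr
  · have h2 := (h.ld le_rfl).seg_norm hmb (p := m + y * I) (q := (|x| : ℝ) + y * I)
      (by simp) (by simpa using h1)
    have e1 : (((|x| : ℝ) : ℂ) + y * I - (m + y * I)) = ((|x| - m : ℝ) : ℂ) := by push_cast; ring
    rw [e1, Complex.norm_real, Real.norm_of_nonneg (by linarith), Complex.re_mul_ofReal] at h2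
    have h3 := hbd m y (by rw [abs_of_pos hm0]) hy
    have h4 : (logDeriv f (m + y * I)).re ≤ N :=
      (Complex.re_le_norm _).trans ((hM2 y (abs_le.1 hy)).trans (le_max_left _ _))
    have h5 : d / m * (|x| - m) ^ 2 ≤ a / 2 * |x| ^ 2 := by
      have : (|x| - m) ^ 2 ≤ |x| ^ 2 := by
        apply sq_le_sq'
        · linarith
        · linarith
      exact mul_le_mul hma this (sq_nonneg _) (by linarith)
    have h6 : (logDeriv f (m + y * I)).re * (|x| - m) ≤ a / 2 * |x| ^ 2 + N ^ 2 / (2 * a) := by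
      calc (logDeriv f (m + y * I)).re * (|x| - m) ≤ N * (|x| - m) :=
            mul_le_mul_of_nonneg_right h4 (by linarith)
        _ ≤ N * |x| := by nlinarith
        _ ≤ _ := by
          have h7 := sq_nonneg (a * |x| - N)
          have h8 : a / 2 * |x| ^ 2 + N ^ 2 / (2 * a) - N * |x| = (a * |x| - N) ^ 2 / (2 * a) := by
            field_simp
            ring
          have h9 : 0 ≤ (a * |x| - N) ^ 2 / (2 * a) := by positivity
          linarith
    calc _ ≤ _ := h2
      _ ≤ Real.exp (a / 2 * |x| ^ 2) * M * Real.exp (a / 2 * |x| ^ 2 + N ^ 2 / (2 * a)) := by gcongr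
      _ = M * (Real.exp (a / 2 * |x| ^ 2) * Real.exp (a / 2 * |x| ^ 2 + N ^ 2 / (2 * a))) := by ring
      _ = M * (Real.exp (N ^ 2 / (2 * a)) * Real.exp (a * |x| ^ 2)) := by
          rw [← Real.exp_add, ← Real.exp_add]
          congr 2
          ring
      _ = _ := by ring

section flow

variable {f : ℂ → ℂ} (hf : Differentiable ℂ f) (hG : Gr f) {t : ℝ} (ht : 0 < t)
include hf hG ht

/-- the bound of the integrand -/
lemma ig_bound (w : ℂ) (Y : ℝ) : ∃ A : ℝ, ∀ x y : ℝ, |y| ≤ Y →
    ‖f (w + (x + y * I)) * gs t (x + y * I)‖ ≤ A * Real.exp (-(1 / (8 * t)) * x ^ 2) := by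
  obtain ⟨A, hA0, hA⟩ := hG (1 / (16 * t)) (by positivity) (|w.im| + Y)
  refine ⟨A * Real.exp (w.re ^ 2 / (8 * t)) * Real.exp (Y ^ 2 / (4 * t)), fun x y hy => ?_⟩
  have hY : 0 ≤ Y := (abs_nonneg y).trans hy
  have e1 : w + (x + y * I) = ((w.re + x : ℝ) : ℂ) + ((w.im + y : ℝ) : ℂ) * I := by
    conv_lhs => rw [← Complex.re_add_im w]
    push_cast
    ring
  have h1 := hA (w.re + x) (w.im + y) ((abs_add_le _ _).trans (by linarith))
  rw [norm_mul, e1, norm_gs]
  have h2 : 1 / (16 * t) * (w.re + x) ^ 2 ≤ w.re ^ 2 / (8 * t) + x ^ 2 / (8 * t) := by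
    have e2 : w.re ^ 2 / (8 * t) + x ^ 2 / (8 * t) - 1 / (16 * t) * (w.re + x) ^ 2 =
        (w.re - x) ^ 2 / (16 * t) := by
      field_simp
      ring
    have : 0 ≤ (w.re - x) ^ 2 / (16 * t) := by positivity
    linarith
  have h3 : -(x ^ 2 - y ^ 2) / (4 * t) ≤ Y ^ 2 / (4 * t) - x ^ 2 / (4 * t) := by
    rw [← sub_div]
    refine div_le_div_of_nonneg_right ?_ (by positivity)
    have : y ^ 2 ≤ Y ^ 2 := by rw [← sq_abs y]; exact pow_le_pow_left₀ (abs_nonneg _) hy 2
    linarith
  calc ‖f (((w.re + x : ℝ) : ℂ) + ((w.im + y : ℝ) : ℂ) * I)‖ * Real.exp (-(x ^ 2 - y ^ 2) / (4 * t)) ≤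
      (A * Real.exp (w.re ^ 2 / (8 * t) + x ^ 2 / (8 * t))) *
        Real.exp (Y ^ 2 / (4 * t) - x ^ 2 / (4 * t)) := by
        refine mul_le_mul (h1.trans ?_) (Real.exp_le_exp.2 h3) (Real.exp_pos _).le (by positivity)
        gcongr
    _ = _ := by
      rw [mul_assoc, mul_assoc, mul_assoc, ← Real.exp_add, ← Real.exp_add, ← Real.exp_add]
      congr 2
      field_simp
      ring

/-- the flow on a shifted line -/
lemma H_shift (w : ℂ) (η : ℝ) :
    Integrable (fun x : ℝ => f (w + (x + η * I)) * gs t (x + η * I)) ∧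
    H f t w = ∫ x : ℝ, f (w + (x + η * I)) * gs t (x + η * I) := by
  obtain ⟨A, hA⟩ := ig_bound hf hG ht w |η|
  have hg : Differentiable ℂ (fun z : ℂ => f (w + z) * gs t z) := by
    refine (hf.comp (by fun_prop)).mul ?_
    unfold gs
    fun_prop
  have := contour hg (a := 1 / (8 * t)) (by positivity) (η := η) (A := A) (by
    intro x y hy
    exact hA x y hy)
  exact this

/-- the two halves -/
lemma H_split {ε : ℂ} (hfe : ∀ z, f (-conj z) = ε * conj (f z)) (u v η : ℝ) :
    H f t (u + v * I) = E f t (v + η) η u + ε * conj (E f t (v + η) η (-u)) := by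
  obtain ⟨h1, h2⟩ := H_shift hf hG ht (u + v * I) η
  rw [h2, ← intervalIntegral.integral_Iic_add_Ioi (b := 0) h1.integrableOn h1.integrableOn, add_comm]
  congr 1
  · unfold E
    congr 1
    funext x
    congr 2
    push_cast
    ring
  · have e1 := integral_comp_neg_Ioi (0 : ℝ) (fun x : ℝ => f (u + v * I + (x + η * I)) * gs t (x + η * I))
    rw [neg_zero] at e1
    unfold E
    rw [← e1, ← integral_conj, ← integral_const_mul]
    congr 1
    funext x
    have e2 : ((u : ℂ) + v * I + (((-x : ℝ) : ℂ) + η * I)) =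
        -(conj (((-u + x : ℝ) : ℂ) + ((v + η : ℝ) : ℂ) * I)) := by
      rw [map_add, map_mul, Complex.conj_ofReal, Complex.conj_ofReal, Complex.conj_I]
      push_cast
      ring
    have e3 : gs t (((-x : ℝ) : ℂ) + η * I) = conj (gs t (x + η * I)) := by
      unfold gs
      rw [← Complex.exp_conj]
      congr 1
      rw [map_div₀, map_neg, map_pow, map_add, map_mul, map_mul, Complex.conj_ofReal,
        Complex.conj_ofReal, Complex.conj_I, Complex.conj_ofReal]
      have e4 : conj (4 : ℂ) = 4 := by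
        have := Complex.conj_ofReal 4
        push_cast at this
        exact this
      rw [e4]
      push_cast
      ring
    rw [e2, hfe, e3, map_mul]
    ring

/-- the symmetry of the flow -/
lemma H_fe {ε : ℂ} (hfe : ∀ z, f (-conj z) = ε * conj (f z)) (w : ℂ) :
    H f t (-conj w) = ε * conj (H f t w) := by
  unfold H
  rw [← integral_conj, ← integral_const_mul, ← integral_neg_eq_self]
  congr 1
  funext x
  have e2 : (-conj w + ((-x : ℝ) : ℂ)) = -(conj (w + x)) := by
    rw [map_add, Complex.conj_ofReal]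
    push_cast
    ring
  have e3 : gs t ((-x : ℝ) : ℂ) = conj (gs t x) := by
    unfold gs
    rw [← Complex.exp_conj]
    congr 1
    rw [map_div₀, map_neg, map_pow, Complex.conj_ofReal, map_mul, Complex.conj_ofReal]
    have e4 : conj (4 : ℂ) = 4 := by
      have := Complex.conj_ofReal 4
      push_cast at this
      exact this
    rw [e4]
    push_cast
    ring
  rw [e2, hfe, e3, map_mul]
  ring

/-- the flow as a convolution with an entire kernel -/
lemma H_conv (w : ℂ) : H f t w = ∫ x : ℝ, f x * gs t (x - w) := by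
  obtain ⟨h1, h2⟩ := H_shift hf hG ht w (-w.im)
  rw [h2, ← integral_sub_right_eq_self _ w.re]
  congr 1
  funext x
  have e : (((x - w.re : ℝ) : ℂ) + ((-w.im : ℝ) : ℂ) * I) = x - w := by
    conv_rhs => rw [← Complex.re_add_im w]
    push_cast
    ring
  rw [e]
  congr 2
  ring

lemma H_diff : Differentiable ℂ (H f t) := by
  intro w0
  have e : H f t = fun w => ∫ x : ℝ, f x * gs t (x - w) := by
    funext w
    exact H_conv hf hG ht w
  rw [e]
  obtain ⟨A, hA0, hA⟩ := hG (1 / (32 * t)) (by positivity) 0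
  set ρ : ℝ := ‖w0‖ + 1 with hρ
  have hρ0 : 0 ≤ ρ := by positivity
  set Bd : ℝ → ℝ := fun x => A * Real.exp (ρ ^ 2 / (4 * t)) * ((1 + 32 * t + ρ) / (2 * t)) *
    Real.exp (-(1 / (16 * t)) * x ^ 2) with hBd
  have ht' : (t : ℂ) ≠ 0 := by exact_mod_cast ht.ne'
  have hgs : ∀ (w : ℂ) (x : ℝ), HasDerivAt (fun w : ℂ => gs t (x - w))
      (gs t (x - w) * ((x - w) / (2 * t))) w := by
    intro w x
    unfold gs
    have h1 : HasDerivAt (fun w : ℂ => (x : ℂ) - w) (-1) w := by
      simpa using (hasDerivAt_id w).const_sub (x : ℂ)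
    have h2 := ((h1.fun_pow 2).fun_neg.div_const (4 * (t : ℂ))).cexp
    refine h2.congr_deriv ?_
    field_simp
    ring
  have hngs : ∀ (w : ℂ) (x : ℝ), ‖w‖ ≤ ρ → ‖gs t (x - w)‖ ≤
      Real.exp (ρ ^ 2 / (4 * t)) * Real.exp (-(1 / (8 * t)) * x ^ 2) := by
    intro w x hw
    have e1 : (x : ℂ) - w = ((x - w.re : ℝ) : ℂ) + ((-w.im : ℝ) : ℂ) * I := by
      conv_lhs => rw [← Complex.re_add_im w]
      push_cast
      ring
    rw [e1, norm_gs, ← Real.exp_add]
    refine Real.exp_le_exp.2 ?_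
    have h1 : w.re ^ 2 + w.im ^ 2 ≤ ρ ^ 2 := by
      have : ‖w‖ ^ 2 = w.re ^ 2 + w.im ^ 2 := by
        rw [← Complex.normSq_eq_norm_sq, Complex.normSq_apply]; ring
      rw [← this]
      exact pow_le_pow_left₀ (norm_nonneg _) hw 2
    have h2 : ρ ^ 2 / (4 * t) + -(1 / (8 * t)) * x ^ 2 - -((x - w.re) ^ 2 - (-w.im) ^ 2) / (4 * t) =
        (2 * ρ ^ 2 - x ^ 2 + 2 * ((x - w.re) ^ 2 - w.im ^ 2)) / (8 * t) := by
      field_simp
      ring
    have h3 : 0 ≤ (2 * ρ ^ 2 - x ^ 2 + 2 * ((x - w.re) ^ 2 - w.im ^ 2)) / (8 * t) := by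
      refine div_nonneg ?_ (by positivity)
      nlinarith [sq_nonneg (x - 2 * w.re)]
    linarith
  have hfx : ∀ x : ℝ, ‖f x‖ ≤ A * Real.exp (1 / (32 * t) * x ^ 2) := by
    intro x
    have := hA x 0 (by simp)
    simpa using this
  have hlin : ∀ x : ℝ, |x| ≤ (1 + 32 * t) * Real.exp (1 / (32 * t) * x ^ 2) := by
    intro x
    have h1 := Real.add_one_le_exp (1 / (32 * t) * x ^ 2)
    have h2 : x ^ 2 = 32 * t * (1 / (32 * t) * x ^ 2) := by field_simp
    have h3 : |x| ≤ 1 + x ^ 2 := by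
      rw [← sq_abs x]
      nlinarith [sq_nonneg (|x| - 1)]
    have h4 : 0 ≤ 1 / (32 * t) * x ^ 2 := by positivity
    nlinarith
  have hmeas : ∀ w : ℂ, AEStronglyMeasurable (fun x : ℝ => f x * gs t (x - w)) := by
    intro w
    refine Continuous.aestronglyMeasurable ?_
    refine (hf.continuous.comp continuous_ofReal).mul ?_
    unfold gs
    fun_prop
  have key := hasDerivAt_integral_of_dominated_loc_of_deriv_le (μ := volume)
    (F := fun (w : ℂ) (x : ℝ) => f x * gs t (x - w))
    (F' := fun (w : ℂ) (x : ℝ) => f x * (gs t (x - w) * ((x - w) / (2 * t))))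
    (x₀ := w0) (s := Metric.ball w0 1) (bound := Bd) (Metric.ball_mem_nhds w0 one_pos)
    (Eventually.of_forall hmeas) ?_ ?_ ?_ ?_ ?_
  · exact key.2.differentiableAt
  · -- integrability
    refine Integrable.mono' (g := fun x => A * Real.exp (ρ ^ 2 / (4 * t)) *
      Real.exp (-(1 / (16 * t)) * x ^ 2))
      ((integrable_exp_neg_mul_sq (b := 1 / (16 * t)) (by positivity)).const_mul _) (hmeas w0)
      (Eventually.of_forall fun x => ?_)
    rw [norm_mul]
    calc ‖f x‖ * ‖gs t (x - w0)‖ ≤ (A * Real.exp (1 / (32 * t) * x ^ 2)) *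
          (Real.exp (ρ ^ 2 / (4 * t)) * Real.exp (-(1 / (8 * t)) * x ^ 2)) :=
          mul_le_mul (hfx x) (hngs w0 x (by linarith)) (norm_nonneg _) (by positivity)
      _ = A * Real.exp (ρ ^ 2 / (4 * t)) * (Real.exp (1 / (32 * t) * x ^ 2) *
          Real.exp (-(1 / (8 * t)) * x ^ 2)) := by ring
      _ ≤ _ := by
          rw [← Real.exp_add]
          refine mul_le_mul_of_nonneg_left (Real.exp_le_exp.2 ?_) (by positivity)
          have : -(1 / (16 * t)) * x ^ 2 - (1 / (32 * t) * x ^ 2 + -(1 / (8 * t)) * x ^ 2) =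
              x ^ 2 / (32 * t) := by
            field_simp
            ring
          have h2 : 0 ≤ x ^ 2 / (32 * t) := by positivity
          linarith
  · refine Continuous.aestronglyMeasurable ?_
    refine (hf.continuous.comp continuous_ofReal).mul ?_
    unfold gs
    fun_prop
  · refine Eventually.of_forall fun x w hw => ?_
    have hw2 : ‖w‖ ≤ ρ := by
      rw [Metric.mem_ball, dist_eq_norm] at hw
      have := norm_le_norm_add_norm_sub' w w0
      linarith
    rw [norm_mul, norm_mul, norm_div]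
    have e2 : ‖(2 * (t : ℂ))‖ = 2 * t := by
      rw [norm_mul, Complex.norm_real, Real.norm_of_nonneg ht.le]; simp
    rw [e2]
    have h3 : ‖(x : ℂ) - w‖ ≤ (1 + 32 * t + ρ) * Real.exp (1 / (32 * t) * x ^ 2) := by
      refine (norm_sub_le _ _).trans ?_
      rw [Complex.norm_real, Real.norm_eq_abs]
      have h4 := hlin x
      have h5 : 1 ≤ Real.exp (1 / (32 * t) * x ^ 2) := Real.one_le_exp (by positivity)
      nlinarith
    calc ‖f x‖ * (‖gs t (x - w)‖ * (‖(x : ℂ) - w‖ / (2 * t))) ≤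
        (A * Real.exp (1 / (32 * t) * x ^ 2)) *
          ((Real.exp (ρ ^ 2 / (4 * t)) * Real.exp (-(1 / (8 * t)) * x ^ 2)) *
            ((1 + 32 * t + ρ) * Real.exp (1 / (32 * t) * x ^ 2) / (2 * t))) := by
          refine mul_le_mul (hfx x) ?_ (by positivity) (by positivity)
          refine mul_le_mul (hngs w x hw2) ?_ (by positivity) (by positivity)
          gcongr
      _ = A * Real.exp (ρ ^ 2 / (4 * t)) * ((1 + 32 * t + ρ) / (2 * t)) *
          (Real.exp (1 / (32 * t) * x ^ 2) * Real.exp (-(1 / (8 * t)) * x ^ 2) *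
            Real.exp (1 / (32 * t) * x ^ 2)) := by ring
      _ = _ := by
          rw [hBd, ← Real.exp_add, ← Real.exp_add]
          simp only
          congr 2
          field_simp
          ring
  · exact (integrable_exp_neg_mul_sq (b := 1 / (16 * t)) (by positivity)).const_mul _
  · refine Eventually.of_forall fun x w _ => ?_
    exact (hgs w x).const_mul (f x)

end flow

end Pool.Agent.Helper40.HF
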