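import Pool.Agent.Helper40.HF.H

set_option autoImplicit false
set_option maxHeartbeats 1000000

/-!
# The zeros of the heat flow in the abstract class
-/

open Complex Filter Topology Set MeasureTheory Asymptotics
open scoped ComplexConjugate

namespace Pool.Agent.Helper40.HF

/-- the constant `R0` -/
noncomputable def cR (b C : ℝ) : ℝ := Real.exp (4 * (2 * C + C ^ 2 / 4 + b ^ 2))

/-- the final constant -/
noncomputable def cK (b C : ℝ) : ℝ := 120 * cR b C + Real.exp (404 * C) + 1000

namespace Cl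

variable {b C n : ℝ} {Lq : ℝ → ℝ} {f : ℂ → ℂ} (h : Cl b C n Lq f) {t : ℝ} (ht : 0 < t) {v : ℝ}
  (hK : cK b C ≤ t * (Lq v + n))
include h ht hK

lemma sads {a0 : ℝ} (ha : 0 ≤ a0) : ∃ z : ℂ, 2 * t * (Lq v + 100 * (C * n)) ≤ z.re ∧
    2 * t * logDeriv f (a0 + v * I + z) = z ∧
    Sad f f (logDeriv f) (cR b C) (C * n) t (z.re / (2 * t)) a0 (v + z.im) z.im := by
  have hb := h.hb
  have hC := h.hC
  have hn := h.hn
  have hL := h.hL v
  have hR1 : 1 ≤ cR b C := Real.one_le_exp (by positivity)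
  have hRb : b ≤ cR b C := by
    have := Real.add_one_le_exp (4 * (2 * C + C ^ 2 / 4 + b ^ 2))
    unfold cR
    nlinarith [sq_nonneg C]
  have hE0 : 0 < Real.exp (404 * C) := Real.exp_pos _
  set x0 : ℝ := 2 * t * (Lq v + 100 * (C * n)) with hx0
  have hCn : n ≤ C * n := by nlinarith
  have hCn1 : 1 ≤ C * n := by nlinarith
  have hxK : 2 * cK b C ≤ x0 := by
    have h1 : t * (Lq v + n) ≤ t * (Lq v + 100 * (C * n)) := by
      refine mul_le_mul_of_nonneg_left ?_ ht.le
      linarith
    rw [hx0]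
    linarith
  have hcK1 : 120 * cR b C ≤ cK b C := by unfold cK; linarith
  have hcK2 : Real.exp (404 * C) ≤ cK b C := by unfold cK; linarith
  have hcK3 : 1000 ≤ cK b C := by unfold cK; linarith
  have hxR : cR b C ≤ x0 := by linarith
  have hlog : 404 * C ≤ Real.log x0 :=
    (Real.le_log_iff_exp_le (by linarith)).2 (by linarith)
  set y0 : ℝ := 2 * t * (C * n) with hy0
  have hy00 : 0 ≤ y0 := by positivity
  have hyx : y0 ≤ x0 := by
    rw [hy0, hx0]
    refine mul_le_mul_of_nonneg_left ?_ (by linarith)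
    linarith
  have hre0 : ∀ z : ℂ, ((a0 : ℂ) + v * I + z).re = a0 + z.re := by
    intro z
    rw [add_re, add_re, ofReal_re, Complex.re_ofReal_mul, I_re, mul_zero, add_zero]
  have him0 : ∀ z : ℂ, ((a0 : ℂ) + v * I + z).im = v + z.im := by
    intro z
    rw [add_im, add_im, ofReal_im, Complex.im_ofReal_mul, I_im, mul_one, zero_add]
  obtain ⟨z, hz1, hz2, hz3⟩ := exists_sad (h.ld hRb) (t := t) (a0 := a0) (v := v) (x0 := x0)
    (y0 := y0) ht ha hxR (by rw [hx0]; nlinarith [mul_nonneg ht.le hL]) hy00 (by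
      intro z hz hzi
      have h1 := h.low (a0 + v * I + z) v (by rw [hre0]; linarith) (by
        rw [hre0, him0, add_sub_cancel_left]; linarith)
      rw [hre0] at h1
      have h2 : 404 * C ≤ Real.log (a0 + z.re) :=
        hlog.trans (Real.log_le_log (by linarith) (by linarith))
      have h3 : n / 4 * (404 * C) ≤ n / 4 * Real.log (a0 + z.re) :=
        mul_le_mul_of_nonneg_left h2 (by linarith)
      rw [hx0]
      refine mul_le_mul_of_nonneg_left ?_ (by linarith)
      linarith) (by
      intro z hz _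
      have h1 := h.im (a0 + v * I + z) (by rw [hre0]; linarith)
      rw [abs_mul, abs_of_pos (by linarith : 0 < 2 * t), hy0]
      exact mul_le_mul_of_nonneg_left h1 (by linarith))
  refine ⟨z, hz1, hz3, ?_⟩
  have e2 : 2 * t * (z.re / (2 * t)) = z.re := by field_simp
  have hU : Lq v + 100 * (C * n) ≤ z.re / (2 * t) := by
    rw [le_div_iff₀ (by linarith)]
    linarith
  refine ⟨h.ld hRb, ht, ha, ?_, by linarith, by rw [e2]; linarith, ?_, ?_, ?_⟩
  · rw [e2]
    have e3 : (((a0 + z.re : ℝ) : ℂ) + ((v + z.im : ℝ) : ℂ) * I) = a0 + v * I + z := by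
      conv_rhs => rw [← Complex.re_add_im z]
      push_cast
      ring
    rw [e3, hz3, Complex.re_add_im]
  · have e4 : t * (z.re / (2 * t)) ^ 2 = z.re / 2 * (z.re / (2 * t)) := by field_simp
    rw [e4]
    have h1 : 1000 ≤ z.re / 2 := by linarith
    have h2 : 100 ≤ z.re / (2 * t) := by linarith
    nlinarith
  · intro s _
    rw [sub_self, norm_zero]
    positivity
  · intro x y
    refine (h.glob le_rfl x y).trans ?_
    have := norm_nonneg (f ((|x| + 2 * cR b C : ℝ) + y * I))
    unfold cR at *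
    linarith

/-- the flow near the line -/
lemma near_line : ∃ r M : ℝ, 0 < r ∧ 0 < M ∧ (∀ u : ℝ, 0 < u → u ≤ r → u * M ≤ ‖H f t (u + v * I)‖) ∧
    ∃ z : ℂ, 2 * t * (Lq v + 100 * (C * n)) ≤ z.re ∧
      2 * t * logDeriv f (((0 : ℝ) : ℂ) + v * I + z) = z ∧ r = 3 / (z.re / (2 * t)) := by
  obtain ⟨ε, hε, hfe⟩ := h.fe
  obtain ⟨z, hz1, hz2, hs⟩ := h.sads ht hK (a0 := 0) le_rfl
  have hU := hs.U0
  refine ⟨3 / (z.re / (2 * t)), ‖Av f t (z.re / (2 * t)) 0 (v + z.im) z.im‖, by positivity, ?_, ?_,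
    z, hz1, hz2, rfl⟩
  · rw [norm_pos_iff]
    unfold Av
    refine mul_ne_zero ?_ (Complex.exp_ne_zero _)
    refine hs.ld.ne _ ?_
    have h1 := hs.big
    have h2 := hs.ld.R1
    simp only [add_re, ofReal_re, mul_re, I_re, mul_zero, ofReal_im, I_im, mul_one, sub_self, add_zero,
      zero_add]
    linarith
  · intro u hu hur
    have h1 := hs.close h.diff.continuous hu hur
    have h2 := H_split h.diff h.growth ht hfe u v z.im
    rw [h2]
    unfold E
    have h3 : ‖∫ x in Ioi (0 : ℝ), f ((u + x : ℝ) + ((v + z.im : ℝ) : ℂ) * I) * gs t (x + z.im * I)‖ ≤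
        ‖(∫ x in Ioi (0 : ℝ), f ((u + x : ℝ) + ((v + z.im : ℝ) : ℂ) * I) * gs t (x + z.im * I)) +
        ε * conj (∫ x in Ioi (0 : ℝ), f ((-u + x : ℝ) + ((v + z.im : ℝ) : ℂ) * I) *
          gs t (x + z.im * I))‖ +
        ‖∫ x in Ioi (0 : ℝ), f ((-u + x : ℝ) + ((v + z.im : ℝ) : ℂ) * I) * gs t (x + z.im * I)‖ := by
      set P := ∫ x in Ioi (0 : ℝ), f ((u + x : ℝ) + ((v + z.im : ℝ) : ℂ) * I) * gs t (x + z.im * I)
      set Q := ∫ x in Ioi (0 : ℝ), f ((-u + x : ℝ) + ((v + z.im : ℝ) : ℂ) * I) * gs t (x + z.im * I)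
      have e : ‖ε * conj Q‖ = ‖Q‖ := by rw [norm_mul, hε, one_mul, Complex.norm_conj]
      calc ‖P‖ = ‖(P + ε * conj Q) - ε * conj Q‖ := by congr 1; ring
        _ ≤ ‖P + ε * conj Q‖ + ‖ε * conj Q‖ := norm_sub_le _ _
        _ = _ := by rw [e]
    linarith

/-- no zeros to the right of the line -/
lemma nonzero {u : ℝ} (hu : 0 < u) : H f t (u + v * I) ≠ 0 := by
  obtain ⟨r, M, hr, hM, h1, z, hz1, hz2, hrz⟩ := h.near_line ht hK
  rcases le_or_gt u r with hur | hur
  · intro h0
    have := h1 u hu hur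
    rw [h0, norm_zero] at this
    have : 0 < u * M := mul_pos hu hM
    linarith
  · obtain ⟨ε, hε, hfe⟩ := h.fe
    obtain ⟨w, hw1, hw2, hs⟩ := h.sads ht hK (a0 := u) hu.le
    have hb := h.hb
    have hC := h.hC
    have hn := h.hn
    have hL := h.hL v
    have hU := hs.U0
    have hnu := hs.nu
    have hbig := hs.big
    have hRb : b ≤ cR b C := by
      have := Real.add_one_le_exp (4 * (2 * C + C ^ 2 / 4 + b ^ 2))
      unfold cR
      nlinarith [sq_nonneg C]
    set x0 : ℝ := 2 * t * (Lq v + 100 * (C * n)) with hx0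
    have hxR : cR b C ≤ x0 := by
      have h2 : t * (Lq v + n) ≤ t * (Lq v + 100 * (C * n)) := by
        refine mul_le_mul_of_nonneg_left ?_ ht.le
        nlinarith
      have h3 : 120 * cR b C ≤ cK b C := by
        unfold cK
        have := Real.exp_pos (404 * C)
        linarith
      have h4 : 1 ≤ cR b C := by linarith
      rw [hx0]
      linarith
    have hcl := sad_close (h.ld hRb) ht hu.le hxR (by rw [hx0]; nlinarith [mul_nonneg ht.le hL])
      hz1 hw1 hz2 hw2
    have h5 : z.re - w.re ≤ u / 99 := by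
      have := (Complex.abs_re_le_norm (w - z)).trans hcl
      rw [sub_re] at this
      have := (abs_le.1 this).1
      linarith
    set Uw : ℝ := w.re / (2 * t) with hUw
    have hwU : w.re = 2 * t * Uw := by rw [hUw]; field_simp
    have hz0 : 0 < z.re / (2 * t) := by
      have : 0 < z.re := by
        have : (0 : ℝ) < 1 := one_pos
        linarith
      positivity
    -- `u U_w ≥ 29/10`
    have hmir : 29 / 10 ≤ u * Uw := by
      by_contra hcon
      push Not at hcon
      have h6 : 3 < u * (z.re / (2 * t)) := by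
        rw [hrz, div_lt_iff₀ hz0] at hur
        exact hur
      have h7 : z.re / (2 * t) ≤ Uw + u / (198 * t) := by
        rw [hUw]
        have e : w.re / (2 * t) + u / (198 * t) = (w.re + u / 99) / (2 * t) := by
          field_simp
          ring
        rw [e]
        exact div_le_div_of_nonneg_right (by linarith) (by linarith)
      have h8 : 3 < u * Uw + u ^ 2 / (198 * t) := by
        calc 3 < u * (z.re / (2 * t)) := h6
          _ ≤ u * (Uw + u / (198 * t)) := mul_le_mul_of_nonneg_left h7 hu.le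
          _ = _ := by ring
      have h9 : 1 / 10 < u ^ 2 / (198 * t) := by linarith
      rw [lt_div_iff₀ (by positivity)] at h9
      have h10 : (u * Uw) ^ 2 < 9 := by
        have : 0 ≤ u * Uw := by positivity
        nlinarith
      have h11 : 1 / 10 * (198 * t) * Uw ^ 2 < u ^ 2 * Uw ^ 2 :=
        mul_lt_mul_of_pos_right h9 (by positivity)
      have h12 : (u * Uw) ^ 2 = u ^ 2 * Uw ^ 2 := by ring
      nlinarith
    have m1 := hs.main_low h.diff.continuous (b := 0) le_rfl (by positivity)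
    have m2 := hs.mirror h.diff.continuous hmir
    have h2 := H_split h.diff h.growth ht hfe u v w.im
    have hA : 0 < ‖Av f t Uw u (v + w.im) w.im‖ := by
      rw [norm_pos_iff]
      unfold Av
      refine mul_ne_zero ?_ (Complex.exp_ne_zero _)
      refine hs.ld.ne _ ?_
      have h3 := hs.big
      have h4 := hs.ld.R1
      simp only [add_re, ofReal_re, mul_re, I_re, mul_zero, ofReal_im, I_im, mul_one, sub_self, add_zero]
      linarith
    intro h0
    rw [h0] at h2
    have e : ‖E f t (v + w.im) w.im u‖ = ‖E f t (v + w.im) w.im (-u)‖ := by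
      have : E f t (v + w.im) w.im u = -(ε * conj (E f t (v + w.im) w.im (-u))) := by
        linear_combination -h2
      rw [this, norm_neg, norm_mul, hε, one_mul, Complex.norm_conj]
    have m1' : 13 / 10 * (Real.sqrt t * ‖Av f t Uw u (v + w.im) w.im‖) ≤
      ‖E f t (v + w.im) w.im u‖ := m1
    have m2' : ‖E f t (v + w.im) w.im (-u)‖ ≤
      6 / 10 * (Real.sqrt t * ‖Av f t Uw u (v + w.im) w.im‖) := m2
    have hs0 : 0 < Real.sqrt t := Real.sqrt_pos.2 ht
    have := mul_pos hs0 hA
    linarith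

/-- zeros of large height are on the line and simple -/
theorem main {w : ℂ} (hw : w.im = v) (h0 : H f t w = 0) : w.re = 0 ∧ deriv (H f t) w ≠ 0 := by
  have hwv : w = w.re + v * I := by rw [← hw, Complex.re_add_im]
  have hre : w.re = 0 := by
    rcases lt_trichotomy w.re 0 with h1 | h1 | h1
    · exfalso
      obtain ⟨ε, hε, hfe⟩ := h.fe
      have h2 := H_fe (f := f) h.diff h.growth ht hfe w
      rw [h0, map_zero, mul_zero] at h2
      have h3 : -conj w = ((-w.re : ℝ) : ℂ) + v * I := by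
        rw [hwv, map_add, map_mul, Complex.conj_ofReal, Complex.conj_ofReal, Complex.conj_I]
        simp
        ring
      rw [h3] at h2
      exact h.nonzero ht hK (u := -w.re) (by linarith) h2
    · exact h1
    · exfalso
      rw [hwv] at h0
      exact h.nonzero ht hK h1 h0
  refine ⟨hre, ?_⟩
  have hwv' : w = v * I := by rw [hwv, hre]; simp
  obtain ⟨r, M, hr, hM, h1, -⟩ := h.near_line ht hK
  have hd := ((H_diff h.diff h.growth ht) w).hasDerivAt
  have hd2 : HasDerivAt (fun u : ℝ => H f t (u + v * I)) (deriv (H f t) w) 0 := by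
    have h2 : HasDerivAt (fun u : ℝ => (u : ℂ) + v * I) 1 0 := by
      simpa using (Complex.ofRealCLM.hasDerivAt (x := (0 : ℝ))).add_const (v * I)
    have h3 : HasDerivAt (H f t) (deriv (H f t) w) ((fun u : ℝ => (u : ℂ) + v * I) 0) := by
      simp only [ofReal_zero, zero_add]
      rw [← hwv']
      exact hd
    have := HasDerivAt.comp (0 : ℝ) h3 h2
    simpa [Function.comp_def] using this
  have h4 := (hasDerivAt_iff_tendsto_slope_zero.1 hd2).norm
  have h5 : Tendsto (fun u : ℝ => ‖u⁻¹ • (H f t (((0 + u : ℝ) : ℂ) + v * I) -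
      H f t (((0 : ℝ) : ℂ) + v * I))‖) (𝓝[>] 0) (𝓝 ‖deriv (H f t) w‖) := by
    refine h4.mono_left ?_
    exact nhdsWithin_mono _ fun x hx => ne_of_gt hx
  have h6 : M ≤ ‖deriv (H f t) w‖ := by
    refine ge_of_tendsto h5 ?_
    have h7 : Ioc (0 : ℝ) r ∈ 𝓝[>] (0 : ℝ) := Ioc_mem_nhdsGT hr
    filter_upwards [h7] with u hu
    have e : ((0 : ℝ) : ℂ) + v * I = w := by rw [hwv']; simp
    rw [e, h0, sub_zero, zero_add, norm_smul, norm_inv, Real.norm_of_nonneg hu.1.le]
    have h8 := h1 u hu.1 hu.2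
    rw [inv_mul_eq_div, le_div_iff₀ hu.1]
    linarith
  intro h7
  rw [h7, norm_zero] at h6
  linarith

end Cl

end Pool.Agent.Helper40.HF
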