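import Pool.Agent.Helper40.HF.J
import Pool.Agent.Helper68.UL.Dig

set_option autoImplicit false
set_option maxHeartbeats 1000000

/-!
# Completed L-functions belong to the abstract class
-/

open Complex Filter Topology Set MeasureTheory Metric
open scoped ComplexConjugate

namespace Pool.Agent.Helper40.HF

noncomputable section

/-- completed L-functions -/
structure CLF {m k : ℕ} (β κ c A : ℝ) (μ : Fin m → ℂ) (ρ : Fin k → ℂ) (L F : ℂ → ℂ) : Prop where
  m0 : 0 < m
  km : k ≤ 2 * m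
  β0 : 0 ≤ β
  κ0 : 0 ≤ κ
  A1 : 1 ≤ A
  μ0 : ∀ j, 0 < c + (μ j).re
  ρ0 : ∀ i, (ρ i).re ≤ c + β
  ent : Differentiable ℂ F
  ord : ∀ σ : ℝ, ∃ (a : ℕ) (B : ℝ), ∀ s : ℂ, |s.re| ≤ σ → ‖F s‖ ≤ Real.exp (B * (1 + |s.im|) ^ a)
  val : ∀ s : ℂ, c + β < s.re →
    F s = (∏ i, (s - ρ i)) * ((A : ℂ) ^ (s / 2) * ∏ j, Gammaℝ (s + μ j)) * L s
  bd : ∃ g : ℂ → ℂ, ∀ s : ℂ, c + β < s.re →
    DifferentiableAt ℂ g s ∧ L s = cexp (g s) ∧ ‖g s‖ ≤ κ * m
  fe : ∃ ε : ℂ, ‖ε‖ = 1 ∧ ∀ s : ℂ, F (2 * c - conj s) = ε * conj (F s)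

/-- the comparison value -/
def V {m : ℕ} (c A : ℝ) (μ : Fin m → ℂ) (z : ℂ) : ℝ :=
  Real.log A / 2 + ∑ j, Real.log ‖z + (c + μ j)‖ / 2

/-- the factor of `F (c + z)` besides `L` -/
def Qf {m k : ℕ} (c A : ℝ) (μ : Fin m → ℂ) (ρ : Fin k → ℂ) (z : ℂ) : ℂ :=
  (∏ i, (z + (c - ρ i))) * (cexp (((Real.log A / 2 : ℝ) : ℂ) * (z + c)) *
    ∏ j, Gammaℝ (z + (c + μ j)))

/-- the analytic conductor at the height `t` -/
def cond {m : ℕ} (c A : ℝ) (μ : Fin m → ℂ) (t : ℝ) : ℝ := A * ∏ j, (‖(c : ℂ) + t * I + μ j‖ + 3)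

namespace CLF

variable {m k : ℕ} {β κ c A : ℝ} {μ : Fin m → ℂ} {ρ : Fin k → ℂ} {L F : ℂ → ℂ}
variable (h : CLF β κ c A μ ρ L F)
include h

lemma hpos {z : ℂ} (hz : β + 1 / 2 ≤ z.re) (j : Fin m) : 1 / 2 < (z + (c + μ j)).re := by
  have h1 := h.μ0 j
  have h2 := h.β0
  rw [add_re, add_re, ofReal_re]
  linarith

lemma Qf_facts {z : ℂ} (hz : β + 1 / 2 ≤ z.re) : DifferentiableAt ℂ (Qf c A μ ρ) z ∧
    Qf c A μ ρ z ≠ 0 ∧
    logDeriv (Qf c A μ ρ) z = (∑ i, 1 / (z + (c - ρ i))) + (((Real.log A / 2 : ℝ) : ℂ) +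
      ∑ j, logDeriv Gammaℝ (z + (c + μ j))) := by
  have hG : ∀ j, DifferentiableAt ℂ (fun w : ℂ => Gammaℝ (w + (c + μ j))) z := by
    intro j
    have h1 : DifferentiableAt ℂ Gammaℝ (z + (c + μ j)) := by
      have h2 := h.hpos hz j
      have h3 : 0 < ((z + (c + μ j)) / 2).re := by
        rw [show (z + (c + μ j)) / 2 = ((1 / 2 : ℝ) : ℂ) * (z + (c + μ j)) by push_cast; ring,
          Complex.re_ofReal_mul]
        linarith
      have e : Gammaℝ = fun s : ℂ => (Real.pi : ℂ) ^ (-s / 2) * Complex.Gamma (s / 2) := by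
        funext s
        exact Complex.Gammaℝ_def s
      rw [e]
      refine DifferentiableAt.mul ?_ ?_
      · refine DifferentiableAt.const_cpow (by fun_prop) (Or.inl ?_)
        exact_mod_cast Real.pi_ne_zero
      · exact DifferentiableAt.comp (g := Complex.Gamma) (f := fun s : ℂ => s / 2) _
          (Helper68.UL.gam_anal h3).differentiableAt (by fun_prop)
    exact DifferentiableAt.comp (g := Gammaℝ) (f := fun w : ℂ => w + (c + μ j)) z h1 (by fun_prop)
  have hGn : ∀ j, Gammaℝ (z + (c + μ j)) ≠ 0 := fun j =>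
    Gammaℝ_ne_zero_of_re_pos (by linarith [h.hpos hz j])
  have hE : DifferentiableAt ℂ (fun w : ℂ => cexp (((Real.log A / 2 : ℝ) : ℂ) * (w + c))) z := by
    fun_prop
  have hP : DifferentiableAt ℂ (fun w : ℂ => ∏ j, Gammaℝ (w + (c + μ j))) z :=
    DifferentiableAt.fun_finsetProd fun j _ => hG j
  have hPn : ∏ j, Gammaℝ (z + (c + μ j)) ≠ 0 := Finset.prod_ne_zero_iff.2 fun j _ => hGn j
  have hR : DifferentiableAt ℂ (fun w : ℂ => ∏ i, (w + (c - ρ i))) z := by fun_prop
  have hRn0 : ∀ i, z + (c - ρ i) ≠ 0 := by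
    intro i h0
    have h1 := congrArg Complex.re h0
    rw [add_re, sub_re, ofReal_re, zero_re] at h1
    have := h.ρ0 i
    linarith
  have hRn : ∏ i, (z + (c - ρ i)) ≠ 0 := Finset.prod_ne_zero_iff.2 fun i _ => hRn0 i
  refine ⟨hR.mul (hE.mul hP), mul_ne_zero hRn (mul_ne_zero (Complex.exp_ne_zero _) hPn), ?_⟩
  have e0 : Qf c A μ ρ = fun w => (∏ i, (w + (c - ρ i))) *
      ((fun w => cexp (((Real.log A / 2 : ℝ) : ℂ) * (w + c)) * ∏ j, Gammaℝ (w + (c + μ j))) w) :=
    rfl
  rw [e0, logDeriv_mul (f := fun w : ℂ => ∏ i, (w + (c - ρ i)))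
    (g := fun w => cexp (((Real.log A / 2 : ℝ) : ℂ) * (w + c)) * ∏ j, Gammaℝ (w + (c + μ j)))
    z hRn (mul_ne_zero (Complex.exp_ne_zero _) hPn) hR (hE.mul hP)]
  congr 1
  · rw [logDeriv_prod (f := fun i (w : ℂ) => w + (c - ρ i)) (fun i _ => hRn0 i)
      fun i _ => by fun_prop]
    refine Finset.sum_congr rfl fun i _ => ?_
    rw [logDeriv_apply]
    congr 1
    simp
  · rw [logDeriv_mul (f := fun w : ℂ => cexp (((Real.log A / 2 : ℝ) : ℂ) * (w + c)))
      (g := fun w => ∏ j, Gammaℝ (w + (c + μ j))) z (Complex.exp_ne_zero _) hPn hE hP]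
    congr 1
    · have h1 : HasDerivAt (fun w : ℂ => cexp (((Real.log A / 2 : ℝ) : ℂ) * (w + c)))
          (cexp (((Real.log A / 2 : ℝ) : ℂ) * (z + c)) * ((Real.log A / 2 : ℝ) : ℂ)) z := by
        have h2 : HasDerivAt (fun w : ℂ => ((Real.log A / 2 : ℝ) : ℂ) * (w + c))
          ((Real.log A / 2 : ℝ) : ℂ) z := by
          simpa using ((hasDerivAt_id z).add_const (c : ℂ)).const_mul ((Real.log A / 2 : ℝ) : ℂ)
        exact h2.cexp
      rw [logDeriv_apply, h1.deriv, mul_div_cancel_left₀ _ (Complex.exp_ne_zero _)]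
    · rw [logDeriv_prod (f := fun j (w : ℂ) => Gammaℝ (w + (c + μ j))) (fun j _ => hGn j)
        fun j _ => hG j]
      refine Finset.sum_congr rfl fun j _ => ?_
      rw [logDeriv_apply, logDeriv_apply, deriv_comp_add_const]

lemma eqQ {z : ℂ} (hz : β + 1 / 2 ≤ z.re) : F (c + z) = Qf c A μ ρ z * L (c + z) := by
  have hA : 0 < A := by linarith [h.A1]
  have e1 : ∏ i, ((c : ℂ) + z - ρ i) = ∏ i, (z + (c - ρ i)) :=
    Finset.prod_congr rfl fun i _ => by ring
  have e2 : (A : ℂ) ^ (((c : ℂ) + z) / 2) = cexp (((Real.log A / 2 : ℝ) : ℂ) * (z + c)) := by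
    rw [Complex.cpow_def_of_ne_zero (by exact_mod_cast hA.ne'), ← Complex.ofReal_log hA.le]
    congr 1
    push_cast
    ring
  have e3 : ∏ j, Gammaℝ ((c : ℂ) + z + μ j) = ∏ j, Gammaℝ (z + (c + μ j)) :=
    Finset.prod_congr rfl fun j _ => by
      congr 1
      ring
  rw [h.val (c + z) (by rw [add_re, ofReal_re]; linarith), Qf, e1, e2, e3]

/-- the logarithmic derivative of `F (c + z)` -/
lemma ld_bound {KR : ℝ} (hKR : ∀ s : ℂ, 1 / 2 ≤ s.re →
    ‖logDeriv Gammaℝ s - ((Real.log ‖s‖ / 2 : ℝ) : ℂ)‖ ≤ KR) {z : ℂ} (hz : β + 1 ≤ z.re) :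
    F (c + z) ≠ 0 ∧
    ‖logDeriv (fun w => F (c + w)) z - V c A μ z‖ ≤ (2 + KR + 2 * κ) * m := by
  have hz' : β + 1 / 2 ≤ z.re := by linarith
  obtain ⟨q1, q2, q3⟩ := h.Qf_facts hz'
  obtain ⟨g, hg⟩ := h.bd
  have hβ := h.β0
  have hgz : ∀ w : ℂ, β < w.re → DifferentiableAt ℂ (fun w => g (c + w)) w ∧
      L (c + w) = cexp (g (c + w)) ∧ ‖g (c + w)‖ ≤ κ * m := by
    intro w hw
    obtain ⟨g1, g2, g3⟩ := hg (c + w) (by rw [add_re, ofReal_re]; linarith)
    refine ⟨?_, g2, g3⟩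
    exact DifferentiableAt.comp (g := g) (f := fun w : ℂ => (c : ℂ) + w) w g1 (by fun_prop)
  obtain ⟨g1, g2, g3⟩ := hgz z (by linarith)
  have hF : F (c + z) ≠ 0 := by
    rw [h.eqQ hz', g2]
    exact mul_ne_zero q2 (Complex.exp_ne_zero _)
  refine ⟨hF, ?_⟩
  have hev : (fun w => F (c + w)) =ᶠ[𝓝 z] fun w => Qf c A μ ρ w * cexp (g (c + w)) := by
    have ho : IsOpen {w : ℂ | β + 1 / 2 < w.re} := isOpen_lt continuous_const continuous_re
    filter_upwards [ho.mem_nhds (show β + 1 / 2 < z.re by linarith)] with w hw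
    have hw' : β + 1 / 2 < w.re := hw
    rw [h.eqQ hw'.le, (hgz w (by linarith)).2.1]
  have hexp : HasDerivAt (fun w => cexp (g (c + w)))
      (cexp (g (c + z)) * deriv (fun w => g (c + w)) z) z := g1.hasDerivAt.cexp
  have hld : logDeriv (fun w => F (c + w)) z = logDeriv (Qf c A μ ρ) z +
      deriv (fun w => g (c + w)) z := by
    rw [logDeriv_apply, hev.deriv_eq, hev.eq_of_nhds]
    have := logDeriv_mul (f := Qf c A μ ρ) (g := fun w => cexp (g (c + w))) z q2
      (Complex.exp_ne_zero _) q1 hexp.differentiableAt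
    rw [logDeriv_apply] at this
    rw [this]
    congr 1
    rw [logDeriv_apply, hexp.deriv, mul_div_cancel_left₀ _ (Complex.exp_ne_zero _)]
  -- the derivative of `g`
  have hder : ‖deriv (fun w => g (c + w)) z‖ ≤ κ * m / (1 / 2) := by
    refine Complex.norm_deriv_le_of_forall_mem_sphere_norm_le (by norm_num) ?_ ?_
    · refine DifferentiableOn.diffContOnCl ?_
      rw [closure_ball z (by norm_num : (1 / 2 : ℝ) ≠ 0)]
      intro w hw
      have hw' : β < w.re := by
        have h1 := Complex.abs_re_le_norm (w - z)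
        rw [mem_closedBall, dist_eq_norm] at hw
        have h2 := (abs_le.1 (h1.trans hw)).1
        rw [sub_re] at h2
        linarith
      exact (hgz w hw').1.differentiableWithinAt
    · intro w hw
      have hw' : β < w.re := by
        have h1 := Complex.abs_re_le_norm (w - z)
        rw [mem_sphere, dist_eq_norm] at hw
        have h2 := (abs_le.1 (h1.trans hw.le)).1
        rw [sub_re] at h2
        linarith
      exact (hgz w hw').2.2
  -- the factors
  have hsum : logDeriv (Qf c A μ ρ) z - V c A μ z = (∑ i, 1 / (z + (c - ρ i))) +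
      ∑ j, (logDeriv Gammaℝ (z + (c + μ j)) -
        ((Real.log ‖z + (c + μ j)‖ / 2 : ℝ) : ℂ)) := by
    rw [q3, V, Finset.sum_sub_distrib]
    push_cast
    ring
  have hQ : ‖logDeriv (Qf c A μ ρ) z - V c A μ z‖ ≤ k + m * KR := by
    rw [hsum]
    refine (norm_add_le _ _).trans (add_le_add ?_ ?_)
    · refine (norm_sum_le _ _).trans ?_
      calc ∑ i, ‖1 / (z + (c - ρ i))‖ ≤ ∑ _i : Fin k, (1 : ℝ) := Finset.sum_le_sum fun i _ => by
            rw [norm_div, norm_one, div_le_one₀]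
            · refine le_trans ?_ (Complex.re_le_norm _)
              rw [add_re, sub_re, ofReal_re]
              have := h.ρ0 i
              linarith
            · refine lt_of_lt_of_le ?_ (Complex.re_le_norm _)
              rw [add_re, sub_re, ofReal_re]
              have := h.ρ0 i
              linarith
        _ = k := by simp
    · refine (norm_sum_le _ _).trans ?_
      calc ∑ j, ‖logDeriv Gammaℝ (z + (c + μ j)) -
            ((Real.log ‖z + (c + μ j)‖ / 2 : ℝ) : ℂ)‖ ≤ ∑ _j : Fin m, KR :=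
            Finset.sum_le_sum fun j _ => hKR _ (h.hpos hz' j).le
        _ = m * KR := by simp
  have hk : (k : ℝ) ≤ 2 * m := by exact_mod_cast h.km
  rw [hld, show logDeriv (Qf c A μ ρ) z + deriv (fun w => g (c + w)) z - V c A μ z =
    (logDeriv (Qf c A μ ρ) z - V c A μ z) + deriv (fun w => g (c + w)) z by ring]
  refine (norm_add_le _ _).trans ?_
  linarith

lemma xle {z : ℂ} (j : Fin m) : z.re ≤ ‖z + (c + μ j)‖ := by
  refine le_trans ?_ (Complex.re_le_norm _)
  rw [add_re, add_re, ofReal_re]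
  linarith [h.μ0 j]

lemma V_low {z : ℂ} {v : ℝ} (hz : 2 ≤ z.re) (hv : |z.im - v| ≤ z.re) :
    1 / 4 * Real.log (cond c A μ v) + m / 4 * Real.log z.re - m ≤ V c A μ z := by
  have hA := h.A1
  have hlogA : 0 ≤ Real.log A := Real.log_nonneg hA
  have h0 : 0 < z.re := by linarith
  have hterm : ∀ j : Fin m, 1 / 4 * Real.log (‖(c : ℂ) + v * I + μ j‖ + 3) + 1 / 4 * Real.log z.re - 1 ≤
      Real.log ‖z + (c + μ j)‖ / 2 := by
    intro j
    set X := ‖z + (c + μ j)‖ with hX
    have h1 : z.re ≤ X := h.xle j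
    have hX0 : 0 < X := by linarith
    have h2 : ‖(c : ℂ) + v * I + μ j‖ ≤ 3 * X := by
      have e : (c : ℂ) + v * I + μ j = (z + (c + μ j)) - (((z.re : ℝ) : ℂ) + ((z.im - v : ℝ) : ℂ) * I) := by
        push_cast
        linear_combination Complex.re_add_im z
      rw [e]
      refine (norm_sub_le _ _).trans ?_
      have h3 : ‖((z.re : ℝ) : ℂ) + ((z.im - v : ℝ) : ℂ) * I‖ ≤ z.re + z.re := by
        refine (norm_add_le _ _).trans (add_le_add ?_ ?_)
        · rw [Complex.norm_real, Real.norm_of_nonneg h0.le]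
        · rw [norm_mul, Complex.norm_I, mul_one, Complex.norm_real, Real.norm_eq_abs]
          exact hv
      linarith
    have h4 : Real.log (‖(c : ℂ) + v * I + μ j‖ + 3) ≤ Real.log X + 2 := by
      have h5 : ‖(c : ℂ) + v * I + μ j‖ + 3 ≤ Real.exp 2 * X := by
        have h6 : (5 : ℝ) ≤ Real.exp 2 := by
          have := Real.quadratic_le_exp_of_nonneg (x := 2) (by norm_num)
          linarith
        nlinarith
      have := Real.log_le_log (by positivity) h5
      rw [Real.log_mul (Real.exp_pos 2).ne' hX0.ne', Real.log_exp] at this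
      linarith
    have h7 := Real.log_le_log h0 h1
    linarith
  have hsum : ∑ j : Fin m, (1 / 4 * Real.log (‖(c : ℂ) + v * I + μ j‖ + 3) + 1 / 4 * Real.log z.re - 1) ≤
      ∑ j, Real.log ‖z + (c + μ j)‖ / 2 := Finset.sum_le_sum fun j _ => hterm j
  rw [Finset.sum_sub_distrib, Finset.sum_add_distrib, ← Finset.mul_sum] at hsum
  have e1 : ∑ _j : Fin m, (1 : ℝ) = m := by simp
  have e2 : ∑ _j : Fin m, 1 / 4 * Real.log z.re = m / 4 * Real.log z.re := by simp; ring
  rw [e1, e2] at hsum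
  have e3 : Real.log (cond c A μ v) = Real.log A + ∑ j, Real.log (‖(c : ℂ) + v * I + μ j‖ + 3) := by
    unfold cond
    rw [Real.log_mul (by linarith) (Finset.prod_ne_zero_iff.2 fun j _ => by positivity),
      Real.log_prod fun j _ => by positivity]
  rw [e3]
  unfold V
  linarith

lemma cond_log (v : ℝ) : 0 ≤ Real.log (cond c A μ v) := by
  refine Real.log_nonneg ?_
  unfold cond
  have h1 : (1 : ℝ) ≤ ∏ j, (‖(c : ℂ) + v * I + μ j‖ + 3) := by
    calc (1 : ℝ) = ∏ _j : Fin m, (1 : ℝ) := by simp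
      _ ≤ _ := Finset.prod_le_prod (fun _ _ => zero_le_one) fun j _ => by
        have := norm_nonneg ((c : ℂ) + v * I + μ j)
        linarith
  nlinarith [h.A1]

lemma V_var {z w : ℂ} (hz : 2 ≤ z.re) (hw : ‖w - z‖ ≤ z.re / 2) : |V c A μ w - V c A μ z| ≤ m := by
  have hterm : ∀ j : Fin m, |Real.log ‖w + (c + μ j)‖ / 2 - Real.log ‖z + (c + μ j)‖ / 2| ≤ 1 := by
    intro j
    set x := ‖z + (c + μ j)‖ with hx
    set y := ‖w + (c + μ j)‖ with hy
    have hzx : z.re ≤ x := h.xle j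
    have hx0 : 0 < x := by linarith
    have hxy : |y - x| ≤ 1 / 2 * x := by
      have h1 := abs_norm_sub_norm_le (w + (c + μ j)) (z + (c + μ j))
      rw [show w + ((c : ℂ) + μ j) - (z + ((c : ℂ) + μ j)) = w - z by ring] at h1
      refine h1.trans (hw.trans ?_)
      linarith
    obtain ⟨g1, g2⟩ := abs_le.1 hxy
    have hy0 : 0 < y := by linarith
    have l1 : Real.log y ≤ Real.log x + 1 := by
      have : Real.log y ≤ Real.log (Real.exp 1 * x) := by
        refine Real.log_le_log hy0 ?_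
        have := Real.exp_one_gt_d9
        nlinarith
      rwa [Real.log_mul (Real.exp_pos 1).ne' hx0.ne', Real.log_exp, add_comm] at this
    have l2 : Real.log x ≤ Real.log y + 1 := by
      have : Real.log x ≤ Real.log (Real.exp 1 * y) := by
        refine Real.log_le_log hx0 ?_
        have := Real.exp_one_gt_d9
        nlinarith
      rwa [Real.log_mul (Real.exp_pos 1).ne' hy0.ne', Real.log_exp, add_comm] at this
    rw [abs_le]
    constructor <;> linarith
  have e : V c A μ w - V c A μ z =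
      ∑ j, (Real.log ‖w + (c + μ j)‖ / 2 - Real.log ‖z + (c + μ j)‖ / 2) := by
    unfold V
    rw [Finset.sum_sub_distrib]
    ring
  rw [e]
  refine (Finset.abs_sum_le_sum_abs _ _).trans ?_
  calc _ ≤ ∑ _j : Fin m, (1 : ℝ) := Finset.sum_le_sum fun j _ => hterm j
    _ = m := by simp

end CLF

/-- **Completed L-functions belong to the abstract class.** -/
theorem CLF.cl (β κ : ℝ) (hβ : 0 ≤ β) (hκ : 0 ≤ κ) : ∃ C : ℝ, ∀ {m k : ℕ} (c A : ℝ) (μ : Fin m → ℂ)
    (ρ : Fin k → ℂ) (L F : ℂ → ℂ), CLF β κ c A μ ρ L F →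
      Cl (2 * (β + 1)) C m (fun v => 1 / 4 * Real.log (cond c A μ v)) (fun z => F (c + z)) := by
  obtain ⟨KR, hKR1, hKR⟩ := Helper68.UL.digR
  set C2 : ℝ := 2 + KR + 2 * κ with hC2
  have hC20 : 1 ≤ C2 := by linarith
  refine ⟨2 * (C2 + 1), ?_⟩
  intro m k c A μ ρ L F h
  have hm1 : (1 : ℝ) ≤ m := by exact_mod_cast h.m0
  have hld : ∀ z : ℂ, β + 1 ≤ z.re → F (c + z) ≠ 0 ∧
      ‖logDeriv (fun w => F (c + w)) z - V c A μ z‖ ≤ C2 * m := fun z hz => h.ld_bound hKR hz
  have hFd : Differentiable ℂ (fun w => F (c + w)) := h.ent.comp (by fun_prop)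
  refine ⟨by linarith, by linarith, hm1, fun v => mul_nonneg (by norm_num) (h.cond_log v), hFd,
    ?_, ?_, ?_, ?_, ?_, ?_⟩
  · obtain ⟨ε, hε, hfe⟩ := h.fe
    refine ⟨ε, hε, fun z => ?_⟩
    rw [← hfe (c + z), map_add, Complex.conj_ofReal]
    congr 1
    ring
  · obtain ⟨a, B, hB⟩ := h.ord (|c| + 2 * (β + 1))
    refine ⟨a, B, fun z hz => ?_⟩
    have h1 := hB (c + z) (by
      rw [add_re, ofReal_re]
      exact (abs_add_le _ _).trans (by linarith))
    rw [add_im, ofReal_im, zero_add] at h1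
    exact h1
  · intro z hz
    exact (hld z (by linarith)).1
  · intro z hz
    have h1 := (hld z (by linarith)).2
    have h2 := (Complex.abs_im_le_norm _).trans h1
    rw [sub_im, ofReal_im, sub_zero] at h2
    refine h2.trans ?_
    nlinarith
  · intro z v hz hv
    have h1 := (hld z (by linarith)).2
    have h2 := (abs_le.1 ((Complex.abs_re_le_norm _).trans h1)).1
    rw [sub_re, ofReal_re] at h2
    have h3 := h.V_low (z := z) (v := v) (by linarith) hv
    have h4 : C2 * m + m ≤ 2 * (C2 + 1) * m := by nlinarith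
    linarith
  · intro z hz
    have hz2 : 2 ≤ z.re := by linarith
    have hr : 0 < z.re / 2 := by linarith
    have hzr : ∀ w : ℂ, ‖w - z‖ ≤ z.re / 2 → β + 1 ≤ w.re := by
      intro w hw
      have h1 := (abs_le.1 ((Complex.abs_re_le_norm (w - z)).trans hw)).1
      rw [sub_re] at h1
      linarith
    have hanal : ∀ w : ℂ, β + 1 ≤ w.re → DifferentiableAt ℂ (logDeriv (fun w => F (c + w))) w := by
      intro w hw
      exact (((hFd.analyticAt w).deriv).div (hFd.analyticAt w) (hld w hw).1).differentiableAt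
    have e1 : deriv (logDeriv (fun w => F (c + w))) z =
        deriv (fun w => logDeriv (fun w => F (c + w)) w - (V c A μ z : ℂ)) z := by
      rw [deriv_sub_const]
    rw [e1]
    have h1 : ‖deriv (fun w => logDeriv (fun w => F (c + w)) w - (V c A μ z : ℂ)) z‖ ≤
        (C2 * m + m) / (z.re / 2) := by
      refine Complex.norm_deriv_le_of_forall_mem_sphere_norm_le hr ?_ ?_
      · refine DifferentiableOn.diffContOnCl ?_
        rw [closure_ball z hr.ne']
        intro w hw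
        rw [mem_closedBall, dist_eq_norm] at hw
        exact ((hanal w (hzr w hw)).sub_const _).differentiableWithinAt
      · intro w hw
        rw [mem_sphere, dist_eq_norm] at hw
        have h2 := (hld w (hzr w hw.le)).2
        have h3 := h.V_var hz2 hw.le
        calc ‖logDeriv (fun w => F (c + w)) w - (V c A μ z : ℂ)‖ =
            ‖(logDeriv (fun w => F (c + w)) w - (V c A μ w : ℂ)) +
              ((V c A μ w - V c A μ z : ℝ) : ℂ)‖ := by congr 1; push_cast; ring
          _ ≤ _ := (norm_add_le _ _).trans (add_le_add h2 (by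
              rw [Complex.norm_real, Real.norm_eq_abs]; exact h3))
    refine h1.trans (le_of_eq ?_)
    field_simp

end

end Pool.Agent.Helper40.HF
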