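import Pool.Agent.Helper40.HF.L

set_option autoImplicit false
set_option maxHeartbeats 1000000

/-!
# Euler products; the theorem for completed L-functions
-/

open Complex Filter Topology Set MeasureTheory Metric
open scoped ComplexConjugate

namespace Pool.Agent.Helper40.HF

noncomputable section

/-- Euler products of degree `m` with `|α| ≤ p^θ` -/
def IsEuler (m : ℕ) (θ : ℝ) (L : ℂ → ℂ) : Prop :=
  ∃ α : Nat.Primes → Fin m → ℂ, (∀ p j, ‖α p j‖ ≤ ((p : ℕ) : ℝ) ^ θ) ∧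
    ∀ s : ℂ, θ + 1 < s.re →
      HasProd (fun p : Nat.Primes => ∏ j, (1 - α p j * ((p : ℕ) : ℂ) ^ (-s))⁻¹) (L s)

/-- an absolute constant -/
def kE : ℝ := ∑' p : Nat.Primes, 3 / 2 * ((p : ℕ) : ℝ) ^ (-2 : ℝ)

lemma kE_summable : Summable (fun p : Nat.Primes => 3 / 2 * ((p : ℕ) : ℝ) ^ (-2 : ℝ)) := by
  refine Summable.mul_left _ ?_
  have := (Real.summable_nat_rpow).2 (show (-2 : ℝ) < -1 by norm_num)
  exact this.comp_injective Nat.Primes.coe_nat_injective

lemma kE_nonneg : 0 ≤ kE := tsum_nonneg fun p => by positivity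

lemma IsEuler.bd {m : ℕ} {θ : ℝ} {L : ℂ → ℂ} (h : IsEuler m θ L) : ∃ g : ℂ → ℂ, ∀ s : ℂ,
    θ + 2 < s.re → DifferentiableAt ℂ g s ∧ L s = cexp (g s) ∧ ‖g s‖ ≤ kE * m := by
  obtain ⟨α, hα, hL⟩ := h
  set w : Nat.Primes → Fin m → ℂ → ℂ := fun p j s => -(α p j * ((p : ℕ) : ℂ) ^ (-s)) with hw
  set F : Nat.Primes → ℂ → ℂ := fun p s => ∑ j, -Complex.log (1 + w p j s) with hF
  set u : Nat.Primes → ℝ := fun p => m * (3 / 2 * ((p : ℕ) : ℝ) ^ (-2 : ℝ)) with hu
  have husum : Summable u := kE_summable.mul_left _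
  set U : Set ℂ := {s : ℂ | θ + 2 < s.re} with hU
  have hUo : IsOpen U := isOpen_lt continuous_const continuous_re
  have hwb : ∀ (p : Nat.Primes) (j : Fin m) (s : ℂ), s ∈ U →
      ‖w p j s‖ ≤ ((p : ℕ) : ℝ) ^ (-2 : ℝ) ∧ ((p : ℕ) : ℝ) ^ (-2 : ℝ) ≤ 1 / 4 := by
    intro p j s hs
    have hs' : θ + 2 < s.re := hs
    have hp2 : 2 ≤ (p : ℕ) := p.2.two_le
    have hp0 : 0 < (p : ℕ) := by omega
    have hp2R : (2 : ℝ) ≤ ((p : ℕ) : ℝ) := by exact_mod_cast hp2
    have hpR : (0 : ℝ) < ((p : ℕ) : ℝ) := by linarith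
    constructor
    · rw [hw]
      simp only
      rw [norm_neg, norm_mul, Complex.norm_natCast_cpow_of_pos hp0, neg_re]
      calc ‖α p j‖ * ((p : ℕ) : ℝ) ^ (-s.re) ≤ ((p : ℕ) : ℝ) ^ θ * ((p : ℕ) : ℝ) ^ (-s.re) := by
            gcongr
            exact hα p j
        _ = ((p : ℕ) : ℝ) ^ (θ + -s.re) := (Real.rpow_add hpR _ _).symm
        _ ≤ _ := Real.rpow_le_rpow_of_exponent_le (by linarith) (by linarith)
    · rw [Real.rpow_neg hpR.le]
      have : ((p : ℕ) : ℝ) ^ (2 : ℝ) = ((p : ℕ) : ℝ) ^ 2 := by norm_cast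
      rw [this, one_div]
      exact inv_anti₀ (by norm_num) (by nlinarith)
  have hFb : ∀ (p : Nat.Primes) (s : ℂ), s ∈ U → ‖F p s‖ ≤ u p := by
    intro p s hs
    rw [hF, hu]
    simp only
    refine (norm_sum_le _ _).trans ?_
    calc ∑ j, ‖-Complex.log (1 + w p j s)‖ ≤ ∑ _j : Fin m, 3 / 2 * ((p : ℕ) : ℝ) ^ (-2 : ℝ) :=
          Finset.sum_le_sum fun j _ => by
            obtain ⟨h1, h2⟩ := hwb p j s hs
            rw [norm_neg]
            refine (Complex.norm_log_one_add_half_le_self (by linarith)).trans ?_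
            gcongr
      _ = _ := by simp
  have hFd : ∀ p : Nat.Primes, DifferentiableOn ℂ (F p) U := by
    intro p
    rw [hF]
    refine DifferentiableOn.fun_sum fun j _ => ?_
    intro s hs
    obtain ⟨h1, h2⟩ := hwb p j s hs
    have hsl : 1 + w p j s ∈ slitPlane := Complex.mem_slitPlane_of_norm_lt_one (by linarith)
    have hd : DifferentiableAt ℂ (fun s => 1 + w p j s) s := by
      rw [hw]
      simp only
      refine DifferentiableAt.const_add _ (DifferentiableAt.neg (DifferentiableAt.const_mul ?_ _))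
      refine DifferentiableAt.const_cpow (by fun_prop) (Or.inl ?_)
      have hp2 : 2 ≤ (p : ℕ) := p.2.two_le
      exact_mod_cast (by omega : (p : ℕ) ≠ 0)
    exact ((hd.clog hsl).neg).differentiableWithinAt
  have hD := differentiableOn_tsum_of_summable_norm husum hFd hUo hFb
  refine ⟨fun s => ∑' p, F p s, fun s hs => ⟨(hD s hs).differentiableAt (hUo.mem_nhds hs), ?_, ?_⟩⟩
  · have hsum : Summable (fun p => F p s) := Summable.of_norm_bounded husum fun p => hFb p s hs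
    have h1 := hsum.hasSum.cexp
    have h2 := hL s (by linarith)
    refine h2.unique (h1.congr_fun ?_ |> fun h => h)
    intro p
    rw [Function.comp, hF]
    simp only
    rw [Complex.exp_sum]
    refine Finset.prod_congr rfl fun j _ => ?_
    obtain ⟨h3, h4⟩ := hwb p j s hs
    have hne : 1 + w p j s ≠ 0 :=
      Complex.slitPlane_ne_zero (Complex.mem_slitPlane_of_norm_lt_one (by linarith))
    rw [Complex.exp_neg, Complex.exp_log hne, hw]
    simp only [sub_eq_add_neg]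
  · have h1 := tsum_of_norm_bounded husum.hasSum fun p => hFb p s hs
    refine h1.trans (le_of_eq ?_)
    rw [hu, tsum_mul_left, kE]
    ring

/-- the heat flow of `F` -/
def heat (F : ℂ → ℂ) (t : ℝ) (w : ℂ) : ℂ := ∫ x : ℝ, F (w + x) * cexp (-((x : ℂ) ^ 2) / (4 * t))

/-- **Zeros of the heat flow of completed L-functions.** -/
theorem CLF.flow (β κ : ℝ) (hβ : 0 ≤ β) (hκ : 0 ≤ κ) : ∃ K : ℝ, ∀ {m k : ℕ} (c A : ℝ) (μ : Fin m → ℂ)
    (ρ : Fin k → ℂ) (L F : ℂ → ℂ), CLF β κ c A μ ρ L F → ∀ (t : ℝ), 0 < t → ∀ w : ℂ,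
      K ≤ t * Real.log (cond c A μ w.im) → heat F t w = 0 →
        w.re = c ∧ deriv (heat F t) w ≠ 0 := by
  obtain ⟨C, hC⟩ := CLF.cl β κ hβ hκ
  refine ⟨4 * cK (2 * (β + 1)) C, ?_⟩
  intro m k c A μ ρ L F h t ht w hK hw
  have hcl := hC c A μ ρ L F h
  have hm : (0 : ℝ) ≤ m := Nat.cast_nonneg m
  have e1 : ∀ z : ℂ, H (fun z => F (c + z)) t z = heat F t (c + z) := by
    intro z
    unfold H heat gs
    congr 1
    funext x
    rw [add_assoc]
  have him : (w - c).im = w.im := by simp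
  have h1 := hcl.main ht (v := w.im) (w := w - c) (by
    have : 0 ≤ t * m := mul_nonneg ht.le hm
    linarith) him (by rw [e1, add_sub_cancel, hw])
  refine ⟨?_, ?_⟩
  · have := h1.1
    rw [sub_re, ofReal_re] at this
    linarith
  · have e2 : H (fun z => F (c + z)) t = fun z => heat F t (c + z) := by
      funext z; exact e1 z
    have h2 := h1.2
    rw [e2, deriv_comp_const_add, add_sub_cancel] at h2
    exact h2

end

end Pool.Agent.Helper40.HF
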