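import Pool.Agent.Helper40.HF.M
import Pool.Agent.Helper68.UL.NfC

set_option autoImplicit false
set_option maxHeartbeats 1000000

/-!
# Products; number fields
-/

open NumberField Complex Filter Topology Set MeasureTheory Metric
open scoped ComplexConjugate

namespace Pool.Agent.Helper40.HF

noncomputable section

lemma prod_append {m1 m2 : ℕ} {M : Type} [CommMonoid M] (a : Fin m1 → ℂ) (b : Fin m2 → ℂ) (g : ℂ → M) :
    ∏ j, g (Fin.append a b j) = (∏ j, g (a j)) * ∏ j, g (b j) := by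
  rw [Fin.prod_univ_add]
  congr 1
  · refine Finset.prod_congr rfl fun j _ => ?_
    rw [Fin.append_left]
  · refine Finset.prod_congr rfl fun j _ => ?_
    rw [Fin.append_right]

/-- products of completed L-functions -/
theorem CLF.mul {m1 m2 k1 k2 : ℕ} {β κ c A1 A2 : ℝ} {μ1 : Fin m1 → ℂ} {μ2 : Fin m2 → ℂ}
    {ρ1 : Fin k1 → ℂ} {ρ2 : Fin k2 → ℂ} {L1 L2 F1 F2 : ℂ → ℂ} (h1 : CLF β κ c A1 μ1 ρ1 L1 F1)
    (h2 : CLF β κ c A2 μ2 ρ2 L2 F2) :
    CLF β κ c (A1 * A2) (Fin.append μ1 μ2) (Fin.append ρ1 ρ2) (L1 * L2) (F1 * F2) := by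
  have hA1 := h1.A1
  have hA2 := h2.A1
  refine ⟨Nat.add_pos_left h1.m0 _, ?_, h1.β0, h1.κ0, ?_, ?_, ?_, h1.ent.mul h2.ent, ?_, ?_, ?_, ?_⟩
  · have := h1.km
    have := h2.km
    omega
  · nlinarith
  · intro j
    refine Fin.addCases (fun i => ?_) (fun i => ?_) j
    · rw [Fin.append_left]; exact h1.μ0 i
    · rw [Fin.append_right]; exact h2.μ0 i
  · intro j
    refine Fin.addCases (fun i => ?_) (fun i => ?_) j
    · rw [Fin.append_left]; exact h1.ρ0 i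
    · rw [Fin.append_right]; exact h2.ρ0 i
  · intro σ
    obtain ⟨a1, B1, hB1⟩ := h1.ord σ
    obtain ⟨a2, B2, hB2⟩ := h2.ord σ
    refine ⟨a1 + a2, |B1| + |B2|, fun s hs => ?_⟩
    rw [Pi.mul_apply, norm_mul]
    refine (mul_le_mul (hB1 s hs) (hB2 s hs) (norm_nonneg _) (Real.exp_pos _).le).trans ?_
    rw [← Real.exp_add]
    refine Real.exp_le_exp.2 ?_
    have hx : 1 ≤ 1 + |s.im| := by have := abs_nonneg s.im; linarith
    have p1 : (1 + |s.im|) ^ a1 ≤ (1 + |s.im|) ^ (a1 + a2) := pow_le_pow_right₀ hx (by omega)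
    have p2 : (1 + |s.im|) ^ a2 ≤ (1 + |s.im|) ^ (a1 + a2) := pow_le_pow_right₀ hx (by omega)
    have q1 : 0 ≤ (1 + |s.im|) ^ a1 := by positivity
    have q2 : 0 ≤ (1 + |s.im|) ^ a2 := by positivity
    calc B1 * (1 + |s.im|) ^ a1 + B2 * (1 + |s.im|) ^ a2 ≤
        |B1| * (1 + |s.im|) ^ a1 + |B2| * (1 + |s.im|) ^ a2 := by
          gcongr <;> exact le_abs_self _
      _ ≤ |B1| * (1 + |s.im|) ^ (a1 + a2) + |B2| * (1 + |s.im|) ^ (a1 + a2) := by gcongr
      _ = _ := by ring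
  · intro s hs
    rw [Pi.mul_apply, Pi.mul_apply, h1.val s hs, h2.val s hs,
      prod_append ρ1 ρ2 (fun z => s - z), prod_append μ1 μ2 (fun z => Gammaℝ (s + z))]
    have e : ((A1 * A2 : ℝ) : ℂ) ^ (s / 2) = (A1 : ℂ) ^ (s / 2) * (A2 : ℂ) ^ (s / 2) := by
      rw [Complex.ofReal_mul, Complex.mul_cpow_ofReal_nonneg (by linarith) (by linarith)]
    rw [e]
    ring
  · obtain ⟨g1, hg1⟩ := h1.bd
    obtain ⟨g2, hg2⟩ := h2.bd
    refine ⟨fun s => g1 s + g2 s, fun s hs => ?_⟩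
    obtain ⟨a1, b1, c1⟩ := hg1 s hs
    obtain ⟨a2, b2, c2⟩ := hg2 s hs
    refine ⟨a1.add a2, ?_, ?_⟩
    · rw [Pi.mul_apply, b1, b2, Complex.exp_add]
    · refine (norm_add_le _ _).trans ?_
      push_cast
      linarith
  · obtain ⟨ε1, n1, f1⟩ := h1.fe
    obtain ⟨ε2, n2, f2⟩ := h2.fe
    refine ⟨ε1 * ε2, by rw [norm_mul, n1, n2, one_mul], fun s => ?_⟩
    rw [Pi.mul_apply, Pi.mul_apply, f1, f2, map_mul]
    ring

lemma cond_append {m1 m2 : ℕ} (c A1 A2 : ℝ) (μ1 : Fin m1 → ℂ) (μ2 : Fin m2 → ℂ) (t : ℝ) :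
    cond c (A1 * A2) (Fin.append μ1 μ2) t = cond c A1 μ1 t * cond c A2 μ2 t := by
  unfold cond
  rw [prod_append μ1 μ2 (fun z => ‖(c : ℂ) + t * I + z‖ + 3)]
  ring

/-- completed L-functions with conductor at least `Q` -/
def Good (β κ c : ℝ) (Q : ℝ → ℝ) (L F : ℂ → ℂ) : Prop :=
  (∀ t, 0 < Q t) ∧ ∃ (m k : ℕ) (A : ℝ) (μ : Fin m → ℂ) (ρ : Fin k → ℂ), CLF β κ c A μ ρ L F ∧
    ∀ t, Q t ≤ cond c A μ t

lemma Good.mul {β κ c : ℝ} {Q1 Q2 : ℝ → ℝ} {L1 L2 F1 F2 : ℂ → ℂ} (h1 : Good β κ c Q1 L1 F1)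
    (h2 : Good β κ c Q2 L2 F2) : Good β κ c (Q1 * Q2) (L1 * L2) (F1 * F2) := by
  obtain ⟨p1, m1, k1, A1, μ1, ρ1, g1, c1⟩ := h1
  obtain ⟨p2, m2, k2, A2, μ2, ρ2, g2, c2⟩ := h2
  refine ⟨fun t => mul_pos (p1 t) (p2 t), m1 + m2, k1 + k2, A1 * A2, Fin.append μ1 μ2,
    Fin.append ρ1 ρ2, g1.mul g2, fun t => ?_⟩
  rw [cond_append, Pi.mul_apply]
  exact mul_le_mul (c1 t) (c2 t) (p2 t).le ((p1 t).le.trans (c1 t))

lemma Good.prod {β κ c : ℝ} {ι : Type} (s : Finset ι) (hs : s.Nonempty) {Q : ι → ℝ → ℝ}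
    {L F : ι → ℂ → ℂ} (h : ∀ i, Good β κ c (Q i) (L i) (F i)) :
    Good β κ c (∏ i ∈ s, Q i) (∏ i ∈ s, L i) (∏ i ∈ s, F i) := by
  classical
  induction hs using Finset.Nonempty.cons_induction with
  | singleton i => simpa using h i
  | cons i s hi hs ih =>
    rw [Finset.prod_cons, Finset.prod_cons, Finset.prod_cons]
    exact (h i).mul ih

lemma Good.flow (β κ : ℝ) (hβ : 0 ≤ β) (hκ : 0 ≤ κ) : ∃ K : ℝ, ∀ (c : ℝ) (Q : ℝ → ℝ) (L F : ℂ → ℂ),
    Good β κ c Q L F → ∀ (t : ℝ), 0 < t → ∀ w : ℂ,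
      K ≤ t * Real.log (Q w.im) → heat F t w = 0 → w.re = c ∧ deriv (heat F t) w ≠ 0 := by
  obtain ⟨K, hK⟩ := CLF.flow β κ hβ hκ
  refine ⟨K, ?_⟩
  intro c Q L F h t ht w h1 h2
  obtain ⟨p, m, k, A, μ, ρ, g, hc⟩ := h
  refine hK c A μ ρ L F g t ht w (h1.trans ?_) h2
  exact mul_le_mul_of_nonneg_left (Real.log_le_log (p _) (hc _)) ht.le

/-- the constant for number fields -/
def kN : ℝ := 2 * Helper68.UL.SL 2

lemma kN_nonneg : 0 ≤ kN := by
  unfold kN Helper68.UL.SL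
  refine mul_nonneg (by norm_num) (tsum_nonneg fun n => ?_)
  exact mul_nonneg ArithmeticFunction.vonMangoldt_nonneg (by positivity)

open Pool.Agent.Y773 Pool.Agent.Y772.DK in
open Pool.Agent.Y772.NZ (one one_ne one_norm LI_one) in
/-- number fields -/
theorem nf_good (K : Type) [Field K] [NumberField K] : ∃ F : ℂ → ℂ,
    Good (3 / 2) kN (1 / 2) (fun t => |(discr K : ℝ)| * (|t| + 3) ^ Module.finrank ℚ K)
      (dedekindZeta K) F ∧ Differentiable ℂ F ∧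
    ∀ s : ℂ, 1 < s.re → F s = s * (s - 1) * ((|(discr K : ℝ)| : ℝ) : ℂ) ^ (s / 2) *
      Gammaℝ s ^ InfinitePlace.nrRealPlaces K * Gammaℂ s ^ InfinitePlace.nrComplexPlaces K *
      dedekindZeta K s := by
  obtain ⟨F, h, hval⟩ := Helper68.UL.nf_CL K (δ := 1) one_pos
  refine ⟨F, ?_, h.ent, hval⟩
  have hA : 1 ≤ |(discr K : ℝ)| := h.A1
  have hn : 0 < Module.finrank ℚ K := Module.finrank_pos
  refine ⟨fun t => ?_, Module.finrank ℚ K, 2, |(discr K : ℝ)|,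
    fun j => ((Helper68.UL.muK (InfinitePlace.nrRealPlaces K + InfinitePlace.nrComplexPlaces K)
      (Module.finrank ℚ K) j : ℝ) : ℂ), ![0, 1], ?_, fun t => ?_⟩
  · have := abs_nonneg t
    positivity
  · refine ⟨hn, by omega, by norm_num, kN_nonneg, hA, ?_, ?_, h.ent, ?_, ?_, ?_, ?_⟩
    · intro j
      rw [ofReal_re]
      exact h.μ0 j
    · intro i
      have := h.ρ0 i
      linarith
    · intro σ
      obtain ⟨a, B, hB⟩ := h.ord
      refine ⟨a, |B| * (1 + |σ|) ^ a, fun s hs => (hB s).trans (Real.exp_le_exp.2 ?_)⟩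
      have h1 : 1 + ‖s‖ ≤ (1 + |σ|) * (1 + |s.im|) := by
        have h2 := Complex.norm_le_abs_re_add_abs_im s
        have h3 := le_abs_self σ
        have h4 := abs_nonneg s.im
        nlinarith [mul_nonneg (abs_nonneg σ) h4]
      calc B * (1 + ‖s‖) ^ a ≤ |B| * (1 + ‖s‖) ^ a := by
            gcongr; exact le_abs_self B
        _ ≤ |B| * ((1 + |σ|) * (1 + |s.im|)) ^ a := by gcongr
        _ = _ := by rw [mul_pow]; ring
    · intro s hs
      exact h.val s (by linarith)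
    · refine ⟨fun s => LA (ee (one K)) s, fun s hs => ?_⟩
      have hs1 : 1 < s.re := by linarith
      refine ⟨?_, ?_, ?_⟩
      · exact (LA_diff (ee_zero (one K)) (ee_le (one K) (one_norm K)) hs1).1
      · rw [← LI_one K hs1, LI_eq_exp (one K) (one_norm K) hs1]
      · have := Helper68.UL.LA_bound K (x := 2) (by norm_num) (s := s) (by linarith)
        refine this.trans (le_of_eq ?_)
        unfold kN
        ring
    · refine ⟨1, by simp, fun s => ?_⟩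
      have e := h.fe (conj s)
      rw [e, h.cj, one_mul]
  · unfold cond
    have hle : ∀ j : Fin (Module.finrank ℚ K), |t| + 3 ≤
        ‖((1 / 2 : ℝ) : ℂ) + t * I + ((Helper68.UL.muK (InfinitePlace.nrRealPlaces K +
          InfinitePlace.nrComplexPlaces K) (Module.finrank ℚ K) j : ℝ) : ℂ)‖ + 3 := by
      intro j
      have h1 := Complex.abs_im_le_norm (((1 / 2 : ℝ) : ℂ) + t * I +
        ((Helper68.UL.muK (InfinitePlace.nrRealPlaces K +
          InfinitePlace.nrComplexPlaces K) (Module.finrank ℚ K) j : ℝ) : ℂ))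
      rw [add_im, add_im, ofReal_im, ofReal_im, Complex.im_ofReal_mul, I_im, mul_one, zero_add,
        add_zero] at h1
      linarith
    refine mul_le_mul_of_nonneg_left ?_ (by linarith)
    calc (|t| + 3) ^ Module.finrank ℚ K = ∏ _j : Fin (Module.finrank ℚ K), (|t| + 3) := by
          rw [Finset.prod_const, Finset.card_univ, Fintype.card_fin]
      _ ≤ _ := Finset.prod_le_prod (fun j _ => by have := abs_nonneg t; linarith) fun j _ => hle j

end

end Pool.Agent.Helper40.HF
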