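import Pool.Agent.Helper40.HF.N
import Pool.Graph.R_seed8.H353R7.G5

set_option autoImplicit false
set_option maxHeartbeats 1000000

/-!
# Dirichlet characters
-/

open Complex Filter Topology Set MeasureTheory Metric
open scoped ComplexConjugate

namespace Pool.Agent.Helper40.HF

noncomputable section

open H370.DL H429.GP H855R2.SF H353.E H353.F

theorem dir_good {q : ℕ} [NeZero q] {χ : DirichletCharacter ℂ q} (hq : 1 < q) (hχ : χ.IsPrimitive) :
    Good (3 / 2) kE (1 / 2) (fun t => q * (|t| + 3)) (DirichletCharacter.LFunction χ)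
      (fun s => (q : ℂ) ^ (s / 2) * DirichletCharacter.completedLFunction χ s) := by
  have d := datumT_dir hq hχ
  have hq0 : (0 : ℝ) < q := by exact_mod_cast (by omega : 0 < q)
  have hqc : (q : ℂ) ≠ 0 := by exact_mod_cast (by omega : q ≠ 0)
  have hq1 : (1 : ℝ) ≤ q := by exact_mod_cast hq.le
  have hcc : ∀ s : ℂ, (((q : ℝ) : ℂ)) ^ s = (q : ℂ) ^ s := by intro s; norm_cast
  have hent : Differentiable ℂ (fun s => (q : ℂ) ^ (s / 2) * DirichletCharacter.completedLFunction χ s) := by
    refine Differentiable.mul ?_ d.entire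
    intro s
    exact DifferentiableAt.const_cpow (by fun_prop) (Or.inl hqc)
  have hE : IsEuler 1 0 (DirichletCharacter.LFunction χ) := by
    refine ⟨fun p _ => χ (p : ℕ), fun p j => ?_, fun s hs => ?_⟩
    · rw [Real.rpow_zero]
      exact DirichletCharacter.norm_le_one χ _
    · have hs1 : 1 < s.re := by linarith
      have h1 := DirichletCharacter.LSeries_eulerProduct_hasProd χ hs1
      rw [DirichletCharacter.LFunction_eq_LSeries χ hs1]
      simpa using h1
  refine ⟨fun t => ?_, 1, 0, q, fun _ => aa χ, ![], ⟨one_pos, by norm_num, by norm_num, kE_nonneg,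
    hq1, ?_, fun i => i.elim0, hent, ?_, ?_, ?_, ?_⟩, fun t => ?_⟩
  · have := abs_nonneg t
    positivity
  · intro j
    have := aa_re_nonneg (χ := χ)
    linarith
  · intro σ
    obtain ⟨M, hM⟩ := d.bdd (-|σ|) |σ|
    refine ⟨1, |M| + Real.log q * |σ|, fun s hs => ?_⟩
    have hs' : |s.re| ≤ |σ| := hs.trans (le_abs_self σ)
    have h1 := hM s (abs_le.1 hs').1 (abs_le.1 hs').2
    rw [norm_mul]
    have h2 : ‖(q : ℂ) ^ (s / 2)‖ ≤ Real.exp (Real.log q * |σ|) := by
      rw [Complex.norm_natCast_cpow_of_pos (by omega), Real.rpow_def_of_pos hq0]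
      refine Real.exp_le_exp.2 (mul_le_mul_of_nonneg_left ?_ (Real.log_nonneg hq1))
      have e2 : (s / 2).re = s.re / 2 := by
        rw [show (2 : ℂ) = ((2 : ℝ) : ℂ) by norm_num, Complex.div_ofReal_re]
      rw [e2]
      have := le_abs_self s.re
      have := abs_nonneg s.re
      linarith
    calc ‖(q : ℂ) ^ (s / 2)‖ * ‖DirichletCharacter.completedLFunction χ s‖ ≤
          Real.exp (Real.log q * |σ|) * Real.exp (M * (1 + |s.im|)) :=
          mul_le_mul h2 h1 (norm_nonneg _) (Real.exp_pos _).le
      _ ≤ _ := by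
          rw [← Real.exp_add]
          refine Real.exp_le_exp.2 ?_
          have h3 := abs_nonneg s.im
          have h4 : 0 ≤ Real.log q * |σ| := mul_nonneg (Real.log_nonneg hq1) (abs_nonneg _)
          have h5 : M * (1 + |s.im|) ≤ |M| * (1 + |s.im|) :=
            mul_le_mul_of_nonneg_right (le_abs_self M) (by linarith)
          rw [pow_one]
          nlinarith
  · intro s hs
    have hs0 : 0 < s.re := by linarith
    simp only [Finset.univ_eq_empty, Finset.prod_empty, one_mul, Finset.univ_unique,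
      Finset.prod_singleton]
    rw [completed_eq hq hs0, sub_neg_eq_add, hcc]
    ring
  · obtain ⟨g, hg⟩ := hE.bd
    exact ⟨g, fun s hs => hg s (by linarith)⟩
  · refine ⟨DirichletCharacter.rootNumber χ, d.norm_eq, fun s => ?_⟩
    have h1 := d.fe (1 - conj s)
    rw [hcc] at h1
    have e1 : (1 : ℂ) - conj (1 - conj s) = s := by
      rw [map_sub, map_one, Complex.conj_conj]; ring
    rw [e1] at h1
    have e2 : 2 * ((1 / 2 : ℝ) : ℂ) - conj s = 1 - conj s := by push_cast; ring
    rw [e2, h1, map_mul]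
    have e3 : conj ((q : ℂ) ^ (s / 2)) = (q : ℂ) ^ (conj s / 2) := by
      have := conj_cpow_real hq0 (s / 2)
      rw [hcc, hcc] at this
      rw [this, map_div₀]
      congr 2
      exact Complex.conj_ofReal 2
    rw [e3]
    have e4 : (q : ℂ) ^ ((1 - conj s) / 2) * (q : ℂ) ^ (1 / 2 - (1 - conj s)) =
        (q : ℂ) ^ (conj s / 2) := by
      rw [← Complex.cpow_add _ _ hqc]
      congr 1
      ring
    calc (q : ℂ) ^ ((1 - conj s) / 2) * (DirichletCharacter.rootNumber χ *
          (q : ℂ) ^ (1 / 2 - (1 - conj s)) * conj (DirichletCharacter.completedLFunction χ s)) =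
          DirichletCharacter.rootNumber χ * (((q : ℂ) ^ ((1 - conj s) / 2) *
          (q : ℂ) ^ (1 / 2 - (1 - conj s))) * conj (DirichletCharacter.completedLFunction χ s)) := by ring
      _ = _ := by rw [e4]
  · unfold cond
    simp only [Finset.univ_unique, Finset.prod_singleton]
    refine mul_le_mul_of_nonneg_left ?_ hq0.le
    have h1 := Complex.abs_im_le_norm (((1 / 2 : ℝ) : ℂ) + t * I + aa χ)
    have h2 : (((1 / 2 : ℝ) : ℂ) + t * I + aa χ).im = t := by
      rw [add_im, add_im, ofReal_im, Complex.im_ofReal_mul, I_im, aa_im]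
      ring
    rw [h2] at h1
    linarith

end

end Pool.Agent.Helper40.HF
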