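import Pool.Agent.Helper40.HF.N
import Pool.Agent.Helper40.HW.Cf

set_option autoImplicit false
set_option maxHeartbeats 1000000

/-!
# Cusp forms
-/

open Complex Filter Topology Set MeasureTheory Metric UpperHalfPlane MatrixGroups CongruenceSubgroup
open scoped ComplexConjugate

namespace Pool.Agent.Helper40.HF

noncomputable section

/-- Dirichlet series close to one -/
lemma ds_close {a : ℕ → ℂ} {x : ℝ} (h0 : a 0 = 0) (h1 : a 1 = 1)
    (hb : ∀ n : ℕ, 2 ≤ n → ‖a n‖ ≤ (n : ℝ) ^ x) {s : ℂ} (hs : x + 3 ≤ s.re)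
    (hsum : Summable fun n : ℕ => a n * (n : ℂ) ^ (-s)) :
    ‖(∑' n : ℕ, a n * (n : ℂ) ^ (-s)) - 1‖ ≤ 1 / 2 := by
  classical
  have e1 := hsum.tsum_eq_add_tsum_ite 1
  have e2 : a 1 * ((1 : ℕ) : ℂ) ^ (-s) = 1 := by rw [h1]; simp
  rw [e1, e2, add_sub_cancel_left]
  have hz := (hasSum_zeta_two.mul_left (1 / 2))
  have hz2 := hasSum_ite_sub_hasSum hz 1
  refine (tsum_of_norm_bounded hz2 fun n => ?_).trans ?_
  · by_cases hn : n = 1
    · rw [if_pos hn, if_pos hn, norm_zero]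
    · rw [if_neg hn, if_neg hn]
      rcases Nat.eq_zero_or_pos n with rfl | hn0
      · rw [h0, zero_mul, norm_zero]; simp
      · have hn2 : 2 ≤ n := by omega
        have hnR : (2 : ℝ) ≤ n := by exact_mod_cast hn2
        have hn' : (0 : ℝ) < n := by linarith
        rw [norm_mul, Complex.norm_natCast_cpow_of_pos hn0, neg_re]
        calc ‖a n‖ * (n : ℝ) ^ (-s.re) ≤ (n : ℝ) ^ x * (n : ℝ) ^ (-s.re) := by
              gcongr
              exact hb n hn2
          _ = (n : ℝ) ^ (x + -s.re) := (Real.rpow_add hn' _ _).symm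
          _ ≤ (n : ℝ) ^ (-3 : ℝ) :=
              Real.rpow_le_rpow_of_exponent_le (by linarith) (by linarith)
          _ ≤ 1 / 2 * (1 / (n : ℝ) ^ 2) := by
              rw [Real.rpow_neg hn'.le]
              have e3 : (n : ℝ) ^ (3 : ℝ) = (n : ℝ) ^ 3 := by norm_cast
              rw [e3, ← one_div, div_mul_div_comm, one_mul]
              refine one_div_le_one_div_of_le (by positivity) ?_
              nlinarith [sq_nonneg (n : ℝ)]
  · have := Real.pi_lt_d2
    have hp := Real.pi_pos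
    norm_num
    nlinarith

/-- **The completed L-function of a cusp form**, with uniform data. -/
theorem cf_good {N : ℕ} [NeZero N] {k : ℤ} (hk : 1 ≤ k)
    (f : CuspForm (Gamma0 N : Subgroup (GL (Fin 2) ℝ)) k) (ε : ℝ)
    (h1 : (qExpansion 1 f).coeff 1 = 1) (hreal : ∀ n, ((qExpansion 1 f).coeff n).im = 0)
    (hbd : ∀ n : ℕ, 1 ≤ n → ‖(qExpansion 1 f).coeff n‖ ≤ (n : ℝ) ^ (((k : ℝ) + 1) / 2))
    (hε : ε = 1 ∨ ε = -1)
    (fricke : ∀ τ τ' : ℍ, (τ' : ℂ) * ((N : ℂ) * (τ : ℂ)) = -1 →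
      f τ' = (ε : ℂ) * (((Real.sqrt N : ℝ) : ℂ) * (τ : ℂ) / Complex.I) ^ k * f τ) :
    ∃ F : ℂ → ℂ, Good (7 / 2) 1 (k / 2) (fun t => N * (k + |t| + 3))
        (fun s => ∑' n : ℕ, (qExpansion 1 f).coeff n * (n : ℂ) ^ (-s)) F ∧ Differentiable ℂ F ∧
      ∀ s : ℂ, (k : ℝ) / 2 + 1 < s.re →
        F s = (N : ℂ) ^ (s / 2) * Gammaℂ s *
          ∑' n : ℕ, (qExpansion 1 f).coeff n * (n : ℂ) ^ (-s) := by
  obtain ⟨β, F, ⟨-, m', k', μ', ρ', A', g⟩, hval⟩ := HW.cf_good hk f ε h1 hreal hε fricke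
  set a : ℕ → ℂ := fun n => (qExpansion 1 f).coeff n with ha
  have ha0 : a 0 = 0 := HW.coeff_zero' f
  have hkr : (1 : ℝ) ≤ k := by exact_mod_cast hk
  have hN : (1 : ℝ) ≤ N := by
    exact_mod_cast Nat.one_le_iff_ne_zero.2 (NeZero.ne N)
  have hNc : (N : ℂ) ≠ 0 := by exact_mod_cast NeZero.ne N
  have hNcc : ∀ s : ℂ, (((N : ℝ) : ℂ)) ^ s = (N : ℂ) ^ s := by intro s; norm_cast
  have hclose : ∀ s : ℂ, (k : ℝ) / 2 + 7 / 2 < s.re →
      ‖(∑' n : ℕ, a n * (n : ℂ) ^ (-s)) - 1‖ ≤ 1 / 2 := by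
    intro s hs
    refine ds_close (x := ((k : ℝ) + 1) / 2) ha0 h1 (fun n hn => hbd n (by omega)) (by linarith) ?_
    exact (hval s (by linarith)).1
  refine ⟨F, ⟨fun t => ?_, 2, 0, N, ![0, 1], ![], ⟨by norm_num, by norm_num, by norm_num,
    by norm_num, hN, ?_, fun i => i.elim0, g.diff, ?_, ?_, ?_, ?_⟩, fun t => ?_⟩, g.diff,
    fun s hs => (hval s hs).2⟩
  · have := abs_nonneg t
    positivity
  · intro j
    fin_cases j
    · simp; linarith
    · simp; linarith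
  · intro σ
    obtain ⟨n, B, hB⟩ := g.fin
    refine ⟨n, |B| * (1 + |σ|) ^ n, fun s hs => (hB s).trans (Real.exp_le_exp.2 ?_)⟩
    have h2 : 1 + ‖s‖ ≤ (1 + |σ|) * (1 + |s.im|) := by
      have h2 := Complex.norm_le_abs_re_add_abs_im s
      have h3 := le_abs_self σ
      have h4 := abs_nonneg s.im
      nlinarith [mul_nonneg (abs_nonneg σ) h4]
    calc B * (1 + ‖s‖) ^ n ≤ |B| * (1 + ‖s‖) ^ n := by
          gcongr; exact le_abs_self B
      _ ≤ |B| * ((1 + |σ|) * (1 + |s.im|)) ^ n := by gcongr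
      _ = _ := by rw [mul_pow]; ring
  · intro s hs
    rw [(hval s (by linarith)).2, Fin.prod_univ_two, ← Gammaℝ_mul_Gammaℝ_add_one, hNcc]
    simp
  · refine ⟨fun s => Complex.log (∑' n : ℕ, a n * (n : ℂ) ^ (-s)), fun s hs => ?_⟩
    have hc := hclose s hs
    have hsl : (∑' n : ℕ, a n * (n : ℂ) ^ (-s)) ∈ slitPlane := by
      have := Complex.mem_slitPlane_of_norm_lt_one (z := (∑' n : ℕ, a n * (n : ℂ) ^ (-s)) - 1)
        (by linarith)
      rwa [add_sub_cancel] at this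
    refine ⟨?_, ?_, ?_⟩
    · have hd : DifferentiableAt ℂ (fun s => ∑' n : ℕ, a n * (n : ℂ) ^ (-s)) s := by
        have hev : (fun s => ∑' n : ℕ, a n * (n : ℂ) ^ (-s)) =ᶠ[𝓝 s]
            fun s => F s * ((N : ℂ) ^ (-(s / 2)) * ((Gammaℝ s)⁻¹ * (Gammaℝ (s + 1))⁻¹)) := by
          have ho : IsOpen {w : ℂ | (k : ℝ) / 2 + 1 < w.re} := isOpen_lt continuous_const continuous_re
          filter_upwards [ho.mem_nhds (show (k : ℝ) / 2 + 1 < s.re by linarith)] with w hw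
          have hw' : (k : ℝ) / 2 + 1 < w.re := hw
          rw [(hval w hw').2, ← Gammaℝ_mul_Gammaℝ_add_one, Complex.cpow_neg]
          have n1 : Gammaℝ w ≠ 0 := Gammaℝ_ne_zero_of_re_pos (by linarith)
          have n2 : Gammaℝ (w + 1) ≠ 0 := Gammaℝ_ne_zero_of_re_pos (by
            rw [add_re, one_re]; linarith)
          have n3 : (N : ℂ) ^ (w / 2) ≠ 0 := by
            rw [Ne, Complex.cpow_eq_zero_iff]
            exact fun h => hNc h.1
          field_simp
          rfl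
        refine DifferentiableAt.congr_of_eventuallyEq ?_ hev
        refine (g.diff s).mul (DifferentiableAt.mul ?_ (DifferentiableAt.mul ?_ ?_))
        · exact DifferentiableAt.const_cpow (by fun_prop) (Or.inl hNc)
        · exact differentiable_Gammaℝ_inv s
        · exact DifferentiableAt.comp (g := fun z => (Gammaℝ z)⁻¹) (f := fun z : ℂ => z + 1) s
            (differentiable_Gammaℝ_inv (s + 1)) (by fun_prop)
      exact hd.clog hsl
    · exact (Complex.exp_log (Complex.slitPlane_ne_zero hsl)).symm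
    · have := Complex.norm_log_one_add_half_le_self (z := (∑' n : ℕ, a n * (n : ℂ) ^ (-s)) - 1) hc
      rw [add_sub_cancel] at this
      refine this.trans ?_
      push_cast
      linarith
  · refine ⟨(ε : ℂ), ?_, fun s => ?_⟩
    · rcases hε with h | h <;> rw [h] <;> simp
    · rw [g.fe, g.conj]
  · unfold cond
    rw [Fin.prod_univ_two]
    have ht := abs_nonneg t
    have hlow : ∀ w : ℝ, 0 ≤ w → ((k : ℝ) + |t|) / 4 + 3 ≤
        ‖(((k : ℝ) / 2 : ℝ) : ℂ) + t * Complex.I + (w : ℂ)‖ + 3 := by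
      intro w hw
      have h2 := Complex.abs_im_le_norm ((((k : ℝ) / 2 : ℝ) : ℂ) + t * Complex.I + (w : ℂ))
      have h3 := Complex.re_le_norm ((((k : ℝ) / 2 : ℝ) : ℂ) + t * Complex.I + (w : ℂ))
      have e2 : ((((k : ℝ) / 2 : ℝ) : ℂ) + t * Complex.I + (w : ℂ)).im = t := by simp
      have e3 : ((((k : ℝ) / 2 : ℝ) : ℂ) + t * Complex.I + (w : ℂ)).re = k / 2 + w := by simp
      rw [e2] at h2
      rw [e3] at h3
      linarith
    have h2 := hlow 0 le_rfl
    have h3 := hlow 1 zero_le_one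
    rw [ofReal_zero] at h2
    rw [ofReal_one] at h3
    have e0 : (![0, 1] : Fin 2 → ℂ) 0 = 0 := rfl
    have e1 : (![0, 1] : Fin 2 → ℂ) 1 = 1 := rfl
    rw [e0, e1]
    refine mul_le_mul_of_nonneg_left ?_ (by linarith)
    calc (k : ℝ) + |t| + 3 ≤ (((k : ℝ) + |t|) / 4 + 3) * (((k : ℝ) + |t|) / 4 + 3) := by nlinarith
      _ ≤ _ := mul_le_mul h2 h3 (by linarith) (by linarith)

end

end Pool.Agent.Helper40.HF
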